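import Mathlib

set_option autoImplicit false

namespace Pool.Agent.NL

open Finset

theorem two_of_noslide {D V : Type} [Fintype D] [Fintype V] [DecidableEq D] [DecidableEq V]
    (node : D → V) (t : D → D) (ht : ∀ d, t (t d) = d) (hf : ∀ d, t d ≠ d)
    (h2 : ∀ v, 2 ≤ (univ.filter (fun d => node d = v)).card)
    (hno : ∀ f : D → ℚ, (∀ d, f (t d) = f d) →
      (∀ v, ∑ d ∈ univ.filter (fun d => node d = v), f d = 0) → ∀ d, f d = 0) :
    ∀ v, (univ.filter (fun d => node d = v)).card = 2 := by
  classical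
  by_contra hcon
  push Not at hcon
  obtain ⟨v0, hv0⟩ := hcon
  have hsum : Fintype.card D = ∑ v, (univ.filter (fun d => node d = v)).card := by
    rw [← Finset.card_univ]
    exact Finset.card_eq_sum_card_fiberwise (f := node) (t := univ) (fun _ _ => by simp)
  have hlt : 2 * Fintype.card V < Fintype.card D := by
    rw [hsum, ← Finset.card_univ, mul_comm, ← smul_eq_mul, ← Finset.sum_const]
    apply Finset.sum_lt_sum (fun v _ => h2 v)
    exact ⟨v0, by simp, lt_of_le_of_ne (h2 v0) (Ne.symm hv0)⟩
  let e := Fintype.equivFin D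
  let R := univ.filter (fun d => e d < e (t d))
  have hR : 2 * R.card = Fintype.card D := by
    have h1 : (univ.filter (fun d => ¬ e d < e (t d))).card = R.card := by
      apply Finset.card_bij (fun d _ => t d)
      · intro d hd
        simp only [R, mem_filter, mem_univ, true_and, not_lt] at hd ⊢
        rw [ht]
        rcases lt_or_eq_of_le hd with h | h
        · exact h
        · exact absurd (e.injective h) (hf d)
      · intro a _ b _ hab
        rw [← ht a, ← ht b, hab]
      · intro b hb
        refine ⟨t b, ?_, ht b⟩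
        simp only [R, mem_filter, mem_univ, true_and, not_lt] at hb ⊢
        rw [ht]
        exact hb.le
    have h3 := Finset.card_filter_add_card_filter_not (s := (univ : Finset D)) (fun d => e d < e (t d))
    rw [h1, Finset.card_univ] at h3
    change R.card + R.card = _ at h3
    omega
  let Φ : (D → ℚ) →ₗ[ℚ] (V → ℚ) × (R → ℚ) :=
    LinearMap.prod
      (LinearMap.pi fun v => ∑ d ∈ univ.filter (fun d => node d = v),
        (LinearMap.proj d : (D → ℚ) →ₗ[ℚ] ℚ))
      (LinearMap.pi fun r => (LinearMap.proj r.1 : (D → ℚ) →ₗ[ℚ] ℚ) - LinearMap.proj (t r.1))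
  have hker : LinearMap.ker Φ ≠ ⊥ := by
    apply LinearMap.ker_ne_bot_of_finrank_lt
    simp only [Module.finrank_prod, Module.finrank_fintype_fun_eq_card, Fintype.card_coe]
    omega
  obtain ⟨f, hfk, hf0⟩ := (Submodule.ne_bot_iff _).1 hker
  apply hf0
  rw [LinearMap.mem_ker] at hfk
  have hfst := congrArg Prod.fst hfk
  have hsnd := congrArg Prod.snd hfk
  funext d
  apply hno f
  · intro d
    by_cases hd : e d < e (t d)
    · have := congrFun hsnd ⟨d, by simp [R, hd]⟩
      simp [Φ] at this
      linarith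
    · have hd' : e (t d) < e (t (t d)) := by
        rw [ht]
        rcases lt_or_eq_of_le (not_lt.1 hd) with h | h
        · exact h
        · exact absurd (e.injective h) (hf d)
      have := congrFun hsnd ⟨t d, by simp only [R, mem_filter, mem_univ, true_and]; exact hd'⟩
      simp [Φ, ht] at this
      linarith
  · intro v
    have := congrFun hfst v
    simpa [Φ] using this

theorem even_card_of_inv {D : Type} [DecidableEq D] (s : Finset D) (t : D → D)
    (hm : ∀ d ∈ s, t d ∈ s) (ht : ∀ d ∈ s, t (t d) = d) (hf : ∀ d ∈ s, t d ≠ d) : Even s.card := by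
  have h : ∑ _x ∈ s, (1 : ZMod 2) = 0 := by
    apply Finset.sum_involution (fun a _ => t a)
    · intro a ha; decide
    · intro a ha _; exact hf a ha
    · intro a ha; exact hm a ha
    · intro a ha; exact ht a ha
  simp at h
  exact (ZMod.natCast_eq_zero_iff_even).1 h

section orbit

variable {D : Type} (t1 t2 : D → D) (x : D)

/-- the sequence a_k -/
def oa : ℕ → D
  | 0 => t1 x
  | k + 1 => t1 (t2 (oa k))

lemma oa_succ (k : ℕ) : oa t1 t2 x (k+1) = t1 (t2 (oa t1 t2 x k)) := rfl

lemma oa_ne (h1 : ∀ d, t1 (t1 d) = d) (h2 : ∀ d, t2 (t2 d) = d)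
    (f1 : ∀ d, t1 d ≠ d) (f2 : ∀ d, t2 d ≠ d) (s : ℕ) :
    ∀ k e, e ≤ s → t1 (oa t1 t2 x k) ≠ oa t1 t2 x (k + e) := by
  induction s with
  | zero =>
    intro k e he
    have : e = 0 := by omega
    subst this
    simpa using f1 _
  | succ s ih =>
    intro k e he
    rcases Nat.lt_or_ge e 2 with h | h
    · interval_cases e
      · simpa using f1 _
      · intro hc
        rw [oa_succ] at hc
        have := congrArg t1 hc
        rw [h1, h1] at this
        exact f2 _ this.symm
    · obtain ⟨e', rfl⟩ : ∃ e', e = e' + 2 := ⟨e - 2, by omega⟩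
      intro hc
      apply ih (k+1) e' (by omega)
      have e1 : k + 1 + e' = k + e' + 1 := by ring
      rw [e1, oa_succ, h1]
      have e2 : k + (e' + 2) = (k + e' + 1) + 1 := by ring
      rw [e2, oa_succ] at hc
      have := congrArg t1 hc
      rw [h1, h1] at this
      rw [this, h2]

lemma oa_ne' (h1 : ∀ d, t1 (t1 d) = d) (h2 : ∀ d, t2 (t2 d) = d)
    (f1 : ∀ d, t1 d ≠ d) (f2 : ∀ d, t2 d ≠ d) (k l : ℕ) :
    t1 (oa t1 t2 x k) ≠ oa t1 t2 x l := by
  rcases le_total k l with h | h
  · obtain ⟨e, rfl⟩ := Nat.exists_eq_add_of_le h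
    exact oa_ne t1 t2 x h1 h2 f1 f2 e k e le_rfl
  · obtain ⟨e, rfl⟩ := Nat.exists_eq_add_of_le h
    intro hc
    apply oa_ne t1 t2 x h1 h2 f1 f2 e l e le_rfl
    rw [← hc, h1]

theorem orbit [Fintype D] [DecidableEq D] (h1 : ∀ d, t1 (t1 d) = d) (h2 : ∀ d, t2 (t2 d) = d)
    (f1 : ∀ d, t1 d ≠ d) (f2 : ∀ d, t2 d ≠ d)
    (hno : ∀ f : D → ℤ, (∀ d, f (t1 d) = - f d) → (∀ d, f (t2 d) = f d) → ∀ d, f d = 0) :
    ∃ e : D → ℤ, (∀ d, e d = 0 ∨ e d = 1 ∨ e d = -1) ∧ (∀ d, e (t1 d) = - e d) ∧
      (∀ d, d ≠ x → d ≠ t2 x → e (t2 d) = e d) ∧ e x = -1 ∧ e (t2 x) = 1 ∧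
      (∀ T : D → Prop, (∀ d, T d → T (t1 d)) → (∀ d, T d → T (t2 d)) → T x → ∀ d, e d ≠ 0 → T d) ∧
      Odd (univ.filter (fun d => e d = 1)).card := by
  classical
  set a := oa t1 t2 x with ha
  have a0 : a 0 = t1 x := rfl
  have as : ∀ k, a (k+1) = t1 (t2 (a k)) := fun k => rfl
  have ne : ∀ k l, t1 (a k) ≠ a l := oa_ne' t1 t2 x h1 h2 f1 f2
  -- period
  have i1 : Function.Injective t1 := fun u v h => by rw [← h1 u, ← h1 v, h]
  have i2 : Function.Injective t2 := fun u v h => by rw [← h2 u, ← h2 v, h]
  have back : ∀ i j, a (i+1) = a (j+1) → a i = a j := fun i j h => i2 (i1 (by rw [← as, ← as, h]))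
  have hper : ∃ m, 0 < m ∧ a m = a 0 := by
    obtain ⟨i, j, hij, h⟩ := Finite.exists_ne_map_eq_of_infinite a
    have key : ∀ i d, a (i + d) = a i → a d = a 0 := by
      intro i
      induction i with
      | zero => intro d h; simpa using h
      | succ i ih =>
        intro d h
        apply ih
        apply back
        rw [← h]
        congr 1
        ring
    rcases lt_or_gt_of_ne hij with hl | hl
    · refine ⟨j - i, by omega, key i (j - i) ?_⟩
      rw [show i + (j - i) = j by omega, h]
    · refine ⟨i - j, by omega, key j (i - j) ?_⟩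
      rw [show j + (i - j) = i by omega, h]
  let m := Nat.find hper
  have hm0 : 0 < m := (Nat.find_spec hper).1
  have hm : a m = a 0 := (Nat.find_spec hper).2
  have inj : ∀ i j, i < m → j < m → a i = a j → i = j := by
    have key : ∀ i d, i + d < m → 0 < d → a (i + d) ≠ a i := by
      intro i d hlt hd hc
      have : a d = a 0 := by
        clear hlt
        revert hc
        induction i with
        | zero => intro h; simpa using h
        | succ i ih =>
          intro h
          apply ih
          apply back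
          rw [← h]
          congr 1
          ring
      exact Nat.find_min hper (show d < m by omega) ⟨hd, this⟩
    intro i j hi hj h
    rcases lt_trichotomy i j with hl | hl | hl
    · exact absurd (by rw [show i + (j - i) = j by omega]; exact h.symm) (key i (j - i) (by omega) (by omega))
    · exact hl
    · exact absurd (by rw [show j + (i - j) = i by omega]; exact h) (key j (i - j) (by omega) (by omega))
  let e : D → ℤ := fun d => if h : ∃ k, k < m ∧ a k = d then (-1)^(Nat.find h) else
    if h : ∃ k, k < m ∧ t1 (a k) = d then -(-1)^(Nat.find h) else 0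
  have ea : ∀ k, k < m → e (a k) = (-1)^k := by
    intro k hk
    have h : ∃ k', k' < m ∧ a k' = a k := ⟨k, hk, rfl⟩
    have h' := Nat.find_spec h
    have : Nat.find h = k := inj _ _ h'.1 hk h'.2
    simp only [e]
    rw [dif_pos h, this]
  have eb : ∀ k, k < m → e (t1 (a k)) = -(-1)^k := by
    intro k hk
    have h0 : ¬ ∃ k', k' < m ∧ a k' = t1 (a k) := by
      rintro ⟨k', _, h⟩
      exact ne k k' h.symm
    have h : ∃ k', k' < m ∧ t1 (a k') = t1 (a k) := ⟨k, hk, rfl⟩
    have h' := Nat.find_spec h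
    have : Nat.find h = k := inj _ _ h'.1 hk (i1 h'.2)
    simp only [e]
    rw [dif_neg h0, dif_pos h, this]
  have e0 : ∀ d, (¬ ∃ k, k < m ∧ (a k = d ∨ t1 (a k) = d)) → e d = 0 := by
    intro d h
    simp only [e]
    rw [dif_neg, dif_neg]
    · rintro ⟨k, hk, h'⟩; exact h ⟨k, hk, Or.inr h'⟩
    · rintro ⟨k, hk, h'⟩; exact h ⟨k, hk, Or.inl h'⟩
  have t2a : ∀ k, t2 (a k) = t1 (a (k+1)) := by
    intro k; rw [as, h1]
  have cl1 : ∀ d, (∃ k, k < m ∧ (a k = d ∨ t1 (a k) = d)) → (∃ k, k < m ∧ (a k = t1 d ∨ t1 (a k) = t1 d)) := by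
    rintro d ⟨k, hk, h | h⟩
    · exact ⟨k, hk, Or.inr (by rw [h])⟩
    · exact ⟨k, hk, Or.inl (by rw [← h, h1])⟩
  have cl2 : ∀ d, (∃ k, k < m ∧ (a k = d ∨ t1 (a k) = d)) → (∃ k, k < m ∧ (a k = t2 d ∨ t1 (a k) = t2 d)) := by
    rintro d ⟨k, hk, h | h⟩
    · rw [← h, t2a]
      by_cases hk' : k + 1 < m
      · exact ⟨k+1, hk', Or.inr rfl⟩
      · have : k + 1 = m := by omega
        rw [this, hm]
        exact ⟨0, hm0, Or.inr rfl⟩
    · rw [← h]
      cases k with
      | zero =>
        refine ⟨m - 1, by omega, Or.inl ?_⟩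
        rw [← hm]
        have : m = (m - 1) + 1 := by omega
        conv => rhs; rw [this]
        rw [as, h1, h2]
      | succ k =>
        refine ⟨k, by omega, Or.inl ?_⟩
        rw [as, h1, h2]
  have et1 : ∀ d, e (t1 d) = - e d := by
    intro d
    by_cases h : ∃ k, k < m ∧ (a k = d ∨ t1 (a k) = d)
    · obtain ⟨k, hk, h | h⟩ := h
      · rw [← h, ea k hk, eb k hk]
      · rw [← h, h1, ea k hk, eb k hk]; simp
    · rw [e0 d h, e0 (t1 d)]
      · simp
      · intro h'
        apply h
        have := cl1 _ h'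
        rwa [h1] at this
  have x0 : t1 (a 0) = x := by rw [a0, h1]
  have xm : t2 x = a (m - 1) := by
    have : a m = t1 (t2 (a (m - 1))) := by
      conv => lhs; rw [show m = (m - 1) + 1 by omega]
      exact as _
    rw [hm, a0] at this
    rw [i1 this, h2]
  have et2 : ∀ d, d ≠ x → d ≠ t2 x → e (t2 d) = e d := by
    intro d hd1 hd2
    by_cases h : ∃ k, k < m ∧ (a k = d ∨ t1 (a k) = d)
    · obtain ⟨k, hk, h | h⟩ := h
      · have hk' : k + 1 < m := by
          by_contra hcon
          have : k = m - 1 := by omega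
          apply hd2
          rw [xm, ← h, this]
        rw [← h, ea k hk, t2a, eb (k+1) hk', pow_succ]
        ring
      · cases k with
        | zero => exact absurd (by rw [← h, x0]) hd1
        | succ k =>
          rw [← h, eb (k+1) hk, as, h1, h2, ea k (by omega), pow_succ]
          ring
    · rw [e0 d h, e0 (t2 d)]
      intro h'
      apply h
      have := cl2 _ h'
      rwa [h2] at this
  have ex : e x = -1 := by
    have := eb 0 hm0
    rw [x0] at this
    simpa using this
  have modd : Odd m := by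
    by_contra hcon
    rw [Nat.not_odd_iff_even] at hcon
    have etm : e (t2 x) = -1 := by
      rw [xm, ea (m-1) (by omega)]
      apply Odd.neg_one_pow
      rcases hcon with ⟨r, hr⟩
      exact ⟨r - 1, by omega⟩
    have := hno e et1 (fun d => by
      by_cases hd1 : d = x
      · rw [hd1, ex, etm]
      · by_cases hd2 : d = t2 x
        · rw [hd2, h2, ex, etm]
        · exact et2 d hd1 hd2) x
    rw [ex] at this
    norm_num at this
  have etx : e (t2 x) = 1 := by
    rw [xm, ea (m-1) (by omega)]
    apply Even.neg_one_pow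
    rcases modd with ⟨r, hr⟩
    exact ⟨r, by omega⟩
  have evals : ∀ d, e d = 0 ∨ e d = 1 ∨ e d = -1 := by
    intro d
    by_cases h : ∃ k, k < m ∧ (a k = d ∨ t1 (a k) = d)
    · obtain ⟨k, hk, h | h⟩ := h
      · rw [← h, ea k hk]
        exact Or.inr (neg_one_pow_eq_or ℤ k)
      · rw [← h, eb k hk]
        rcases neg_one_pow_eq_or ℤ k with h | h <;> rw [h] <;> simp
    · exact Or.inl (e0 d h)
  refine ⟨e, evals, et1, et2, ex, etx, ?_, ?_⟩
  · intro T hT1 hT2 hTx d hd
    have hTa : ∀ k, T (a k) := by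
      intro k
      induction k with
      | zero => rw [a0]; exact hT1 _ hTx
      | succ k ih => rw [as]; exact hT1 _ (hT2 _ ih)
    by_contra hcon
    apply hd
    apply e0
    rintro ⟨k, hk, h | h⟩
    · rw [← h] at hcon; exact hcon (hTa k)
    · rw [← h] at hcon; exact hcon (hT1 _ (hTa k))
  · have hmem : t2 x ∈ univ.filter (fun d => e d = 1) := by simp [etx]
    have hev : Even ((univ.filter (fun d => e d = 1)).erase (t2 x)).card := by
      apply even_card_of_inv _ t2
      · intro d hd
        simp only [mem_erase, mem_filter, mem_univ, true_and] at hd ⊢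
        have hdx : d ≠ x := by
          rintro rfl
          rw [ex] at hd
          norm_num at hd
        refine ⟨fun h => hdx (i2 h), ?_⟩
        rw [et2 d hdx hd.1, hd.2]
      · intro d _; exact h2 d
      · intro d _; exact f2 d
    rw [Finset.card_erase_of_mem hmem] at hev
    have hpos : 0 < (univ.filter (fun d => e d = 1)).card := Finset.card_pos.2 ⟨_, hmem⟩
    rcases hev with ⟨r, hr⟩
    exact ⟨r, by omega⟩

end orbit

end Pool.Agent.NL
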