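import Mathlib

set_option autoImplicit false

namespace Pool.Agent.NL

open Finset

/-- which partition the boundary of kind `k` (0 or 1) of the network `i` belongs to -/
def gg (k i : Fin 3) : Fin 3 :=
  if k = 0 then (if i = 2 then 1 else 0) else (if i = 0 then 1 else 2)

/-- indicator with values in Z/2 -/
noncomputable def ind (p : Prop) : ZMod 2 := by classical exact if p then 1 else 0

lemma ind_true {p : Prop} (h : p) : ind p = 1 := by unfold ind; rw [if_pos h]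
lemma ind_false {p : Prop} (h : ¬ p) : ind p = 0 := by unfold ind; rw [if_neg h]
lemma ind_and (p q : Prop) : ind (p ∧ q) = ind p * ind q := by
  by_cases hp : p <;> by_cases hq : q <;> simp [ind, hp, hq]
lemma ind_congr {p q : Prop} (h : p ↔ q) : ind p = ind q := by rw [propext h]

/-- doubled system -/
structure DSys (n : ℕ) (P M : Type) where
  lp : P → Fin 3
  lm : M → Fin 3
  s : Fin 3 → P ≃ M ⊕ (Fin 3 × Fin n)
  X : P → Fin 3 → ℤ
  Y : M → Fin 3 → ℤ
  c : Fin 3 → Fin n → ℤ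
  sx : ∀ p, X p 0 + X p 1 + X p 2 = 0
  sy : ∀ q, Y q 0 + Y q 1 + Y q 2 = 0
  lab : ∀ k q, lp ((s k).symm (Sum.inl q)) = lm q
  eqk : ∀ k q, X ((s k).symm (Sum.inl q)) k = Y q k
  lek : ∀ k q, X ((s k).symm (Sum.inl q)) (k+1) ≤ Y q (k+1)
  labb : ∀ k i j, lp ((s k).symm (Sum.inr (i,j))) = i
  bz : ∀ i j, Even (X ((s 2).symm (Sum.inr (i,j))) 2)
  bv : ∀ k i j, k ≠ 2 → X ((s k).symm (Sum.inr (i,j))) k = c (gg k i) j

/-- contribution of a node to the parity at a point -/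
noncomputable def psi (w T : Fin 3 → ℤ) : ZMod 2 :=
  ∑ k : Fin 3, ind (Odd (w (k+1)) ∧ Odd (w (k+2)) ∧ T (k+1) < w (k+1) ∧ w (k+2) < T (k+2))

lemma psi_rot (w T : Fin 3 → ℤ) (k : Fin 3) : psi w T =
    ind (Odd (w (k+1)) ∧ Odd (w (k+2)) ∧ T (k+1) < w (k+1) ∧ w (k+2) < T (k+2)) +
    ind (Odd (w (k+2)) ∧ Odd (w k) ∧ T (k+2) < w (k+2) ∧ w k < T k) +
    ind (Odd (w k) ∧ Odd (w (k+1)) ∧ T k < w k ∧ w (k+1) < T (k+1)) := by
  fin_cases k
  · simp only [psi, Fin.sum_univ_three]; rfl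
  · simp only [psi, Fin.sum_univ_three]; rw [add_rotate]; rfl
  · simp only [psi, Fin.sum_univ_three]; rw [← add_rotate]; rfl

lemma ind_eval (p : Prop) : (p ∧ ind p = 1) ∨ (¬ p ∧ ind p = 0) := by
  by_cases h : p
  · exact Or.inl ⟨h, ind_true h⟩
  · exact Or.inr ⟨h, ind_false h⟩

lemma psi_int (a b c p q r : ℤ) (hw : a + b + c = 0) (hT : p + q + r = 0)
    (hp : p % 2 = 0) (hq : q % 2 = 0) :
    (ind (Odd b ∧ Odd c ∧ q < b ∧ c < r) + ind (Odd c ∧ Odd a ∧ r < c ∧ a < p) +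
      ind (Odd a ∧ Odd b ∧ p < a ∧ b < q)) +
    (ind (Odd b ∧ Odd c ∧ q + 2 < b ∧ c < r - 2) + ind (Odd c ∧ Odd a ∧ r - 2 < c ∧ a < p) +
      ind (Odd a ∧ Odd b ∧ p < a ∧ b < q + 2))
    = ind (b = q + 1 ∧ p ≤ a) + ind (c = r - 1 ∧ a < p) := by
  have pa : a % 2 = 0 ∨ a % 2 = 1 := by omega
  have pb : b % 2 = 0 ∨ b % 2 = 1 := by omega
  simp only [Int.odd_iff]
  rcases pa with pa | pa <;> rcases pb with pb | pb
  · have pc : c % 2 = 0 := by omega
    rw [ind_false (by omega), ind_false (by omega), ind_false (by omega), ind_false (by omega),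
      ind_false (by omega), ind_false (by omega), ind_false (by omega), ind_false (by omega)]
    rfl
  · have pc : c % 2 = 1 := by omega
    rw [ind_false (p := c % 2 = 1 ∧ a % 2 = 1 ∧ r < c ∧ a < p) (by omega),
      ind_false (p := a % 2 = 1 ∧ b % 2 = 1 ∧ p < a ∧ b < q) (by omega),
      ind_false (p := c % 2 = 1 ∧ a % 2 = 1 ∧ r - 2 < c ∧ a < p) (by omega),
      ind_false (p := a % 2 = 1 ∧ b % 2 = 1 ∧ p < a ∧ b < q + 2) (by omega)]
    rcases ind_eval (b % 2 = 1 ∧ c % 2 = 1 ∧ q < b ∧ c < r) with ⟨h1, e1⟩ | ⟨h1, e1⟩ <;>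
    rcases ind_eval (b % 2 = 1 ∧ c % 2 = 1 ∧ q + 2 < b ∧ c < r - 2) with ⟨h2, e2⟩ | ⟨h2, e2⟩ <;>
    rcases ind_eval (b = q + 1 ∧ p ≤ a) with ⟨h3, e3⟩ | ⟨h3, e3⟩ <;>
    rcases ind_eval (c = r - 1 ∧ a < p) with ⟨h4, e4⟩ | ⟨h4, e4⟩ <;>
    rw [e1, e2, e3, e4] <;> first | rfl | (exfalso; omega)
  · have pc : c % 2 = 1 := by omega
    rw [ind_false (p := b % 2 = 1 ∧ c % 2 = 1 ∧ q < b ∧ c < r) (by omega),
      ind_false (p := a % 2 = 1 ∧ b % 2 = 1 ∧ p < a ∧ b < q) (by omega),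
      ind_false (p := b % 2 = 1 ∧ c % 2 = 1 ∧ q + 2 < b ∧ c < r - 2) (by omega),
      ind_false (p := a % 2 = 1 ∧ b % 2 = 1 ∧ p < a ∧ b < q + 2) (by omega)]
    rcases ind_eval (c % 2 = 1 ∧ a % 2 = 1 ∧ r < c ∧ a < p) with ⟨h1, e1⟩ | ⟨h1, e1⟩ <;>
    rcases ind_eval (c % 2 = 1 ∧ a % 2 = 1 ∧ r - 2 < c ∧ a < p) with ⟨h2, e2⟩ | ⟨h2, e2⟩ <;>
    rcases ind_eval (b = q + 1 ∧ p ≤ a) with ⟨h3, e3⟩ | ⟨h3, e3⟩ <;>
    rcases ind_eval (c = r - 1 ∧ a < p) with ⟨h4, e4⟩ | ⟨h4, e4⟩ <;>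
    rw [e1, e2, e3, e4] <;> first | rfl | (exfalso; omega)
  · have pc : c % 2 = 0 := by omega
    rw [ind_false (p := b % 2 = 1 ∧ c % 2 = 1 ∧ q < b ∧ c < r) (by omega),
      ind_false (p := c % 2 = 1 ∧ a % 2 = 1 ∧ r < c ∧ a < p) (by omega),
      ind_false (p := b % 2 = 1 ∧ c % 2 = 1 ∧ q + 2 < b ∧ c < r - 2) (by omega),
      ind_false (p := c % 2 = 1 ∧ a % 2 = 1 ∧ r - 2 < c ∧ a < p) (by omega)]
    rcases ind_eval (a % 2 = 1 ∧ b % 2 = 1 ∧ p < a ∧ b < q) with ⟨h1, e1⟩ | ⟨h1, e1⟩ <;>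
    rcases ind_eval (a % 2 = 1 ∧ b % 2 = 1 ∧ p < a ∧ b < q + 2) with ⟨h2, e2⟩ | ⟨h2, e2⟩ <;>
    rcases ind_eval (b = q + 1 ∧ p ≤ a) with ⟨h3, e3⟩ | ⟨h3, e3⟩ <;>
    rcases ind_eval (c = r - 1 ∧ a < p) with ⟨h4, e4⟩ | ⟨h4, e4⟩ <;>
    rw [e1, e2, e3, e4] <;> first | rfl | (exfalso; omega)

lemma sum3 (w : Fin 3 → ℤ) (k : Fin 3) (hw : w 0 + w 1 + w 2 = 0) : w k + w (k+1) + w (k+2) = 0 := by
  fin_cases k <;> simp <;> omega

lemma psi_diff (w T T' : Fin 3 → ℤ) (hw : w 0 + w 1 + w 2 = 0) (hT : T 0 + T 1 + T 2 = 0)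
    (hTe : ∀ i, T i % 2 = 0) (k : Fin 3) (h0 : T' k = T k) (h1 : T' (k+1) = T (k+1) + 2)
    (h2 : T' (k+2) = T (k+2) - 2) :
    psi w T + psi w T' = ind (w (k+1) = T (k+1) + 1 ∧ T k ≤ w k) +
      ind (w (k+2) = T (k+2) - 1 ∧ w k < T k) := by
  rw [psi_rot w T k, psi_rot w T' k, h0, h1, h2]
  exact psi_int _ _ _ _ _ _ (sum3 w k hw) (sum3 T k hT) (hTe _) (hTe _)

variable {n : ℕ} {P M : Type}

/-- a closed colour class -/
structure Col (S : DSys n P M) where
  C : P → Prop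
  C' : M → Prop
  cb : Fin 3 → Fin n → Prop
  seg : ∀ k q, Odd (S.Y q k) → (C ((S.s k).symm (Sum.inl q)) ↔ C' q)
  bd : ∀ k i j, k ≠ 2 → Odd (S.c (gg k i) j) → (C ((S.s k).symm (Sum.inr (i,j))) ↔ cb (gg k i) j)

/-- the complementary class -/
def Col.compl {S : DSys n P M} (K : Col S) : Col S where
  C := fun p => ¬ K.C p
  C' := fun q => ¬ K.C' q
  cb := fun w j => ¬ K.cb w j
  seg := fun k q h => not_congr (K.seg k q h)
  bd := fun k i j h h' => not_congr (K.bd k i j h h')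

variable [Fintype P] [Fintype M] {S : DSys n P M} (K : Col S)

/-- total of a function over the nodes of the class in the network i -/
noncomputable def Col.tot (i : Fin 3) (g : (Fin 3 → ℤ) → ZMod 2) : ZMod 2 :=
  ∑ p, ind (S.lp p = i ∧ K.C p) * g (S.X p) + ∑ q, ind (S.lm q = i ∧ K.C' q) * g (S.Y q)

lemma Col.tot_add (i : Fin 3) (g g' : (Fin 3 → ℤ) → ZMod 2) :
    K.tot i (fun w => g w + g' w) = K.tot i g + K.tot i g' := by
  unfold Col.tot
  simp only [mul_add, Finset.sum_add_distrib]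
  ring

lemma Col.tot_congr (i : Fin 3) (g g' : (Fin 3 → ℤ) → ZMod 2)
    (h : ∀ w : Fin 3 → ℤ, w 0 + w 1 + w 2 = 0 → g w = g' w) : K.tot i g = K.tot i g' := by
  unfold Col.tot
  simp only [h _ (S.sx _), h _ (S.sy _)]

lemma Col.tot_congr' (i : Fin 3) (g g' : (Fin 3 → ℤ) → ZMod 2)
    (h : ∀ p, S.lp p = i → K.C p → g (S.X p) = g' (S.X p))
    (h' : ∀ q, S.lm q = i → K.C' q → g (S.Y q) = g' (S.Y q)) : K.tot i g = K.tot i g' := by
  unfold Col.tot
  congr 1
  · apply Finset.sum_congr rfl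
    intro p _
    by_cases hp : S.lp p = i ∧ K.C p
    · rw [h p hp.1 hp.2]
    · rw [ind_false hp]; simp
  · apply Finset.sum_congr rfl
    intro p _
    by_cases hp : S.lm p = i ∧ K.C' p
    · rw [h' p hp.1 hp.2]
    · rw [ind_false hp]; simp

lemma Col.pair (k i : Fin 3) (g : (Fin 3 → ℤ) → ZMod 2) (hg : ∀ w : Fin 3 → ℤ, ¬ Odd (w k) → g w = 0)
    (hq : ∀ q, S.lm q = i → K.C' q → Odd (S.Y q k) →
      g (S.X ((S.s k).symm (Sum.inl q))) = g (S.Y q)) :
    K.tot i g = ∑ j, ind (K.C ((S.s k).symm (Sum.inr (i,j)))) * g (S.X ((S.s k).symm (Sum.inr (i,j)))) := by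
  unfold Col.tot
  rw [← Equiv.sum_comp (S.s k).symm (fun p => ind (S.lp p = i ∧ K.C p) * g (S.X p)), Fintype.sum_sum_type]
  have h1 : ∀ q, ind (S.lp ((S.s k).symm (Sum.inl q)) = i ∧ K.C ((S.s k).symm (Sum.inl q))) *
      g (S.X ((S.s k).symm (Sum.inl q))) = ind (S.lm q = i ∧ K.C' q) * g (S.Y q) := by
    intro q
    rw [S.lab]
    by_cases ho : Odd (S.Y q k)
    · rw [ind_congr (and_congr_right (fun _ => K.seg k q ho))]
      by_cases hc : S.lm q = i ∧ K.C' q
      · rw [hq q hc.1 hc.2 ho]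
      · rw [ind_false hc]; simp
    · have ho' : ¬ Odd (S.X ((S.s k).symm (Sum.inl q)) k) := by rw [S.eqk]; exact ho
      rw [hg _ ho, hg _ ho']; simp
  have h2 : ∑ x : Fin 3 × Fin n, ind (S.lp ((S.s k).symm (Sum.inr x)) = i ∧ K.C ((S.s k).symm (Sum.inr x))) *
      g (S.X ((S.s k).symm (Sum.inr x))) =
      ∑ j, ind (K.C ((S.s k).symm (Sum.inr (i,j)))) * g (S.X ((S.s k).symm (Sum.inr (i,j)))) := by
    rw [Fintype.sum_prod_type, Finset.sum_eq_single i]
    · apply Finset.sum_congr rfl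
      intro j _
      rw [S.labb]
      congr 2
      simp
    · intro i' _ hi'
      apply Finset.sum_eq_zero
      intro j _
      rw [S.labb, ind_false (by rintro ⟨h, _⟩; exact hi' h)]
      simp
    · simp
  rw [h2]
  simp only [h1]
  rw [add_right_comm, CharTwo.add_self_eq_zero, zero_add]

/-- the point T lies on the piece of kind k starting at p -/
def DSys.On (S : DSys n P M) (p : P) (k : Fin 3) (T : Fin 3 → ℤ) : Prop :=
  T k = S.X p k ∧ S.X p (k+1) ≤ T (k+1) ∧ ∀ q, S.s k p = Sum.inl q → T (k+1) ≤ S.Y q (k+1)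

/-- no piece of the class in the network i passes through T -/
def Col.Free (i : Fin 3) (T : Fin 3 → ℤ) : Prop :=
  ∀ p k, S.lp p = i → K.C p → Odd (S.X p k) → ¬ S.On p k T

noncomputable def Col.phi (i : Fin 3) (T : Fin 3 → ℤ) : ZMod 2 := K.tot i (fun w => psi w T)

lemma Col.phi_adj (i k : Fin 3) (T T' : Fin 3 → ℤ) (hT : T 0 + T 1 + T 2 = 0)
    (hTe : ∀ i, T i % 2 = 0) (h0 : T' k = T k) (h1 : T' (k+1) = T (k+1) + 2)
    (h2 : T' (k+2) = T (k+2) - 2) (m : Fin 3 → ℤ) (m0 : m k = T k) (m1 : m (k+1) = T (k+1) + 1)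
    (m2 : m (k+2) = T (k+2) - 1) (hfree : K.Free i m) : K.phi i T = K.phi i T' := by
  have hs : K.phi i T + K.phi i T' = 0 := by
    unfold Col.phi
    rw [← Col.tot_add, K.tot_congr i _ _ (fun w hw => psi_diff w T T' hw hT hTe k h0 h1 h2), Col.tot_add]
    have hm0 := hTe k
    have hm1 := hTe (k+1)
    have hm2 := hTe (k+2)
    have k2 : k + 1 + 1 = k + 2 := by fin_cases k <;> rfl
    have k3 : k + 2 + 1 = k := by fin_cases k <;> rfl
    rw [K.pair (k+1) i, K.pair (k+2) i]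
    · rw [Finset.sum_eq_zero, Finset.sum_eq_zero, add_zero]
      · intro j _
        by_cases hc : K.C ((S.s (k+2)).symm (Sum.inr (i,j)))
        · apply mul_eq_zero_of_right
          apply ind_false
          rintro ⟨a1, a2⟩
          apply hfree _ (k+2) (S.labb _ i j) hc
          · rw [a1, Int.odd_iff]; omega
          · refine ⟨by rw [m2, a1], ?_, ?_⟩
            · rw [k3, m0]; exact a2.le
            · intro q hq; simp at hq
        · rw [ind_false hc, zero_mul]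
      · intro j _
        by_cases hc : K.C ((S.s (k+1)).symm (Sum.inr (i,j)))
        · apply mul_eq_zero_of_right
          apply ind_false
          rintro ⟨a1, a2⟩
          apply hfree _ (k+1) (S.labb _ i j) hc
          · rw [a1, Int.odd_iff]; omega
          · refine ⟨by rw [m1, a1], ?_, ?_⟩
            · rw [k2, m2]
              have := sum3 _ k (S.sx ((S.s (k+1)).symm (Sum.inr (i,j))))
              have := sum3 _ k hT
              omega
            · intro q hq; simp at hq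
        · rw [ind_false hc, zero_mul]
    · intro w hw
      apply ind_false
      rintro ⟨a1, _⟩
      apply hw
      rw [a1, Int.odd_iff]; omega
    · intro q hq1 hq2 hq3
      have e1 := S.eqk (k+2) q
      have e2 := S.lek (k+2) q
      rw [k3] at e2
      have hC : K.C ((S.s (k+2)).symm (Sum.inl q)) := (K.seg _ q hq3).2 hq2
      apply ind_congr
      rw [e1]
      apply and_congr_right
      intro a1
      constructor
      · intro a2
        by_contra hcon
        apply hfree _ (k+2) ((S.lab _ q).trans hq1) hC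
        · rw [e1]; exact hq3
        · refine ⟨by rw [m2, e1, a1], ?_, ?_⟩
          · rw [k3, m0]; exact a2.le
          · intro q' hq'
            simp only [Equiv.apply_symm_apply, Sum.inl.injEq] at hq'
            subst hq'
            rw [k3, m0]; omega
      · intro a2; omega
    · intro w hw
      apply ind_false
      rintro ⟨a1, _⟩
      apply hw
      rw [a1, Int.odd_iff]; omega
    · intro q hq1 hq2 hq3
      have e1 := S.eqk (k+1) q
      have e2 := S.lek (k+1) q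
      rw [k2] at e2
      have hC : K.C ((S.s (k+1)).symm (Sum.inl q)) := (K.seg _ q hq3).2 hq2
      have s1 := sum3 _ k (S.sx ((S.s (k+1)).symm (Sum.inl q)))
      have s2 := sum3 _ k (S.sy q)
      have s3 := sum3 _ k hT
      apply ind_congr
      rw [e1]
      apply and_congr_right
      intro a1
      constructor
      · intro a2
        by_contra hcon
        apply hfree _ (k+1) ((S.lab _ q).trans hq1) hC
        · rw [e1]; exact hq3
        · refine ⟨by rw [m1, e1, a1], ?_, ?_⟩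
          · rw [k2, m2]; omega
          · intro q' hq'
            simp only [Equiv.apply_symm_apply, Sum.inl.injEq] at hq'
            subst hq'
            rw [k2, m2]; omega
      · intro a2; omega
  exact CharTwo.add_eq_zero.1 hs

lemma a11 (k : Fin 3) : k + 1 + 1 = k + 2 := by fin_cases k <;> rfl
lemma a12 (k : Fin 3) : k + 1 + 2 = k := by fin_cases k <;> rfl
lemma a21 (k : Fin 3) : k + 2 + 1 = k := by fin_cases k <;> rfl
lemma a22 (k : Fin 3) : k + 2 + 2 = k + 1 := by fin_cases k <;> rfl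

/-- the point with given coordinates k, k+1 -/
def mkp (k : Fin 3) (a b : ℤ) : Fin 3 → ℤ := fun m => if m = k then a else if m = k + 1 then b else - a - b

lemma mkp0 (k : Fin 3) (a b : ℤ) : mkp k a b k = a := by simp [mkp]
lemma mkp1 (k : Fin 3) (a b : ℤ) : mkp k a b (k+1) = b := by fin_cases k <;> simp [mkp]
lemma mkp2 (k : Fin 3) (a b : ℤ) : mkp k a b (k+2) = - a - b := by fin_cases k <;> simp [mkp]
lemma mkp_sum (k : Fin 3) (a b : ℤ) : mkp k a b 0 + mkp k a b 1 + mkp k a b 2 = 0 := by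
  fin_cases k <;> simp [mkp] <;> ring
lemma mkp_even (k : Fin 3) (a b : ℤ) (ha : a % 2 = 0) (hb : b % 2 = 0) (i : Fin 3) :
    mkp k a b i % 2 = 0 := by
  unfold mkp; split_ifs <;> omega
lemma mkp_eta (k : Fin 3) (w : Fin 3 → ℤ) (hw : w 0 + w 1 + w 2 = 0) : mkp k (w k) (w (k+1)) = w := by
  have := sum3 w k hw
  funext i
  fin_cases k <;> fin_cases i <;> simp [mkp] at * <;> omega

def Rp (k : Fin 3) (c y : ℤ) : Fin 3 → ℤ := mkp k (c+1) (2*(y/2))
def Lp (k : Fin 3) (c y : ℤ) : Fin 3 → ℤ := mkp k (c-1) (2*((y+1)/2))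

lemma Col.phi_RL (i k : Fin 3) (c y : ℤ) (hc : Odd c) (hf : K.Free i (mkp k c y)) :
    K.phi i (Rp k c y) = K.phi i (Lp k c y) := by
  rw [Int.odd_iff] at hc
  rcases Int.emod_two_eq_zero_or_one y with hy | hy
  · apply K.phi_adj i (k+1) (Rp k c y) (Lp k c y) (mkp_sum _ _ _)
      (mkp_even _ _ _ (by omega) (by omega)) _ _ _ (mkp k c y) _ _ _ hf
    all_goals
      simp only [a11, a12, Rp, Lp, mkp0, mkp1, mkp2]
      omega
  · symm
    apply K.phi_adj i (k+2) (Lp k c y) (Rp k c y) (mkp_sum _ _ _)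
      (mkp_even _ _ _ (by omega) (by omega)) _ _ _ (mkp k c y) _ _ _ hf
    all_goals
      simp only [a21, a22, Rp, Lp, mkp0, mkp1, mkp2]
      omega

lemma Col.walk (i k : Fin 3) (c y : ℤ) (hc : Odd c) (d : ℕ)
    (hf : ∀ z, y ≤ z → z ≤ y + d → K.Free i (mkp k c z)) :
    K.phi i (Rp k c y) = K.phi i (Rp k c (y + d)) := by
  induction d with
  | zero => simp
  | succ d ih =>
    rw [ih (fun z h1 h2 => hf z h1 (by push_cast; omega))]
    rcases Int.emod_two_eq_zero_or_one (y + d) with hy | hy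
    · have : Rp k c (y + d) = Rp k c (y + (d+1 : ℕ)) := by
        unfold Rp; congr 2; push_cast; omega
      rw [this]
    · rw [K.phi_RL i k c (y+d) hc (hf _ (by omega) (by push_cast; omega)),
        K.phi_RL i k c (y+(d+1:ℕ)) hc (hf _ (by push_cast; omega) (by push_cast; omega))]
      have : Lp k c (y + d) = Lp k c (y + (d+1 : ℕ)) := by
        unfold Lp; congr 2; push_cast; omega
      rw [this]

lemma Col.node (i k : Fin 3) (w : Fin 3 → ℤ) (hw : w 0 + w 1 + w 2 = 0) (h0 : ¬ Odd (w k))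
    (h1 : Odd (w (k+1))) (h2 : Odd (w (k+2))) (hf : K.Free i w) :
    K.phi i (Rp (k+1) (w (k+1)) (w (k+2))) = K.phi i (Rp (k+2) (w (k+2)) (w k)) := by
  have hs := sum3 w k hw
  rw [K.phi_RL i (k+2) (w (k+2)) (w k) h2]
  · congr 1
    rw [Int.not_odd_iff] at h0
    rw [Int.odd_iff] at h1 h2
    unfold Rp Lp
    funext m
    fin_cases k <;> fin_cases m <;> simp [mkp] at * <;> omega
  · have := mkp_eta (k+2) w hw
    rw [a21] at this
    rw [this]
    exact hf

lemma psi_far (w : Fin 3 → ℤ) (k : Fin 3) (c y : ℤ) (hw : w 0 + w 1 + w 2 = 0) (hc : Odd c)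
    (h1 : w (k+1) < 2*(y/2)) (h2 : -(c+1) - 2*(y/2) < w (k+2)) :
    psi w (Rp k c y) = ind (Odd (w (k+2)) ∧ Odd (w k)) + ind (Odd (w k) ∧ c < w k) := by
  have hs := sum3 w k hw
  rw [psi_rot w _ k]
  unfold Rp
  rw [mkp0, mkp1, mkp2]
  simp only [Int.odd_iff] at *
  generalize w k = a at *
  generalize w (k+1) = b at *
  generalize w (k+2) = d at *
  generalize 2*(y/2) = z at *
  rw [ind_false (p := b % 2 = 1 ∧ d % 2 = 1 ∧ z < b ∧ d < -(c+1) - z) (by omega)]
  rcases ind_eval (d % 2 = 1 ∧ a % 2 = 1 ∧ -(c+1) - z < d ∧ a < c + 1) with ⟨h1, e1⟩ | ⟨h1, e1⟩ <;>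
  rcases ind_eval (a % 2 = 1 ∧ b % 2 = 1 ∧ c + 1 < a ∧ b < z) with ⟨h2, e2⟩ | ⟨h2, e2⟩ <;>
  rcases ind_eval (d % 2 = 1 ∧ a % 2 = 1) with ⟨h3, e3⟩ | ⟨h3, e3⟩ <;>
  rcases ind_eval (a % 2 = 1 ∧ c < a) with ⟨h4, e4⟩ | ⟨h4, e4⟩ <;>
  rw [e1, e2, e3, e4] <;> first | rfl | (exfalso; omega)

lemma Col.far (i k : Fin 3) (c : ℤ) (hc : Odd c) : ∃ Y0 : ℤ, ∀ y, Y0 ≤ y →
    K.phi i (Rp k c y) = K.tot i (fun w => ind (Odd (w (k+2)) ∧ Odd (w k))) +
      K.tot i (fun w => ind (Odd (w k) ∧ c < w k)) := by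
  obtain ⟨b1, hb1⟩ := (Set.finite_range (fun p => max (S.X p (k+1)) (- S.X p (k+2)))).bddAbove
  obtain ⟨b2, hb2⟩ := (Set.finite_range (fun p => max (S.Y p (k+1)) (- S.Y p (k+2)))).bddAbove
  refine ⟨max (max b1 b2 + 2) (max b1 b2 - c + 2), ?_⟩
  intro y hy
  rw [← Col.tot_add]
  apply K.tot_congr'
  · intro p _ _
    have := hb1 ⟨p, rfl⟩
    simp only at this
    exact psi_far _ k c y (S.sx p) hc (by omega) (by omega)
  · intro p _ _
    have := hb2 ⟨p, rfl⟩
    simp only at this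
    exact psi_far _ k c y (S.sy p) hc (by omega) (by omega)

/-- number (mod 2) of odd boundary values of the class -/
noncomputable def Col.nC (w : Fin 3) : ZMod 2 := ∑ j, ind (K.cb w j ∧ Odd (S.c w j))

noncomputable def Col.II (w : Fin 3) : ZMod 2 :=
  ∑ j, ind (¬ K.cb w j ∧ Odd (S.c w j)) * ∑ j', ind (K.cb w j' ∧ Odd (S.c w j') ∧ S.c w j < S.c w j')

lemma Col.tot_odd (i k : Fin 3) (hk : k ≠ 2) : K.tot i (fun w => ind (Odd (w k))) = K.nC (gg k i) := by
  rw [K.pair k i]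
  · unfold Col.nC
    apply Finset.sum_congr rfl
    intro j _
    rw [S.bv k i j hk, ← ind_and]
    apply ind_congr
    constructor
    · rintro ⟨h1, h2⟩; exact ⟨(K.bd k i j hk h2).1 h1, h2⟩
    · rintro ⟨h1, h2⟩; exact ⟨(K.bd k i j hk h2).2 h1, h2⟩
  · intro w hw; exact ind_false hw
  · intro q _ _ _
    rw [S.eqk]

lemma Col.tot_odd2 (i : Fin 3) : K.tot i (fun w => ind (Odd (w 2))) = 0 := by
  rw [K.pair 2 i]
  · apply Finset.sum_eq_zero
    intro j _
    rw [ind_false (p := Odd _), mul_zero]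
    rw [Int.not_odd_iff_even]
    exact S.bz i j
  · intro w hw; exact ind_false hw
  · intro q _ _ _
    rw [S.eqk]

lemma odd_split (w : Fin 3 → ℤ) (hw : w 0 + w 1 + w 2 = 0) (k : Fin 3) :
    ind (Odd (w k)) = ind (Odd (w (k+2)) ∧ Odd (w k)) + ind (Odd (w k) ∧ Odd (w (k+1))) := by
  have hs := sum3 w k hw
  simp only [Int.odd_iff]
  rcases ind_eval (w k % 2 = 1) with ⟨h1, e1⟩ | ⟨h1, e1⟩ <;>
  rcases ind_eval (w (k+2) % 2 = 1 ∧ w k % 2 = 1) with ⟨h2, e2⟩ | ⟨h2, e2⟩ <;>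
  rcases ind_eval (w k % 2 = 1 ∧ w (k+1) % 2 = 1) with ⟨h3, e3⟩ | ⟨h3, e3⟩ <;>
  rw [e1, e2, e3] <;> first | rfl | (exfalso; omega)

/-- the three relations between node counts -/
lemma Col.counts (i : Fin 3) : ∃ a b d : ZMod 2,
    K.tot i (fun w => ind (Odd (w 2) ∧ Odd (w 0))) = a ∧
    K.tot i (fun w => ind (Odd (w 0) ∧ Odd (w 1))) = b ∧
    a + b = K.nC (gg 0 i) ∧ b + d = K.nC (gg 1 i) ∧ d + a = 0 := by
  refine ⟨_, _, K.tot i (fun w => ind (Odd (w 1) ∧ Odd (w 2))), rfl, rfl, ?_, ?_, ?_⟩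
  · rw [← Col.tot_add, ← K.tot_odd i 0 (by decide)]
    apply K.tot_congr
    intro w hw
    exact (odd_split w hw 0).symm
  · rw [← Col.tot_add, ← K.tot_odd i 1 (by decide)]
    apply K.tot_congr
    intro w hw
    exact (odd_split w hw 1).symm
  · rw [← Col.tot_add, ← K.tot_odd2 i]
    apply K.tot_congr
    intro w hw
    exact (odd_split w hw 2).symm

lemma Col.nC_eq (i : Fin 3) : K.nC (gg 0 i) = K.nC (gg 1 i) := by
  obtain ⟨a, b, d, _, _, h1, h2, h3⟩ := K.counts i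
  rw [← h1, ← h2]
  have : d = a := CharTwo.add_eq_zero.1 h3
  rw [this, add_comm]

/-- no meeting of pieces of the two classes -/
def Col.NoMeet (K : Col S) : Prop :=
  ∀ p k p' k' (T : Fin 3 → ℤ), S.lp p = S.lp p' → K.C p → ¬ K.C p' → Odd (S.X p k) → Odd (S.X p' k') →
    T 0 + T 1 + T 2 = 0 → S.On p k T → S.On p' k' T → False

lemma Col.free_of_on (hN : K.NoMeet) (i : Fin 3) (p' : P) (k' : Fin 3) (hl : S.lp p' = i) (hp : ¬ K.C p')
    (ho : Odd (S.X p' k')) (T : Fin 3 → ℤ) (hT : T 0 + T 1 + T 2 = 0) (h : S.On p' k' T) : K.Free i T := by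
  intro p k hlp hC hodd hon
  exact hN p k p' k' T (by rw [hlp, hl]) hC hp hodd ho hT hon h

lemma Col.free_plus (hN : K.NoMeet) (i : Fin 3) (p' : P) (k' : Fin 3) (hl : S.lp p' = i) (hp : ¬ K.C p')
    (ho : Odd (S.X p' k')) : K.Free i (S.X p') := by
  apply K.free_of_on hN i p' k' hl hp ho _ (S.sx p')
  refine ⟨rfl, le_rfl, ?_⟩
  intro q hq
  have := S.lek k' q
  rw [← hq, Equiv.symm_apply_apply] at this
  exact this

lemma Col.free_minus (hN : K.NoMeet) (i : Fin 3) (q' : M) (k' : Fin 3) (hl : S.lm q' = i) (hp : ¬ K.C' q')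
    (ho : Odd (S.Y q' k')) : K.Free i (S.Y q') := by
  apply K.free_of_on hN i ((S.s k').symm (Sum.inl q')) k' (by rw [S.lab, hl])
    (by rw [K.seg k' q' ho]; exact hp) (by rw [S.eqk]; exact ho) _ (S.sy q')
  refine ⟨(S.eqk k' q').symm, S.lek k' q', ?_⟩
  intro q hq
  simp only [Equiv.apply_symm_apply, Sum.inl.injEq] at hq
  rw [hq]

/-- value attached to a dart -/
noncomputable def Col.gv (i k : Fin 3) (w : Fin 3 → ℤ) : ZMod 2 :=
  ind (Odd (w k)) * K.phi i (Rp k (w k) (w (k+1)))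

lemma Col.gv_sum (i : Fin 3) (w : Fin 3 → ℤ) (hw : w 0 + w 1 + w 2 = 0)
    (hf : ∀ k, Odd (w k) → K.Free i w) : K.gv i 0 w + (K.gv i 1 w + K.gv i 2 w) = 0 := by
  have key : ∀ k : Fin 3, ¬ Odd (w k) → K.gv i k w + (K.gv i (k+1) w + K.gv i (k+2) w) = 0 := by
    intro k hk
    have hs := sum3 w k hw
    by_cases h1 : Odd (w (k+1))
    · have h2 : Odd (w (k+2)) := by
        rw [Int.odd_iff] at *; omega
      have := K.node i k w hw hk h1 h2 (hf _ h1)
      unfold Col.gv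
      rw [ind_false hk, ind_true h1, ind_true h2, a11, a21, this, one_mul, CharTwo.add_self_eq_zero]
      simp
    · have h2 : ¬ Odd (w (k+2)) := by
        rw [Int.odd_iff] at *; omega
      unfold Col.gv
      rw [ind_false hk, ind_false h1, ind_false h2]
      simp
  by_cases h0 : Odd (w 0)
  · by_cases h1 : Odd (w 1)
    · have h2 : ¬ Odd (w 2) := by
        rw [Int.odd_iff] at *; omega
      have := key 2 h2
      have e1 : (2:Fin 3) + 1 = 0 := rfl
      have e2 : (2:Fin 3) + 2 = 1 := rfl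
      rw [e1, e2] at this
      rw [← this]; ring
    · have := key 1 h1
      have e1 : (1:Fin 3) + 1 = 2 := rfl
      have e2 : (1:Fin 3) + 2 = 0 := rfl
      rw [e1, e2] at this
      rw [← this]; ring
  · exact key 0 h0

lemma Col.eqn (hN : K.NoMeet) (i : Fin 3) :
    K.compl.nC (gg 0 i) * K.nC (gg 0 i) + K.II (gg 0 i) + K.II (gg 1 i) = 0 := by
  -- the sum over all darts of the complementary class
  have h0 : K.compl.tot i (K.gv i 0) + (K.compl.tot i (K.gv i 1) + K.compl.tot i (K.gv i 2)) = 0 := by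
    rw [← Col.tot_add, ← Col.tot_add]
    have : K.compl.tot i (fun w => K.gv i 0 w + (K.gv i 1 w + K.gv i 2 w)) = K.compl.tot i (fun _ => 0) := by
      apply K.compl.tot_congr'
      · intro p hl hp
        exact K.gv_sum i _ (S.sx p) (fun k hk => K.free_plus hN i p k hl hp hk)
      · intro p hl hp
        exact K.gv_sum i _ (S.sy p) (fun k hk => K.free_minus hN i p k hl hp hk)
    rw [this]
    unfold Col.tot
    simp
  -- pairing along the pieces of the complementary class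
  have hpair : ∀ k, K.compl.tot i (K.gv i k) = ∑ j, ind (¬ K.C ((S.s k).symm (Sum.inr (i,j)))) *
      K.gv i k (S.X ((S.s k).symm (Sum.inr (i,j)))) := by
    intro k
    apply K.compl.pair k i
    · intro w hw
      unfold Col.gv
      rw [ind_false hw, zero_mul]
    · intro q hl hc ho
      have hC : ¬ K.C ((S.s k).symm (Sum.inl q)) := by rw [K.seg k q ho]; exact hc
      have e1 := S.eqk k q
      have e2 := S.lek k q
      unfold Col.gv
      rw [e1]
      congr 1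
      have := K.walk i k (S.Y q k) (S.X ((S.s k).symm (Sum.inl q)) (k+1)) ho
        (S.Y q (k+1) - S.X ((S.s k).symm (Sum.inl q)) (k+1)).toNat ?_
      · rw [this]
        congr 2
        omega
      · intro z hz1 hz2
        apply K.free_of_on hN i ((S.s k).symm (Sum.inl q)) k (by rw [S.lab, hl]) hC (by rw [e1]; exact ho) _
          (mkp_sum _ _ _)
        refine ⟨by rw [mkp0, e1], by rw [mkp1]; exact hz1, ?_⟩
        intro q' hq'
        simp only [Equiv.apply_symm_apply, Sum.inl.injEq] at hq'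
        subst hq'
        rw [mkp1]
        omega
  -- far values
  have hfar : ∀ k, k ≠ 2 → ∀ j, ind (¬ K.C ((S.s k).symm (Sum.inr (i,j)))) *
      K.gv i k (S.X ((S.s k).symm (Sum.inr (i,j)))) =
      ind (¬ K.cb (gg k i) j ∧ Odd (S.c (gg k i) j)) *
        (K.tot i (fun w => ind (Odd (w (k+2)) ∧ Odd (w k))) +
          ∑ j', ind (K.cb (gg k i) j' ∧ Odd (S.c (gg k i) j') ∧ S.c (gg k i) j < S.c (gg k i) j')) := by
    intro k hk j
    have hb := S.bv k i j hk
    by_cases ho : Odd (S.c (gg k i) j)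
    · by_cases hc : K.C ((S.s k).symm (Sum.inr (i,j)))
      · rw [ind_false (p := ¬ _) (by simpa using hc),
          ind_false (p := _ ∧ _) (by rw [← K.bd k i j hk ho]; simp [hc]), zero_mul, zero_mul]
      · rw [ind_true hc, ind_true (p := _ ∧ _) ⟨by rw [← K.bd k i j hk ho]; exact hc, ho⟩, one_mul, one_mul]
        unfold Col.gv
        rw [hb, ind_true ho, one_mul]
        obtain ⟨Y0, hY0⟩ := K.far i k (S.c (gg k i) j) ho
        set y := S.X ((S.s k).symm (Sum.inr (i,j))) (k+1) with hy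
        have hw := K.walk i k (S.c (gg k i) j) y ho (Y0 - y).toNat ?_
        · rw [hw, hY0 _ (by omega)]
          congr 1
          rw [K.pair k i]
          · apply Finset.sum_congr rfl
            intro j' _
            rw [S.bv k i j' hk, ← ind_and]
            apply ind_congr
            constructor
            · rintro ⟨h1, h2, h3⟩; exact ⟨(K.bd k i j' hk h2).1 h1, h2, h3⟩
            · rintro ⟨h1, h2, h3⟩; exact ⟨(K.bd k i j' hk h2).2 h1, h2, h3⟩
          · intro w hw; exact ind_false (fun h => hw h.1)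
          · intro q _ _ _; rw [S.eqk]
        · intro z hz1 hz2
          apply K.free_of_on hN i ((S.s k).symm (Sum.inr (i,j))) k (S.labb k i j) hc (by rw [hb]; exact ho) _
            (mkp_sum _ _ _)
          refine ⟨by rw [mkp0, hb], by rw [mkp1]; exact hz1, ?_⟩
          intro q hq
          simp at hq
    · unfold Col.gv
      rw [hb, ind_false ho, ind_false (p := _ ∧ _) (fun h => ho h.2)]
      simp
  have htot : ∀ k, k ≠ 2 → K.compl.tot i (K.gv i k) =
      K.compl.nC (gg k i) * K.tot i (fun w => ind (Odd (w (k+2)) ∧ Odd (w k))) + K.II (gg k i) := by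
    intro k hk
    rw [hpair k, Finset.sum_congr rfl (fun j _ => hfar k hk j)]
    unfold Col.nC Col.II
    rw [Finset.sum_mul, ← Finset.sum_add_distrib]
    apply Finset.sum_congr rfl
    intro j _
    rw [mul_add]
    rfl
  have htot2 : K.compl.tot i (K.gv i 2) = 0 := by
    rw [hpair 2]
    apply Finset.sum_eq_zero
    intro j _
    unfold Col.gv
    rw [ind_false (p := Odd _)]
    · simp
    · rw [Int.not_odd_iff_even]
      exact S.bz i j
  rw [htot 0 (by decide), htot 1 (by decide), htot2, add_zero] at h0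
  have e1 : (1:Fin 3) + 2 = 0 := rfl
  have e2 : (0:Fin 3) + 2 = 2 := rfl
  rw [e1, e2, ← K.compl.nC_eq i] at h0
  obtain ⟨a, b, d, ha, hb, h1, h2, h3⟩ := K.counts i
  rw [ha, hb] at h0
  rw [← h1, ← h0]
  ring

/-- the meeting lemma -/
theorem Col.meet (h1 : K.nC 1 = 1) (h2 : K.compl.nC 1 = 1) :
    ∃ p k p' k', ∃ T : Fin 3 → ℤ, S.lp p = S.lp p' ∧ K.C p ∧ ¬ K.C p' ∧ Odd (S.X p k) ∧ Odd (S.X p' k') ∧
      T 0 + T 1 + T 2 = 0 ∧ S.On p k T ∧ S.On p' k' T := by
  by_contra hcon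
  have hN : K.NoMeet := by
    intro p k p' k' T a1 a2 a3 a4 a5 a6 a7 a8
    exact hcon ⟨p, k, p', k', T, a1, a2, a3, a4, a5, a6, a7, a8⟩
  have e0 := K.eqn hN 0
  have e1 := K.eqn hN 1
  have e2 := K.eqn hN 2
  simp only [gg] at e0 e1 e2
  simp at e0 e1 e2
  rw [h1, h2] at e2
  generalize K.compl.nC 0 * K.nC 0 = a at *
  generalize K.II 0 = b at *
  generalize K.II 1 = c at *
  generalize K.II 2 = d at *
  revert a b c d
  decide

end Pool.Agent.NL
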