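import Mathlib
import Pool.Agent.NL.Meet

set_option autoImplicit false

namespace Pool.Agent.NL

open Finset

/-- combinatorial part of a system of three networks -/
structure Cmb (n : ℕ) (P M : Type) where
  lp : P → Fin 3
  lm : M → Fin 3
  s : Fin 3 → P ≃ M ⊕ (Fin 3 × Fin n)
  lab : ∀ k p q, s k p = Sum.inl q → lp p = lm q
  labb : ∀ k p i j, s k p = Sum.inr (i, j) → lp p = i

/-- positions -/
structure Cfg (R : Type) (n : ℕ) (P M : Type) where
  x : P → Fin 3 → R
  y : M → Fin 3 → R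
  c : Fin 3 → Fin n → R

/-- boundary values -/
def bd {R : Type} [Ring R] {n : ℕ} (l c : Fin 3 → Fin n → R) (k i : Fin 3) (j : Fin n) : R :=
  if k = 2 then - l i j else c (gg k i) j

variable {n : ℕ} {P M : Type}

/-- linear conditions -/
structure Lin {R : Type} [Ring R] (G : Cmb n P M) (l : Fin 3 → Fin n → R) (X : Cfg R n P M) : Prop where
  sx : ∀ p, X.x p 0 + X.x p 1 + X.x p 2 = 0
  sy : ∀ q, X.y q 0 + X.y q 1 + X.y q 2 = 0
  seg : ∀ k p q, G.s k p = Sum.inl q → X.x p k = X.y q k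
  bv : ∀ k p i j, G.s k p = Sum.inr (i, j) → X.x p k = bd l X.c k i j

/-- validity -/
structure Val {R : Type} [Ring R] [LinearOrder R] (G : Cmb n P M) (l : Fin 3 → Fin n → R)
    (X : Cfg R n P M) : Prop extends Lin G l X where
  le : ∀ k p q, G.s k p = Sum.inl q → X.x p (k+1) ≤ X.y q (k+1)
  nn : ∀ w j, 0 ≤ X.c w j

/-- zero-length piece -/
def ZeroLen {R : Type} (G : Cmb n P M) (X : Cfg R n P M) : Prop :=
  ∃ k p q, G.s k p = Sum.inl q ∧ X.x p (k+1) = X.y q (k+1)

def Isz (a : ℚ) : Prop := ∃ z : ℤ, a = z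

/-- nonzero slide -/
structure Slide (G : Cmb n P M) (X V : Cfg ℚ n P M) : Prop where
  lin : Lin G 0 V
  vx : ∀ p k, Isz (X.x p k) → V.x p k = 0
  ne : ∃ p k, V.x p k ≠ 0

noncomputable def M1 (X : Cfg ℚ n P M) : ℕ := Nat.card {d : P × Fin 3 // ¬ Isz (X.x d.1 d.2)}

/-- a strictly smaller system exists -/
def Smaller [Fintype M] (l : Fin 3 → Fin n → ℚ) (X : Cfg ℚ n P M) : Prop :=
  ∃ (P' M' : Type) (_ : Fintype P') (_ : Fintype M') (G' : Cmb n P' M') (X' : Cfg ℚ n P' M'),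
    Val G' l X' ∧ (M1 X' < M1 X ∨ (M1 X' ≤ M1 X ∧ Fintype.card M' < Fintype.card M))

/-! ### cancellation -/

section cancel

variable (G : Cmb n P M) (p0 : P) (q0 : M)

open Classical in
/-- the new bijection before restriction -/
noncomputable def cs (k : Fin 3) : P ≃ M ⊕ (Fin 3 × Fin n) :=
  (G.s k).trans (Equiv.swap (G.s k p0) (Sum.inl q0))

lemma cs_p0 (k : Fin 3) : cs G p0 q0 k p0 = Sum.inl q0 := by
  simp [cs]

lemma cs_ne (k : Fin 3) (p : P) (hp : p ≠ p0) :
    (cs G p0 q0 k p = G.s k p ∧ G.s k p ≠ Sum.inl q0) ∨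
    (G.s k p = Sum.inl q0 ∧ cs G p0 q0 k p = G.s k p0) := by
  classical
  by_cases h : G.s k p = Sum.inl q0
  · right
    refine ⟨h, ?_⟩
    simp [cs, h]
  · left
    refine ⟨?_, h⟩
    simp only [cs, Equiv.trans_apply]
    apply Equiv.swap_apply_of_ne_of_ne _ h
    intro h'
    exact hp ((G.s k).injective h')

/-- the subtype of a sum -/
def sumSub (q0 : M) (B : Type) : {z : M ⊕ B // z ≠ Sum.inl q0} ≃ {q : M // q ≠ q0} ⊕ B where
  toFun z := match z with
    | ⟨Sum.inl q, h⟩ => Sum.inl ⟨q, fun h' => h (by rw [h'])⟩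
    | ⟨Sum.inr b, _⟩ => Sum.inr b
  invFun z := match z with
    | Sum.inl q => ⟨Sum.inl q.1, fun h => q.2 (Sum.inl.inj h)⟩
    | Sum.inr b => ⟨Sum.inr b, by simp⟩
  left_inv z := by
    rcases z with ⟨z | z, h⟩ <;> rfl
  right_inv z := by
    rcases z with z | z <;> rfl

lemma sumSub_inl (B : Type) (z : {z : M ⊕ B // z ≠ Sum.inl q0}) (q : {q : M // q ≠ q0})
    (h : sumSub q0 B z = Sum.inl q) : z.1 = Sum.inl q.1 := by
  have : z = (sumSub q0 B).symm (Sum.inl q) := by rw [← h]; simp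
  rw [this]; rfl

lemma sumSub_inr (B : Type) (z : {z : M ⊕ B // z ≠ Sum.inl q0}) (b : B)
    (h : sumSub q0 B z = Sum.inr b) : z.1 = Sum.inr b := by
  have : z = (sumSub q0 B).symm (Sum.inr b) := by rw [← h]; simp
  rw [this]; rfl

noncomputable def cs' (k : Fin 3) : {p : P // p ≠ p0} ≃ {q : M // q ≠ q0} ⊕ (Fin 3 × Fin n) :=
  ((cs G p0 q0 k).subtypeEquiv (fun p => by
    rw [← cs_p0 G p0 q0 k]; simp)).trans (sumSub q0 _)

lemma cs'_inl (k : Fin 3) (p : {p : P // p ≠ p0}) (q : {q : M // q ≠ q0})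
    (h : cs' G p0 q0 k p = Sum.inl q) : cs G p0 q0 k p.1 = Sum.inl q.1 :=
  sumSub_inl q0 _ _ q h

lemma cs'_inr (k : Fin 3) (p : {p : P // p ≠ p0}) (b : Fin 3 × Fin n)
    (h : cs' G p0 q0 k p = Sum.inr b) : cs G p0 q0 k p.1 = Sum.inr b :=
  sumSub_inr q0 _ _ b h

theorem cancel [Fintype P] [Fintype M] {l : Fin 3 → Fin n → ℚ} {X : Cfg ℚ n P M} (hX : Val G l X)
    (k0 : Fin 3) (h0 : G.s k0 p0 = Sum.inl q0) (h1 : X.x p0 (k0+1) = X.y q0 (k0+1)) :
    ∃ (P' M' : Type) (_ : Fintype P') (_ : Fintype M') (G' : Cmb n P' M') (X' : Cfg ℚ n P' M'),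
    Val G' l X' ∧ M1 X' ≤ M1 X ∧ Fintype.card M' < Fintype.card M := by
  classical
  have hpos : ∀ k, X.x p0 k = X.y q0 k := by
    have a0 := hX.seg k0 p0 q0 h0
    have b0 := hX.sx p0
    have b1 := hX.sy q0
    have h2 : X.x p0 (k0+2) = X.y q0 (k0+2) := by
      fin_cases k0 <;> simp at * <;> linarith
    intro k
    fin_cases k0 <;> fin_cases k <;> simp at * <;> assumption
  have hlab : G.lp p0 = G.lm q0 := G.lab k0 p0 q0 h0
  refine ⟨{p : P // p ≠ p0}, {q : M // q ≠ q0}, inferInstance, inferInstance,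
    ⟨fun p => G.lp p.1, fun q => G.lm q.1, cs' G p0 q0, ?_, ?_⟩,
    ⟨fun p => X.x p.1, fun q => X.y q.1, X.c⟩, ⟨⟨?_, ?_, ?_, ?_⟩, ?_, ?_⟩, ?_, ?_⟩
  · intro k p q h
    have h' := cs'_inl G p0 q0 k p q h
    rcases cs_ne G p0 q0 k p.1 p.2 with ⟨e1, e2⟩ | ⟨e1, e2⟩
    · rw [e1] at h'; exact G.lab k _ _ h'
    · rw [e2] at h'; rw [G.lab k _ _ e1, ← G.lab k _ _ h', hlab]
  · intro k p i j h
    have h' := cs'_inr G p0 q0 k p _ h
    rcases cs_ne G p0 q0 k p.1 p.2 with ⟨e1, e2⟩ | ⟨e1, e2⟩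
    · rw [e1] at h'; exact G.labb k _ _ _ h'
    · rw [e2] at h'; rw [G.lab k _ _ e1, ← hlab, G.labb k _ _ _ h']
  · intro p; exact hX.sx _
  · intro q; exact hX.sy _
  · intro k p q h
    have h' := cs'_inl G p0 q0 k p q h
    rcases cs_ne G p0 q0 k p.1 p.2 with ⟨e1, e2⟩ | ⟨e1, e2⟩
    · rw [e1] at h'; exact hX.seg k _ _ h'
    · rw [e2] at h'; simp only; rw [hX.seg k _ _ e1, ← hX.seg k _ _ h', hpos]
  · intro k p i j h
    have h' := cs'_inr G p0 q0 k p _ h
    rcases cs_ne G p0 q0 k p.1 p.2 with ⟨e1, e2⟩ | ⟨e1, e2⟩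
    · rw [e1] at h'; exact hX.bv k _ _ _ h'
    · rw [e2] at h'; simp only; rw [hX.seg k _ _ e1, ← hX.bv k _ _ _ h', hpos]
  · intro k p q h
    have h' := cs'_inl G p0 q0 k p q h
    rcases cs_ne G p0 q0 k p.1 p.2 with ⟨e1, e2⟩ | ⟨e1, e2⟩
    · rw [e1] at h'; exact hX.le k _ _ h'
    · rw [e2] at h'; simp only
      have a1 := hX.le k _ _ e1
      have a2 := hX.le k _ _ h'
      rw [hpos] at a2
      exact a1.trans a2
  · intro w j; exact hX.nn w j
  · unfold M1
    apply Nat.card_le_card_of_injective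
      (fun d : {d : {p : P // p ≠ p0} × Fin 3 // ¬ Isz (X.x d.1.1 d.2)} =>
        (⟨(d.1.1.1, d.1.2), d.2⟩ : {d : P × Fin 3 // ¬ Isz (X.x d.1 d.2)}))
    rintro ⟨⟨⟨a, ha⟩, k⟩, h1⟩ ⟨⟨⟨b, hb⟩, k'⟩, h2⟩ h
    simp at h
    obtain ⟨rfl, rfl⟩ := h
    rfl
  · apply Fintype.card_lt_of_injective_of_notMem (fun q : {q : M // q ≠ q0} => q.1)
      Subtype.val_injective (b := q0)
    rintro ⟨q, hq⟩
    exact q.2 hq

end cancel

/-! ### slides -/

/-- moving a configuration -/
def Cfg.move (X V : Cfg ℚ n P M) (ε : ℚ) : Cfg ℚ n P M where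
  x := fun p k => X.x p k + ε * V.x p k
  y := fun q k => X.y q k + ε * V.y q k
  c := fun w j => X.c w j + ε * V.c w j

lemma Lin.move {G : Cmb n P M} {l : Fin 3 → Fin n → ℚ} {X V : Cfg ℚ n P M} (hX : Lin G l X)
    (hV : Lin G 0 V) (ε : ℚ) : Lin G l (X.move V ε) := by
  refine ⟨?_, ?_, ?_, ?_⟩
  · intro p
    have a := hX.sx p
    have b := hV.sx p
    simp only [Cfg.move]
    linear_combination a + ε * b
  · intro p
    have a := hX.sy p
    have b := hV.sy p
    simp only [Cfg.move]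
    linear_combination a + ε * b
  · intro k p q h
    have a := hX.seg k p q h
    have b := hV.seg k p q h
    simp only [Cfg.move]
    rw [a, b]
  · intro k p i j h
    have a := hX.bv k p i j h
    have b := hV.bv k p i j h
    simp only [Cfg.move]
    rw [a, b]
    unfold bd
    split_ifs <;> simp

lemma event {ι : Type} [Fintype ι] (g s : ι → ℚ) (hg : ∀ i, 0 < g i) (hs : ∃ i, s i < 0) :
    ∃ ε : ℚ, 0 < ε ∧ (∀ i, 0 ≤ g i + ε * s i) ∧ ∃ i, g i + ε * s i = 0 := by
  classical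
  obtain ⟨i0, hi0⟩ := hs
  obtain ⟨i, hi, hmin⟩ := Finset.exists_min_image (univ.filter (fun i => s i < 0))
    (fun i => g i / (- s i)) ⟨i0, by simp [hi0]⟩
  simp only [mem_filter, mem_univ, true_and] at hi hmin
  have hpos : 0 < g i / (- s i) := div_pos (hg i) (by linarith)
  refine ⟨g i / (- s i), hpos, ?_, i, ?_⟩
  · intro j
    by_cases hj : s j < 0
    · have h := hmin j hj
      have h2 : g i / (- s i) * (- s j) ≤ g j / (- s j) * (- s j) :=
        mul_le_mul_of_nonneg_right h (by linarith)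
      rw [div_mul_cancel₀ _ (by linarith : - s j ≠ 0)] at h2
      linarith
    · have := mul_nonneg hpos.le (not_lt.1 hj)
      linarith [hg j]
  · have : s i ≠ 0 := ne_of_lt hi
    field_simp
    ring

lemma exists_slot (w : Fin 3) : ∃ k i : Fin 3, k ≠ 2 ∧ gg k i = w := by
  fin_cases w
  · exact ⟨0, 0, by decide, by decide⟩
  · exact ⟨1, 0, by decide, by decide⟩
  · exact ⟨1, 1, by decide, by decide⟩

lemma bd_ne {R : Type} [Ring R] {n : ℕ} (l c : Fin 3 → Fin n → R) (k i : Fin 3) (j : Fin n) (h : k ≠ 2) :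
    bd l c k i j = c (gg k i) j := by simp [bd, h]

lemma Isz_floor {a : ℚ} (h : ¬ Isz a) : (⌊a⌋ : ℚ) < a := by
  rcases lt_or_eq_of_le (Int.floor_le a) with h' | h'
  · exact h'
  · exact absurd ⟨⌊a⌋, h'.symm⟩ h

theorem slide [Fintype P] [Fintype M] {G : Cmb n P M} {l : Fin 3 → Fin n → ℚ} {X V : Cfg ℚ n P M}
    (hX : Val G l X) (hz : ¬ ZeroLen G X) (hV : Slide G X V) : Smaller l X := by
  classical
  let g : (P × Fin 3) ⊕ (Fin 3 × P) → ℚ := fun i => match i with
    | Sum.inl (p, k) => if V.x p k = 0 then 1 else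
        if 0 < V.x p k then ⌊X.x p k⌋ + 1 - X.x p k else X.x p k - ⌊X.x p k⌋
    | Sum.inr (k, p) => match G.s k p with
      | Sum.inl q => X.y q (k+1) - X.x p (k+1)
      | Sum.inr _ => 1
  let s : (P × Fin 3) ⊕ (Fin 3 × P) → ℚ := fun i => match i with
    | Sum.inl (p, k) => - |V.x p k|
    | Sum.inr (k, p) => match G.s k p with
      | Sum.inl q => V.y q (k+1) - V.x p (k+1)
      | Sum.inr _ => 0
  have gl : ∀ p k, g (Sum.inl (p, k)) = if V.x p k = 0 then 1 else
        if 0 < V.x p k then ⌊X.x p k⌋ + 1 - X.x p k else X.x p k - ⌊X.x p k⌋ := fun p k => rfl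
  have sl : ∀ p k, s (Sum.inl (p, k)) = - |V.x p k| := fun p k => rfl
  have gr : ∀ k p q, G.s k p = Sum.inl q → g (Sum.inr (k, p)) = X.y q (k+1) - X.x p (k+1) := by
    intro k p q h; simp only [g, h]
  have sr : ∀ k p q, G.s k p = Sum.inl q → s (Sum.inr (k, p)) = V.y q (k+1) - V.x p (k+1) := by
    intro k p q h; simp only [s, h]
  have gr' : ∀ k p b, G.s k p = Sum.inr b → g (Sum.inr (k, p)) = 1 := by
    intro k p b h; simp only [g, h]
  have sr' : ∀ k p b, G.s k p = Sum.inr b → s (Sum.inr (k, p)) = 0 := by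
    intro k p b h; simp only [s, h]
  obtain ⟨ε, he, hall, i0, hi0⟩ := event g s (by
    rintro (⟨p, k⟩ | ⟨k, p⟩)
    · rw [gl]
      split_ifs with h1 h2
      · norm_num
      · have := Int.lt_floor_add_one (X.x p k)
        linarith
      · have := Isz_floor (fun h => h1 (hV.vx p k h))
        linarith
    · rcases hs : G.s k p with q | b
      · rw [gr k p q hs]
        have h1 := hX.le k p q hs
        have h2 : X.x p (k+1) ≠ X.y q (k+1) := fun h => hz ⟨k, p, q, hs, h⟩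
        have := lt_of_le_of_ne h1 h2
        linarith
      · rw [gr' k p b hs]; norm_num) (by
    obtain ⟨p, k, h⟩ := hV.ne
    refine ⟨Sum.inl (p, k), ?_⟩
    rw [sl]
    have := abs_pos.2 h
    linarith)
  have hcoord : ∀ p k, Isz (X.x p k) → (X.move V ε).x p k = X.x p k := by
    intro p k h
    simp [Cfg.move, hV.vx p k h]
  have hval : Val G l (X.move V ε) := by
    refine ⟨hX.toLin.move hV.lin ε, ?_, ?_⟩
    · intro k p q h
      have := hall (Sum.inr (k, p))
      rw [gr k p q h, sr k p q h] at this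
      simp only [Cfg.move]
      linarith
    · intro w j
      obtain ⟨k, i, hk, rfl⟩ := exists_slot w
      have hs : G.s k ((G.s k).symm (Sum.inr (i, j))) = Sum.inr (i, j) := by simp
      generalize (G.s k).symm (Sum.inr (i, j)) = p at hs
      have a := hX.bv k p i j hs
      have b := hV.lin.bv k p i j hs
      rw [bd_ne _ _ _ _ _ hk] at a b
      have h := hall (Sum.inl (p, k))
      have hn := hX.nn (gg k i) j
      simp only [Cfg.move]
      rw [← a] at hn ⊢
      rw [← b]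
      rw [gl, sl] at h
      split_ifs at h with h1 h2
      · rw [h1]; linarith
      · have := mul_pos he h2
        linarith
      · rw [abs_of_nonpos (not_lt.1 h2)] at h
        have : (0:ℚ) ≤ ⌊X.x p k⌋ := by exact_mod_cast Int.floor_nonneg.2 hn
        linarith
  have hM1 : M1 (X.move V ε) ≤ M1 X ∧ (∀ p k, ¬ Isz (X.x p k) → Isz ((X.move V ε).x p k) →
      M1 (X.move V ε) < M1 X) := by
    have key : ∀ d : P × Fin 3, ¬ Isz ((X.move V ε).x d.1 d.2) → ¬ Isz (X.x d.1 d.2) := by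
      intro d h h'
      rw [hcoord _ _ h'] at h
      exact h h'
    unfold M1
    rw [Nat.card_eq_fintype_card, Nat.card_eq_fintype_card]
    constructor
    · exact Fintype.card_subtype_mono _ _ (fun d => key d)
    · intro p k h1 h2
      apply Fintype.card_lt_of_injective_of_notMem
        (fun d : {d : P × Fin 3 // ¬ Isz ((X.move V ε).x d.1 d.2)} =>
          (⟨d.1, key d.1 d.2⟩ : {d : P × Fin 3 // ¬ Isz (X.x d.1 d.2)})) (b := ⟨(p, k), h1⟩)
      · intro a b h
        simp only [Subtype.mk.injEq] at h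
        exact Subtype.ext h
      · rintro ⟨d, hd⟩
        simp only [Subtype.mk.injEq] at hd
        apply d.2
        rw [hd]
        exact h2
  rcases i0 with ⟨p, k⟩ | ⟨k, p⟩
  · rw [gl, sl] at hi0
    have hfin : ¬ Isz (X.x p k) ∧ Isz ((X.move V ε).x p k) := by
      split_ifs at hi0 with h1 h2
      · rw [h1] at hi0; simp at hi0
      · refine ⟨fun h => h1 (hV.vx p k h), ⌊X.x p k⌋ + 1, ?_⟩
        simp only [Cfg.move]
        rw [abs_of_pos h2] at hi0
        push_cast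
        linarith
      · refine ⟨fun h => h1 (hV.vx p k h), ⌊X.x p k⌋, ?_⟩
        simp only [Cfg.move]
        rw [abs_of_nonpos (not_lt.1 h2)] at hi0
        linarith
    exact ⟨P, M, inferInstance, inferInstance, G, X.move V ε, hval, Or.inl (hM1.2 p k hfin.1 hfin.2)⟩
  · rcases hs : G.s k p with q | b
    · rw [gr k p q hs, sr k p q hs] at hi0
      obtain ⟨P', M', i1, i2, G', X', h1, h2, h3⟩ := cancel G p q hval k hs (by
        simp only [Cfg.move]; linarith)
      exact ⟨P', M', i1, i2, G', X', h1, Or.inr ⟨h2.trans hM1.1, h3⟩⟩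
    · rw [gr' k p b hs, sr' k p b hs] at hi0
      norm_num at hi0

theorem reduce [Fintype P] [Fintype M] {G : Cmb n P M} {l : Fin 3 → Fin n → ℚ} {X : Cfg ℚ n P M}
    (hX : Val G l X) (h : ZeroLen G X ∨ ∃ V, Slide G X V) : Smaller l X := by
  by_cases hz : ZeroLen G X
  · obtain ⟨k, p, q, h1, h2⟩ := hz
    obtain ⟨P', M', i1, i2, G', X', h1, h2, h3⟩ := cancel G p q hX k h1 h2
    exact ⟨P', M', i1, i2, G', X', h1, Or.inr ⟨h2, h3⟩⟩
  · rcases h with h | ⟨V, hV⟩
    · exact absurd h hz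
    · exact slide hX hz hV

end Pool.Agent.NL
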