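import Mathlib
import Pool.Agent.NL.Sys
import Pool.Agent.NL.Graph

set_option autoImplicit false

namespace Pool.Agent.NL

open Finset

/-- partner of a boundary family -/
def prt (k i : Fin 3) : Fin 3 × Fin 3 :=
  if k = 2 then (2, i) else
  if k = 0 then (if i = 0 then (0, 1) else if i = 1 then (0, 0) else (1, 0))
  else (if i = 0 then (0, 2) else if i = 1 then (1, 2) else (1, 1))

/-- representative family of a partition -/
def rep (w : Fin 3) : Fin 3 × Fin 3 := if w = 0 then (0, 0) else if w = 1 then (1, 0) else (1, 1)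

lemma prt_prt : ∀ k i : Fin 3, prt (prt k i).1 (prt k i).2 = (k, i) := by decide
lemma prt_gg : ∀ k i : Fin 3, k ≠ 2 → (prt k i).1 ≠ 2 ∧ gg (prt k i).1 (prt k i).2 = gg k i := by decide
lemma prt_ne : ∀ k i : Fin 3, k ≠ 2 → prt k i ≠ (k, i) := by decide
lemma prt_two : ∀ i : Fin 3, prt 2 i = (2, i) := by decide
lemma rep_spec : ∀ w : Fin 3, (rep w).1 ≠ 2 ∧ gg (rep w).1 (rep w).2 = w := by decide
lemma rep_cases : ∀ k i : Fin 3, k ≠ 2 → (k, i) = rep (gg k i) ∨
    ((k, i) = prt (rep (gg k i)).1 (rep (gg k i)).2 ∧ prt k i = rep (gg k i)) := by decide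

variable {n : ℕ} {P M : Type}

/-- the dart at a boundary slot -/
def sd (G : Cmb n P M) (ki : Fin 3 × Fin 3) (j : Fin n) : (P ⊕ M) × Fin 3 :=
  (Sum.inl ((G.s ki.1).symm (Sum.inr (ki.2, j))), ki.1)

/-- the other end of a strand -/
def t2 (G : Cmb n P M) : (P ⊕ M) × Fin 3 → (P ⊕ M) × Fin 3
  | (Sum.inr q, k) => (Sum.inl ((G.s k).symm (Sum.inl q)), k)
  | (Sum.inl p, k) => match G.s k p with
    | Sum.inl q => (Sum.inr q, k)
    | Sum.inr (i, j) => sd G (prt k i) j

lemma t2_inr (G : Cmb n P M) (q : M) (k : Fin 3) :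
    t2 G (Sum.inr q, k) = (Sum.inl ((G.s k).symm (Sum.inl q)), k) := rfl

lemma t2_seg (G : Cmb n P M) (p : P) (k : Fin 3) (q : M) (h : G.s k p = Sum.inl q) :
    t2 G (Sum.inl p, k) = (Sum.inr q, k) := by simp only [t2, h]

lemma t2_bd (G : Cmb n P M) (p : P) (k i : Fin 3) (j : Fin n) (h : G.s k p = Sum.inr (i, j)) :
    t2 G (Sum.inl p, k) = sd G (prt k i) j := by simp only [t2, h]

lemma t2_sd (G : Cmb n P M) (ki : Fin 3 × Fin 3) (j : Fin n) :
    t2 G (sd G ki j) = sd G (prt ki.1 ki.2) j :=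
  t2_bd G _ _ _ _ (by simp)

lemma sd_eq (G : Cmb n P M) (p : P) (k i : Fin 3) (j : Fin n) (h : G.s k p = Sum.inr (i, j)) :
    (Sum.inl p, k) = sd G (k, i) j := by
  simp only [sd, ← h, Equiv.symm_apply_apply]

lemma t2_t2 (G : Cmb n P M) (d : (P ⊕ M) × Fin 3) : t2 G (t2 G d) = d := by
  obtain ⟨v | q, k⟩ := d
  · rcases hs : G.s k v with q | ⟨i, j⟩
    · rw [t2_seg G v k q hs, t2_inr, ← hs]; simp
    · rw [t2_bd G v k i j hs, t2_sd, prt_prt, ← sd_eq G v k i j hs]
  · rw [t2_inr, t2_seg G _ _ q (by simp)]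

/-- position of a dart -/
def pos {R : Type} (X : Cfg R n P M) (d : (P ⊕ M) × Fin 3) : R := Sum.elim X.x X.y d.1 d.2

lemma pos_inl {R : Type} (X : Cfg R n P M) (p : P) (k : Fin 3) : pos X (Sum.inl p, k) = X.x p k := rfl
lemma pos_inr {R : Type} (X : Cfg R n P M) (p : M) (k : Fin 3) : pos X (Sum.inr p, k) = X.y p k := rfl

lemma pos_t2 {R : Type} [Ring R] {G : Cmb n P M} {l : Fin 3 → Fin n → R} {X : Cfg R n P M}
    (hX : Lin G l X) (d : (P ⊕ M) × Fin 3) : pos X (t2 G d) = pos X d := by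
  obtain ⟨v | q, k⟩ := d
  · rcases hs : G.s k v with q | ⟨i, j⟩
    · rw [t2_seg G v k q hs, pos_inr, pos_inl, hX.seg k v q hs]
    · rw [t2_bd G v k i j hs, pos_inl, hX.bv k v i j hs]
      by_cases hk : k = 2
      · subst hk
        rw [prt_two, ← sd_eq G v 2 i j hs, pos_inl, hX.bv 2 v i j hs]
      · have h1 := prt_gg k i hk
        unfold sd
        rw [pos_inl, hX.bv _ _ (prt k i).2 j (by simp), bd_ne _ _ _ _ _ hk, bd_ne _ _ _ _ _ h1.1, h1.2]
  · rw [t2_inr, pos_inr, pos_inl, hX.seg k _ q (by simp)]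

lemma pos_sum {R : Type} [Ring R] {G : Cmb n P M} {l : Fin 3 → Fin n → R} {X : Cfg R n P M}
    (hX : Lin G l X) (v : P ⊕ M) : pos X (v, 0) + pos X (v, 1) + pos X (v, 2) = 0 := by
  rcases v with p | q
  · exact hX.sx p
  · exact hX.sy q

/-- configuration from a dart function -/
def ofD {R : Type} (G : Cmb n P M) (F : (P ⊕ M) × Fin 3 → R) : Cfg R n P M where
  x := fun p k => F (Sum.inl p, k)
  y := fun q k => F (Sum.inr q, k)
  c := fun w j => F (sd G (rep w) j)

lemma ofD_lin {R : Type} [Ring R] (G : Cmb n P M) (F : (P ⊕ M) × Fin 3 → R)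
    (h1 : ∀ d, F (t2 G d) = F d) (h2 : ∀ v, F (v, 0) + F (v, 1) + F (v, 2) = 0)
    (h3 : ∀ i j, F (sd G (2, i) j) = 0) : Lin G 0 (ofD G F) := by
  refine ⟨fun p => h2 _, fun q => h2 _, ?_, ?_⟩
  · intro k p q h
    show F (Sum.inl p, k) = F (Sum.inr q, k)
    rw [← h1 (Sum.inl p, k), t2_seg G p k q h]
  · intro k p i j h
    show F (Sum.inl p, k) = _
    rw [sd_eq G p k i j h]
    by_cases hk : k = 2
    · subst hk
      rw [h3]
      simp [bd]
    · rw [bd_ne _ _ _ _ _ hk]
      show _ = F (sd G (rep (gg k i)) j)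
      rcases rep_cases k i hk with h' | ⟨_, h'⟩
      · rw [← h']
      · rw [← h', ← t2_sd G (k, i) j, h1]

/-! ### fractional darts -/

section frac

variable [Fintype P] [Fintype M] (X : Cfg ℚ n P M)

/-- fractional darts -/
abbrev DF := {d : (P ⊕ M) × Fin 3 // ¬ Isz (pos X d)}

/-- fractional nodes -/
abbrev VF := {v : P ⊕ M // ∃ k, ¬ Isz (pos X (v, k))}

def nd (d : DF X) : VF X := ⟨d.1.1, d.1.2, d.2⟩

open Classical in
noncomputable def ext {R : Type} [Zero R] (f : DF X → R) (d : (P ⊕ M) × Fin 3) : R :=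
  if h : ¬ Isz (pos X d) then f ⟨d, h⟩ else 0

omit [Fintype P] [Fintype M] in
lemma ext_of {R : Type} [Zero R] (f : DF X → R) (d : (P ⊕ M) × Fin 3) (h : ¬ Isz (pos X d)) :
    ext X f d = f ⟨d, h⟩ := by
  unfold ext; rw [dif_pos h]

omit [Fintype P] [Fintype M] in
lemma ext_not {R : Type} [Zero R] (f : DF X → R) (d : (P ⊕ M) × Fin 3) (h : Isz (pos X d)) :
    ext X f d = 0 := by
  unfold ext; rw [dif_neg (not_not.2 h)]

open Classical in
lemma fib_sum {R : Type} [AddCommMonoid R] (f : DF X → R) (v : VF X) :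
    ∑ d ∈ univ.filter (fun d => nd X d = v), f d = ext X f (v.1, 0) + ext X f (v.1, 1) + ext X f (v.1, 2) := by
  rw [← Fin.sum_univ_three (fun k => ext X f (v.1, k)),
    ← Finset.sum_filter_of_ne (p := fun k => ¬ Isz (pos X (v.1, k)))]
  · apply Finset.sum_bij (fun d _ => d.1.2)
    · intro d hd
      simp only [mem_filter, mem_univ, true_and] at hd ⊢
      rw [← hd]
      exact d.2
    · intro a ha b hb hab
      simp only [mem_filter, mem_univ, true_and] at ha hb
      apply Subtype.ext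
      apply Prod.ext
      · have := ha.trans hb.symm
        exact congrArg Subtype.val this
      · exact hab
    · intro k hk
      simp only [mem_filter, mem_univ, true_and] at hk
      exact ⟨⟨(v.1, k), hk⟩, by simp only [mem_filter, mem_univ, true_and]; rfl, rfl⟩
    · intro d hd
      simp only [mem_filter, mem_univ, true_and] at hd
      rw [← hd]
      exact (ext_of X f d.1 d.2).symm
  · intro k _ hk h
    exact hk (ext_not X f _ h)

variable {X}

lemma Isz_add {a b : ℚ} (ha : Isz a) (hb : Isz b) : Isz (a + b) := by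
  obtain ⟨z, rfl⟩ := ha
  obtain ⟨w, rfl⟩ := hb
  exact ⟨z + w, by push_cast; rfl⟩

lemma Isz_neg {a : ℚ} (ha : Isz a) : Isz (-a) := by
  obtain ⟨z, rfl⟩ := ha
  exact ⟨-z, by push_cast; rfl⟩

/-- data of case C -/
structure CaseC (G : Cmb n P M) (l : Fin 3 → Fin n → ℤ) (X : Cfg ℚ n P M) : Prop where
  val : Val G (fun i j => (l i j : ℚ)) X
  nz : ¬ ZeroLen G X
  ns : ¬ ∃ V, Slide G X V

variable {G : Cmb n P M} {l : Fin 3 → Fin n → ℤ}

omit [Fintype P] [Fintype M] in
lemma CaseC.z_int (h : CaseC G l X) (i : Fin 3) (j : Fin n) : Isz (pos X (sd G (2, i) j)) := by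
  have := h.val.bv 2 ((G.s 2).symm (Sum.inr (i, j))) i j (by simp)
  unfold sd
  rw [pos_inl]
  simp only
  rw [this]
  exact ⟨- l i j, by simp [bd]⟩

omit [Fintype P] [Fintype M] in
lemma CaseC.noslide (h : CaseC G l X) (F : (P ⊕ M) × Fin 3 → ℚ) (h0 : ∀ d, Isz (pos X d) → F d = 0)
    (h1 : ∀ d, F (t2 G d) = F d) (h2 : ∀ v, F (v, 0) + F (v, 1) + F (v, 2) = 0) : ∀ d, F d = 0 := by
  have hl := ofD_lin G F h1 h2 (fun i j => h0 _ (h.z_int i j))
  by_contra hcon
  push Not at hcon
  obtain ⟨d, hd⟩ := hcon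
  apply h.ns
  refine ⟨ofD G F, hl, fun p k hp => h0 _ hp, ?_⟩
  obtain ⟨v | q, k⟩ := d
  · exact ⟨v, k, hd⟩
  · refine ⟨(G.s k).symm (Sum.inl q), k, ?_⟩
    rw [← h1, t2_inr] at hd
    exact hd

def t2' (h : CaseC G l X) (d : DF X) : DF X :=
  ⟨t2 G d.1, by rw [pos_t2 h.val.toLin]; exact d.2⟩

omit [Fintype P] [Fintype M] in
lemma CaseC.t2_ne (h : CaseC G l X) (d : (P ⊕ M) × Fin 3) (hd : ¬ Isz (pos X d)) : t2 G d ≠ d := by
  obtain ⟨v | q, k⟩ := d
  · rcases hs : G.s k v with q | ⟨i, j⟩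
    · rw [t2_seg G v k q hs]; simp
    · rw [t2_bd G v k i j hs]
      intro hc
      have hk : k ≠ 2 := by
        rintro rfl
        apply hd
        rw [sd_eq G v 2 i j hs]
        exact h.z_int i j
      apply prt_ne k i hk
      have h1 : (prt k i).1 = k := congrArg Prod.snd hc
      have h2 : (G.s (prt k i).1).symm (Sum.inr ((prt k i).2, j)) = v := Sum.inl.inj (congrArg Prod.fst hc)
      rw [h1, Equiv.symm_apply_eq, hs] at h2
      simp only [Sum.inr.injEq, Prod.mk.injEq, and_true] at h2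
      exact Prod.ext h1 h2
  · rw [t2_inr]; simp

omit [Fintype P] [Fintype M] in
lemma CaseC.two_le (h : CaseC G l X) (v : P ⊕ M) (k : Fin 3) (hk : ¬ Isz (pos X (v, k))) :
    ¬ Isz (pos X (v, k+1)) ∨ ¬ Isz (pos X (v, k+2)) := by
  by_contra hcon
  push Not at hcon
  have hs := pos_sum h.val.toLin v
  apply hk
  have : pos X (v, k) = -(pos X (v, k+1) + pos X (v, k+2)) := by
    fin_cases k <;> simp <;> linarith
  rw [this]
  exact Isz_neg (Isz_add hcon.1 hcon.2)

omit [Fintype P] [Fintype M] in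
lemma CaseC.hno (h : CaseC G l X) (f : DF X → ℚ) (h1 : ∀ d, f (t2' h d) = f d)
    (h2 : ∀ v : VF X, ext X f (v.1, 0) + ext X f (v.1, 1) + ext X f (v.1, 2) = 0) : ∀ d, f d = 0 := by
  have key := h.noslide (ext X f) (fun d hd => ext_not X f d hd) ?_ ?_
  · intro d
    rw [← ext_of X f d.1 d.2]
    exact key _
  · intro d
    by_cases hd : Isz (pos X d)
    · rw [ext_not X f d hd, ext_not X f _ (by rw [pos_t2 h.val.toLin]; exact hd)]
    · rw [ext_of X f d hd, ext_of X f _ (by rw [pos_t2 h.val.toLin]; exact hd)]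
      exact h1 ⟨d, hd⟩
  · intro v
    by_cases hv : ∃ k, ¬ Isz (pos X (v, k))
    · exact h2 ⟨v, hv⟩
    · push Not at hv
      rw [ext_not X f _ (hv 0), ext_not X f _ (hv 1), ext_not X f _ (hv 2)]
      simp

open Classical in
lemma CaseC.card_two (h : CaseC G l X) (v : VF X) :
    (univ.filter (fun d : DF X => nd X d = v)).card = 2 := by
  apply two_of_noslide (nd X) (t2' h)
  · intro d
    apply Subtype.ext
    exact t2_t2 G d.1
  · intro d hd
    exact h.t2_ne d.1 d.2 (congrArg Subtype.val hd)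
  · rintro ⟨v, k, hk⟩
    have : 1 < (univ.filter (fun d : DF X => nd X d = ⟨v, k, hk⟩)).card := by
      rw [Finset.one_lt_card]
      rcases h.two_le v k hk with h' | h'
      · refine ⟨⟨(v, k), hk⟩, by simp [nd], ⟨(v, k+1), h'⟩, by simp [nd], ?_⟩
        intro hc
        have := congrArg (fun d => d.1.2) hc
        simp at this
      · refine ⟨⟨(v, k), hk⟩, by simp [nd], ⟨(v, k+2), h'⟩, by simp [nd], ?_⟩
        intro hc
        have := congrArg (fun d => d.1.2) hc
        fin_cases k <;> simp at this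
    exact this
  · intro f h1 h2
    apply h.hno f h1
    intro v
    rw [← fib_sum]
    exact h2 v

omit [Fintype P] [Fintype M] in
lemma Isz_iff_fract {a : ℚ} : Isz a ↔ Int.fract a = 0 := by
  constructor
  · rintro ⟨z, rfl⟩; simp
  · intro h
    refine ⟨⌊a⌋, ?_⟩
    have := Int.self_sub_floor a
    rw [h] at this
    linarith

/-- exactly two fractional coordinates at a fractional node -/
lemma CaseC.exactly (h : CaseC G l X) (v : P ⊕ M) (k : Fin 3) (hk : ¬ Isz (pos X (v, k))) :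
    (¬ Isz (pos X (v, k+1)) ∧ Isz (pos X (v, k+2))) ∨ (Isz (pos X (v, k+1)) ∧ ¬ Isz (pos X (v, k+2))) := by
  classical
  by_cases h1 : Isz (pos X (v, k+1))
  · right
    refine ⟨h1, ?_⟩
    rcases h.two_le v k hk with h' | h'
    · exact absurd h1 h'
    · exact h'
  · left
    refine ⟨h1, ?_⟩
    by_contra h2
    have hc := h.card_two ⟨v, k, hk⟩
    have : 2 < (univ.filter (fun d : DF X => nd X d = ⟨v, k, hk⟩)).card := by
      rw [Finset.two_lt_card]
      refine ⟨⟨(v, k), hk⟩, by simp [nd], ⟨(v, k+1), h1⟩, by simp [nd], ⟨(v, k+2), h2⟩, by simp [nd], ?_, ?_, ?_⟩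
      all_goals
        intro hc
        have := congrArg (fun d => d.1.2) hc
        fin_cases k <;> simp at this
    omega

lemma CaseC.half (h : CaseC G l X) (d : (P ⊕ M) × Fin 3) (hd : ¬ Isz (pos X d)) :
    Int.fract (pos X d) = 1/2 := by
  have key := h.hno (fun d => Int.fract (pos X d.1) - 1/2) ?_ ?_ ⟨d, hd⟩
  · simp only at key; linarith
  · intro d
    simp only [t2']
    rw [pos_t2 h.val.toLin]
  · rintro ⟨v, k, hk⟩
    simp only
    -- cyclic form
    have key : ∀ k : Fin 3, ¬ Isz (pos X (v, k)) → ¬ Isz (pos X (v, k+1)) → Isz (pos X (v, k+2)) →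
        ext X (fun d : DF X => Int.fract (pos X d.1) - 1/2) (v, k) +
        ext X (fun d : DF X => Int.fract (pos X d.1) - 1/2) (v, k+1) +
        ext X (fun d : DF X => Int.fract (pos X d.1) - 1/2) (v, k+2) = 0 := by
      intro k h0 h1 h2
      rw [ext_of X _ _ h0, ext_of X _ _ h1, ext_not X _ _ h2]
      simp only
      have hs := pos_sum h.val.toLin v
      have hs' : pos X (v, k) + pos X (v, k+1) + pos X (v, k+2) = 0 := by
        fin_cases k <;> simp <;> linarith
      obtain ⟨z, hz⟩ := h2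
      rw [hz] at hs'
      have a0 := Int.floor_add_fract (pos X (v, k))
      have a1 := Int.floor_add_fract (pos X (v, k+1))
      have b0 := Int.fract_lt_one (pos X (v, k))
      have b1 := Int.fract_lt_one (pos X (v, k+1))
      have c0 : 0 < Int.fract (pos X (v, k)) :=
        lt_of_le_of_ne (Int.fract_nonneg _) (fun h => h0 (Isz_iff_fract.2 h.symm))
      have c1 : 0 < Int.fract (pos X (v, k+1)) :=
        lt_of_le_of_ne (Int.fract_nonneg _) (fun h => h1 (Isz_iff_fract.2 h.symm))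
      have e : Int.fract (pos X (v, k)) + Int.fract (pos X (v, k+1)) =
          ((- z - ⌊pos X (v, k)⌋ - ⌊pos X (v, k+1)⌋ : ℤ) : ℚ) := by
        push_cast
        linarith
      have e1 : (0 : ℤ) < - z - ⌊pos X (v, k)⌋ - ⌊pos X (v, k+1)⌋ := by
        have : (0 : ℚ) < ((- z - ⌊pos X (v, k)⌋ - ⌊pos X (v, k+1)⌋ : ℤ) : ℚ) := by rw [← e]; linarith
        exact_mod_cast this
      have e2 : - z - ⌊pos X (v, k)⌋ - ⌊pos X (v, k+1)⌋ < (2 : ℤ) := by
        have : ((- z - ⌊pos X (v, k)⌋ - ⌊pos X (v, k+1)⌋ : ℤ) : ℚ) < 2 := by rw [← e]; linarith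
        exact_mod_cast this
      have e3 : - z - ⌊pos X (v, k)⌋ - ⌊pos X (v, k+1)⌋ = (1 : ℤ) := by omega
      rw [e3] at e
      push_cast at e
      linarith
    -- some cyclic position
    have : ∃ k : Fin 3, ¬ Isz (pos X (v, k)) ∧ ¬ Isz (pos X (v, k+1)) ∧ Isz (pos X (v, k+2)) := by
      rcases h.exactly v k hk with ⟨h1, h2⟩ | ⟨h1, h2⟩
      · exact ⟨k, hk, h1, h2⟩
      · refine ⟨k+2, h2, ?_, ?_⟩
        · rw [a21]; exact hk
        · rw [a22]; exact h1
    obtain ⟨k, h0, h1, h2⟩ := this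
    have := key k h0 h1 h2
    fin_cases k
    · exact this
    · rw [← this]; simp; ring
    · rw [← this]; simp; ring

/-- the other fractional kind at a node -/
lemma CaseC.exists_other (h : CaseC G l X) (d : DF X) : ∃ d' : DF X, d' ≠ d ∧ nd X d' = nd X d ∧
    ∀ d'', nd X d'' = nd X d → d'' = d ∨ d'' = d' := by
  classical
  have hc := h.card_two (nd X d)
  rw [Finset.card_eq_two] at hc
  obtain ⟨a, b, hab, hs⟩ := hc
  have hd : d ∈ univ.filter (fun d' : DF X => nd X d' = nd X d) := by simp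
  have ha : a ∈ univ.filter (fun d' : DF X => nd X d' = nd X d) := by rw [hs]; simp
  have hb : b ∈ univ.filter (fun d' : DF X => nd X d' = nd X d) := by rw [hs]; simp
  rw [hs] at hd
  simp only [mem_filter, mem_univ, true_and] at ha hb
  have hall : ∀ d'', nd X d'' = nd X d → d'' = a ∨ d'' = b := by
    intro d'' h''
    have : d'' ∈ univ.filter (fun d' : DF X => nd X d' = nd X d) := by simp [h'']
    rw [hs] at this
    simpa using this
  simp only [mem_insert, mem_singleton] at hd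
  rcases hd with hd | hd
  · refine ⟨b, by rw [hd]; exact hab.symm, hb, ?_⟩
    intro d'' h''
    rcases hall d'' h'' with h1 | h1
    · left; rw [h1, hd]
    · right; exact h1
  · refine ⟨a, by rw [hd]; exact hab, ha, ?_⟩
    intro d'' h''
    rcases hall d'' h'' with h1 | h1
    · right; exact h1
    · left; rw [h1, hd]

/-- the sign function of an odd component -/
theorem CaseC.sign (h : CaseC G l X) (d0 : (P ⊕ M) × Fin 3) (h0 : ¬ Isz (pos X d0)) :
    ∃ e : (P ⊕ M) × Fin 3 → ℤ, (∀ d, e d = 0 ∨ e d = 1 ∨ e d = -1) ∧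
      (∀ d, Isz (pos X d) → e d = 0) ∧
      (∀ v, e (v, 0) + e (v, 1) + e (v, 2) = 0) ∧
      (∀ d, d ≠ d0 → d ≠ t2 G d0 → e (t2 G d) = e d) ∧
      e d0 = -1 ∧ e (t2 G d0) = 1 ∧
      (∀ T : P ⊕ M → Prop, (∀ d, ¬ Isz (pos X d) → T d.1 → T (t2 G d).1) → T d0.1 → ∀ d, e d ≠ 0 → T d.1) ∧
      (∀ v k, ¬ Isz (pos X (v, k)) → (∃ k', e (v, k') ≠ 0) → e (v, k) ≠ 0) ∧
      Odd (Nat.card {d : (P ⊕ M) × Fin 3 // e d = 1}) := by
  classical
  choose τ hτ1 hτ2 hτ3 using h.exists_other
  have hinv : ∀ d, τ (τ d) = d := by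
    intro d
    rcases hτ3 (τ d) d (hτ2 d).symm with h1 | h1
    · exact absurd h1.symm (hτ1 d)
    · exact h1.symm
  have ht2 : ∀ d, t2' h (t2' h d) = d := fun d => Subtype.ext (t2_t2 G d.1)
  have ht2n : ∀ d, t2' h d ≠ d := fun d hd => h.t2_ne d.1 d.2 (congrArg Subtype.val hd)
  have hfib : ∀ {R : Type} [AddCommMonoid R] (f : DF X → R) (d : DF X),
      ∑ d' ∈ univ.filter (fun d' => nd X d' = nd X d), f d' = f d + f (τ d) := by
    intro R _ f d
    have : univ.filter (fun d' => nd X d' = nd X d) = {d, τ d} := by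
      ext d'
      simp only [mem_filter, mem_univ, true_and, mem_insert, mem_singleton]
      constructor
      · exact hτ3 d d'
      · rintro (rfl | rfl)
        · rfl
        · exact hτ2 d
    rw [this, Finset.sum_pair (hτ1 d).symm]
  obtain ⟨e, he1, he2, he3, he4, he5, he6, he7⟩ := orbit τ (t2' h) ⟨d0, h0⟩ hinv ht2 hτ1 ht2n (by
    intro f hf1 hf2 d
    have key := h.hno (fun d => (f d : ℚ)) (fun d => by rw [hf2 d]) ?_ d
    · exact_mod_cast key
    · rintro ⟨v, k, hk⟩
      rw [← fib_sum]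
      have := hfib (fun d => (f d : ℚ)) ⟨(v, k), hk⟩
      simp only [nd] at this
      rw [show (univ.filter (fun d => nd X d = ⟨v, k, hk⟩)) = univ.filter (fun d => nd X d = nd X ⟨(v,k), hk⟩) from rfl]
      rw [hfib (fun d => (f d : ℚ)) ⟨(v, k), hk⟩, hf1]
      push_cast
      ring)
  refine ⟨ext X e, ?_, fun d hd => ext_not X e d hd, ?_, ?_, ?_, ?_, ?_, ?_, ?_⟩
  · intro d
    by_cases hd : Isz (pos X d)
    · left; exact ext_not X e d hd
    · rw [ext_of X e d hd]; exact he1 _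
  · intro v
    by_cases hv : ∃ k, ¬ Isz (pos X (v, k))
    · obtain ⟨k, hk⟩ := hv
      have := fib_sum X e ⟨v, k, hk⟩
      simp only at this
      rw [← this, show (univ.filter (fun d => nd X d = ⟨v, k, hk⟩)) = univ.filter (fun d => nd X d = nd X ⟨(v,k), hk⟩) from rfl,
        hfib e, he2]
      ring
    · push Not at hv
      rw [ext_not X e _ (hv 0), ext_not X e _ (hv 1), ext_not X e _ (hv 2)]
      simp
  · intro d hd1 hd2
    by_cases hd : Isz (pos X d)
    · rw [ext_not X e d hd, ext_not X e _ (by rw [pos_t2 h.val.toLin]; exact hd)]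
    · rw [ext_of X e d hd, ext_of X e _ (by rw [pos_t2 h.val.toLin]; exact hd)]
      apply he3 ⟨d, hd⟩
      · intro hc; exact hd1 (congrArg Subtype.val hc)
      · intro hc; exact hd2 (congrArg Subtype.val hc)
  · rw [ext_of X e d0 h0]; exact he4
  · rw [ext_of X e _ (by rw [pos_t2 h.val.toLin]; exact h0)]; exact he5
  · intro T hT hT0 d hd
    have hdf : ¬ Isz (pos X d) := fun hc => hd (ext_not X e d hc)
    rw [ext_of X e d hdf] at hd
    apply he6 (fun d => T d.1.1) _ _ hT0 ⟨d, hdf⟩ hd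
    · intro d' h'
      have := congrArg Subtype.val (hτ2 d')
      simp only [nd] at this
      rw [this]; exact h'
    · intro d' h'
      exact hT d'.1 d'.2 h'
  · intro v k hk ⟨k', hk'⟩
    have hkf : ¬ Isz (pos X (v, k')) := fun hc => hk' (ext_not X e _ hc)
    rw [ext_of X e _ hkf] at hk'
    rw [ext_of X e _ hk]
    rcases hτ3 ⟨(v, k'), hkf⟩ ⟨(v, k), hk⟩ rfl with h1 | h1
    · rw [h1]; exact hk'
    · rw [h1, he2]; simpa using hk'
  · have : Nat.card {d : (P ⊕ M) × Fin 3 // ext X e d = 1} = (univ.filter (fun d => e d = 1)).card := by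
      rw [Nat.card_eq_fintype_card, Fintype.card_subtype]
      symm
      apply Finset.card_bij (fun d _ => d.1)
      · intro d hd
        simp only [mem_filter, mem_univ, true_and] at hd ⊢
        rw [ext_of X e d.1 d.2]; exact hd
      · intro a _ b _ hab; exact Subtype.ext hab
      · intro b hb
        simp only [mem_filter, mem_univ, true_and] at hb
        have hbf : ¬ Isz (pos X b) := by
          intro hc
          rw [ext_not X e b hc] at hb
          norm_num at hb
        refine ⟨⟨b, hbf⟩, ?_, rfl⟩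
        rw [ext_of X e b hbf] at hb
        simp [hb]
    rw [this]
    exact he7

end frac

end Pool.Agent.NL
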