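import Mathlib
import Pool.Agent.NL.Dart

set_option autoImplicit false

namespace Pool.Agent.NL

open Finset

variable {n : ℕ} {P M : Type}

/-- half of an integral configuration -/
def hlf (A : Cfg ℤ n P M) : Cfg ℚ n P M where
  x := fun p k => (A.x p k : ℚ) / 2
  y := fun q k => (A.y q k : ℚ) / 2
  c := fun w j => (A.c w j : ℚ) / 2

lemma pos_half (A : Cfg ℤ n P M) (d : (P ⊕ M) × Fin 3) : pos (hlf A) d = ((pos A d : ℤ) : ℚ) / 2 := by
  obtain ⟨v | q, k⟩ := d <;> rfl

lemma Isz_half (a : ℤ) : Isz ((a : ℚ) / 2) ↔ Even a := by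
  constructor
  · rintro ⟨z, hz⟩
    refine ⟨z, ?_⟩
    have : (a : ℚ) = z + z := by linarith
    exact_mod_cast this
  · rintro ⟨z, rfl⟩
    exact ⟨z, by push_cast; ring⟩

lemma Isz_pos_half (A : Cfg ℤ n P M) (d : (P ⊕ M) × Fin 3) : Isz (pos (hlf A) d) ↔ Even (pos A d) := by
  rw [pos_half]; exact Isz_half _

lemma bd_half (l c : Fin 3 → Fin n → ℤ) (k i : Fin 3) (j : Fin n) :
    bd (fun i j => (l i j : ℚ)) (fun w j => (c w j : ℚ) / 2) k i j = ((bd (fun i j => 2 * l i j) c k i j : ℤ) : ℚ) / 2 := by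
  unfold bd
  split_ifs
  · push_cast; ring
  · rfl

lemma val_half {G : Cmb n P M} {l : Fin 3 → Fin n → ℤ} {A : Cfg ℤ n P M} :
    Val G (fun i j => (l i j : ℚ)) (hlf A) ↔ Val G (fun i j => 2 * l i j) A := by
  constructor
  · intro h
    refine ⟨⟨?_, ?_, ?_, ?_⟩, ?_, ?_⟩
    · intro p
      have := h.sx p
      simp only [hlf] at this
      have : ((A.x p 0 + A.x p 1 + A.x p 2 : ℤ) : ℚ) = 0 := by push_cast; linarith
      exact_mod_cast this
    · intro p
      have := h.sy p
      simp only [hlf] at this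
      have : ((A.y p 0 + A.y p 1 + A.y p 2 : ℤ) : ℚ) = 0 := by push_cast; linarith
      exact_mod_cast this
    · intro k p q hs
      have := h.seg k p q hs
      simp only [hlf] at this
      have : (A.x p k : ℚ) = A.y q k := by linarith
      exact_mod_cast this
    · intro k p i j hs
      have := h.bv k p i j hs
      simp only [hlf] at this
      rw [bd_half] at this
      have : (A.x p k : ℚ) = bd (fun i j => 2 * l i j) A.c k i j := by linarith
      exact_mod_cast this
    · intro k p q hs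
      have := h.le k p q hs
      simp only [hlf] at this
      have : (A.x p (k+1) : ℚ) ≤ A.y q (k+1) := by linarith
      exact_mod_cast this
    · intro w j
      have := h.nn w j
      simp only [hlf] at this
      have : (0 : ℚ) ≤ A.c w j := by linarith
      exact_mod_cast this
  · intro h
    refine ⟨⟨?_, ?_, ?_, ?_⟩, ?_, ?_⟩
    · intro p
      have := h.sx p
      have : ((A.x p 0 + A.x p 1 + A.x p 2 : ℤ) : ℚ) = 0 := by rw [this]; simp
      push_cast at this
      simp only [hlf]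
      linarith
    · intro p
      have := h.sy p
      have : ((A.y p 0 + A.y p 1 + A.y p 2 : ℤ) : ℚ) = 0 := by rw [this]; simp
      push_cast at this
      simp only [hlf]
      linarith
    · intro k p q hs
      have := h.seg k p q hs
      simp only [hlf]
      rw [this]
    · intro k p i j hs
      have := h.bv k p i j hs
      simp only [hlf]
      rw [bd_half, this]
    · intro k p q hs
      have := h.le k p q hs
      have : (A.x p (k+1) : ℚ) ≤ A.y q (k+1) := by exact_mod_cast this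
      simp only [hlf]
      linarith
    · intro w j
      have := h.nn w j
      have : (0 : ℚ) ≤ A.c w j := by exact_mod_cast this
      simp only [hlf]
      linarith

/-- boundary sums -/
lemma Lin.bsum [Fintype P] [Fintype M] {R : Type} [CommRing R] {G : Cmb n P M} {l : Fin 3 → Fin n → R}
    {X : Cfg R n P M} (h : Lin G l X) (i : Fin 3) :
    ∑ j, X.c (gg 0 i) j + ∑ j, X.c (gg 1 i) j = ∑ j, l i j := by
  have key : ∀ k, ∑ p, (if G.lp p = i then X.x p k else 0) =
      ∑ q, (if G.lm q = i then X.y q k else 0) + ∑ j, bd l X.c k i j := by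
    intro k
    rw [← Equiv.sum_comp (G.s k).symm, Fintype.sum_sum_type]
    congr 1
    · apply Finset.sum_congr rfl
      intro q _
      rw [G.lab k _ q (by simp), h.seg k _ q (by simp)]
    · rw [Fintype.sum_prod_type, Finset.sum_eq_single i]
      · apply Finset.sum_congr rfl
        intro j _
        rw [G.labb k _ i j (by simp), if_pos rfl, h.bv k _ i j (by simp)]
      · intro i' _ hi'
        apply Finset.sum_eq_zero
        intro j _
        rw [G.labb k _ i' j (by simp), if_neg hi']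
      · simp
  have k0 := key 0
  have k1 := key 1
  have k2 := key 2
  have s1 : ∑ p, (if G.lp p = i then X.x p 0 else 0) + ∑ p, (if G.lp p = i then X.x p 1 else 0) +
      ∑ p, (if G.lp p = i then X.x p 2 else 0) = 0 := by
    rw [← Finset.sum_add_distrib, ← Finset.sum_add_distrib]
    apply Finset.sum_eq_zero
    intro p _
    split_ifs
    · exact h.sx p
    · simp
  have s2 : ∑ p, (if G.lm p = i then X.y p 0 else 0) + ∑ p, (if G.lm p = i then X.y p 1 else 0) +
      ∑ p, (if G.lm p = i then X.y p 2 else 0) = 0 := by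
    rw [← Finset.sum_add_distrib, ← Finset.sum_add_distrib]
    apply Finset.sum_eq_zero
    intro p _
    split_ifs
    · exact h.sy p
    · simp
  have e0 : ∑ j, bd l X.c 0 i j = ∑ j, X.c (gg 0 i) j := by
    apply Finset.sum_congr rfl; intro j _; exact bd_ne _ _ _ _ _ (by decide)
  have e1 : ∑ j, bd l X.c 1 i j = ∑ j, X.c (gg 1 i) j := by
    apply Finset.sum_congr rfl; intro j _; exact bd_ne _ _ _ _ _ (by decide)
  have e2 : ∑ j, bd l X.c 2 i j = - ∑ j, l i j := by
    rw [← Finset.sum_neg_distrib]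
    apply Finset.sum_congr rfl; intro j _; simp [bd]
  rw [e0] at k0
  rw [e1] at k1
  rw [e2] at k2
  rw [k0, k1, k2] at s1
  linear_combination s1 - s2

/-- doubled system -/
def toD (G : Cmb n P M) (l : Fin 3 → Fin n → ℤ) (A : Cfg ℤ n P M) (h : Val G (fun i j => 2 * l i j) A) :
    DSys n P M where
  lp := G.lp
  lm := G.lm
  s := G.s
  X := A.x
  Y := A.y
  c := A.c
  sx := h.sx
  sy := h.sy
  lab := fun k q => G.lab k _ q (by simp)
  eqk := fun k q => h.seg k _ q (by simp)
  lek := fun k q => h.le k _ q (by simp)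
  labb := fun k i j => G.labb k _ i j (by simp)
  bz := fun i j => by
    rw [h.bv 2 _ i j (by simp)]
    exact ⟨- l i j, by simp [bd]; ring⟩
  bv := fun k i j hk => by
    rw [h.bv k _ i j (by simp), bd_ne _ _ _ _ _ hk]

variable [Fintype P] [Fintype M]

/-- in case C the configuration is half of an integral one -/
lemma CaseC.exists_half {G : Cmb n P M} {l : Fin 3 → Fin n → ℤ} {X : Cfg ℚ n P M} (h : CaseC G l X) :
    ∃ A : Cfg ℤ n P M, X = hlf A := by
  have key : ∀ d, ∃ z : ℤ, pos X d = (z : ℚ) / 2 := by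
    intro d
    by_cases hd : Isz (pos X d)
    · obtain ⟨z, hz⟩ := hd
      exact ⟨2 * z, by rw [hz]; push_cast; ring⟩
    · have := h.half d hd
      refine ⟨2 * ⌊pos X d⌋ + 1, ?_⟩
      have h2 := Int.floor_add_fract (pos X d)
      push_cast
      linarith
  choose f hf using key
  refine ⟨⟨fun p k => f (Sum.inl p, k), fun q k => f (Sum.inr q, k), fun w j => f (sd G (rep w) j)⟩, ?_⟩
  have hx : X.x = fun p k => (f (Sum.inl p, k) : ℚ) / 2 := by
    funext p k
    exact hf (Sum.inl p, k)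
  have hy : X.y = fun q k => (f (Sum.inr q, k) : ℚ) / 2 := by
    funext p k
    exact hf (Sum.inr p, k)
  have hc : X.c = fun w j => (f (sd G (rep w) j) : ℚ) / 2 := by
    funext w j
    rw [← hf]
    have h1 := rep_spec w
    have h2 := h.val.bv (rep w).1 ((G.s (rep w).1).symm (Sum.inr ((rep w).2, j))) (rep w).2 j (by simp)
    rw [bd_ne _ _ _ _ _ h1.1, h1.2] at h2
    exact h2.symm
  obtain ⟨Xx, Xy, Xc⟩ := X
  simp only at hx hy hc
  subst hx hy hc
  rfl

/-! ### the colouring -/

section colour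

variable {G : Cmb n P M} {l : Fin 3 → Fin n → ℤ} {A : Cfg ℤ n P M}

/-- squares of the sign function are invariant under the strand involution -/
lemma sq_inv (e : (P ⊕ M) × Fin 3 → ℤ) (d0 : (P ⊕ M) × Fin 3)
    (he3 : ∀ d, d ≠ d0 → d ≠ t2 G d0 → e (t2 G d) = e d) (he4 : e d0 = -1) (he5 : e (t2 G d0) = 1)
    (d : (P ⊕ M) × Fin 3) : (e (t2 G d))^2 = (e d)^2 := by
  by_cases h1 : d = d0
  · rw [h1, he4, he5]; norm_num
  · by_cases h2 : d = t2 G d0
    · rw [h2, t2_t2, he4, he5]; norm_num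
    · rw [he3 d h1 h2]

/-- parity of the number of boundary strands of an odd component -/
lemma parity (e : (P ⊕ M) × Fin 3 → ℤ) (he0 : ∀ d, e d = 0 ∨ e d = 1 ∨ e d = -1)
    (he1 : ∀ v, e (v, 0) + e (v, 1) + e (v, 2) = 0)
    (hsq : ∀ d, (e (t2 G d))^2 = (e d)^2) (hz : ∀ i j, e (sd G (2, i) j) = 0)
    (hodd : Odd (Nat.card {d : (P ⊕ M) × Fin 3 // e d = 1})) :
    Odd (∑ w, ∑ j, (e (sd G (rep w) j))^2) := by
  classical
  have hcard : (Nat.card {d : (P ⊕ M) × Fin 3 // e d = 1} : ℤ) =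
      ∑ v : P ⊕ M, ((if e (v, 0) = 1 then 1 else 0) + (if e (v, 1) = 1 then 1 else 0) + (if e (v, 2) = 1 then 1 else 0)) := by
    rw [Nat.card_eq_fintype_card, Fintype.card_subtype, Finset.card_filter]
    push_cast
    rw [Fintype.sum_prod_type]
    apply Finset.sum_congr rfl
    intro v _
    rw [Fin.sum_univ_three]
  have hv : ∀ v : P ⊕ M, (e (v, 0))^2 + (e (v, 1))^2 + (e (v, 2))^2 =
      2 * ((if e (v, 0) = 1 then 1 else 0) + (if e (v, 1) = 1 then 1 else 0) + (if e (v, 2) = 1 then 1 else 0)) := by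
    intro v
    have h1 := he1 v
    rcases he0 (v, 0) with h | h | h <;> rcases he0 (v, 1) with h' | h' | h' <;>
      rcases he0 (v, 2) with h'' | h'' | h'' <;> rw [h, h', h''] at h1 <;> rw [h, h', h''] <;> simp at h1 <;>
      norm_num
  have hk : ∀ k, ∑ p, (e (Sum.inl p, k))^2 = ∑ q, (e (Sum.inr q, k))^2 + ∑ i, ∑ j, (e (sd G (k, i) j))^2 := by
    intro k
    rw [← Equiv.sum_comp (G.s k).symm, Fintype.sum_sum_type, Fintype.sum_prod_type]
    congr 1
    apply Finset.sum_congr rfl
    intro q _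
    rw [← t2_inr, hsq]
  have k0 := hk 0
  have k1 := hk 1
  have k2 := hk 2
  have z2 : ∑ i, ∑ j, (e (sd G (2, i) j))^2 = 0 := by
    apply Finset.sum_eq_zero; intro i _
    apply Finset.sum_eq_zero; intro j _
    rw [hz]; norm_num
  rw [z2] at k2
  rw [Fin.sum_univ_three] at k0 k1
  have q1 : ∀ j, (e (sd G (0, 1) j))^2 = (e (sd G (0, 0) j))^2 := by
    intro j
    rw [← hsq (sd G (0, 0) j), t2_sd]; rfl
  have q2 : ∀ j, (e (sd G (0, 2) j))^2 = (e (sd G (1, 0) j))^2 := by
    intro j
    rw [← hsq (sd G (1, 0) j), t2_sd]; rfl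
  have q3 : ∀ j, (e (sd G (1, 2) j))^2 = (e (sd G (1, 1) j))^2 := by
    intro j
    rw [← hsq (sd G (1, 1) j), t2_sd]; rfl
  simp only [q1, q2] at k0
  simp only [q3] at k1
  have hR : ∑ w, ∑ j, (e (sd G (rep w) j))^2 = ∑ j, (e (sd G (0, 0) j))^2 + ∑ j, (e (sd G (1, 0) j))^2 +
      ∑ j, (e (sd G (1, 1) j))^2 := by
    rw [Fin.sum_univ_three]; rfl
  rw [hR]
  have hodd' : Odd ((Nat.card {d : (P ⊕ M) × Fin 3 // e d = 1} : ℕ) : ℤ) := by exact_mod_cast hodd
  rw [hcard, Fintype.sum_sum_type] at hodd'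
  have hp : 2 * ∑ p : P, ((if e (Sum.inl p, 0) = 1 then (1:ℤ) else 0) + (if e (Sum.inl p, 1) = 1 then 1 else 0) +
      (if e (Sum.inl p, 2) = 1 then 1 else 0)) = ∑ p, (e (Sum.inl p, 0))^2 + ∑ p, (e (Sum.inl p, 1))^2 +
        ∑ p, (e (Sum.inl p, 2))^2 := by
    rw [Finset.mul_sum, ← Finset.sum_add_distrib, ← Finset.sum_add_distrib]
    apply Finset.sum_congr rfl
    intro p _
    rw [hv (Sum.inl p)]
  have hq : 2 * ∑ p : M, ((if e (Sum.inr p, 0) = 1 then (1:ℤ) else 0) + (if e (Sum.inr p, 1) = 1 then 1 else 0) +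
      (if e (Sum.inr p, 2) = 1 then 1 else 0)) = ∑ p, (e (Sum.inr p, 0))^2 + ∑ p, (e (Sum.inr p, 1))^2 +
        ∑ p, (e (Sum.inr p, 2))^2 := by
    rw [Finset.mul_sum, ← Finset.sum_add_distrib, ← Finset.sum_add_distrib]
    apply Finset.sum_congr rfl
    intro p _
    rw [hv (Sum.inr p)]
  rw [k0, k1, k2] at hp
  generalize ∑ p : P, ((if e (Sum.inl p, 0) = 1 then (1:ℤ) else 0) + (if e (Sum.inl p, 1) = 1 then 1 else 0) +
      (if e (Sum.inl p, 2) = 1 then 1 else 0)) = u at *
  generalize ∑ p : M, ((if e (Sum.inr p, 0) = 1 then (1:ℤ) else 0) + (if e (Sum.inr p, 1) = 1 then 1 else 0) +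
      (if e (Sum.inr p, 2) = 1 then 1 else 0)) = v at *
  rw [Int.odd_iff] at hodd' ⊢
  omega

end colour

end Pool.Agent.NL
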