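import Mathlib

set_option autoImplicit false

namespace Pool.Agent.NL

open Finset

/-- the lift of a position vector -/
def lft (w : Fin 3 → ℤ) : Fin 3 → ℤ := ![- w 1, w 0, 0]

/-- tropical linear form -/
def mx (P w : Fin 3 → ℤ) : ℤ :=
  max (P 0 - lft w 0) (max (P 1 - lft w 1) (P 2 - lft w 2))

/-- a network with one label, integral positions -/
structure Net (n : ℕ) (A B : Type) where
  s : Fin 3 → A ≃ B ⊕ Fin n
  x : A → Fin 3 → ℤ
  y : B → Fin 3 → ℤ
  sx : ∀ a, x a 0 + x a 1 + x a 2 = 0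
  sy : ∀ b, y b 0 + y b 1 + y b 2 = 0
  seg : ∀ k b, x ((s k).symm (Sum.inl b)) k = y b k ∧
    x ((s k).symm (Sum.inl b)) (k + 1) ≤ y b (k + 1)

/-- unit vector -/
def E (k : Fin 3) : Fin 3 → ℤ := Pi.single k 1

lemma mx_local (P w : Fin 3 → ℤ) (hw : w 0 + w 1 + w 2 = 0) (k : Fin 3) :
    mx (P + E (k+1)) w + mx (P + E (k+2)) w - mx P w - mx (P + E (k+1) + E (k+2)) w
      = if w k = P (k+1) - P (k+2) ∧ w (k+1) ≤ P (k+2) - P k then 1 else 0 := by
  fin_cases k <;> simp [mx, lft, E] <;> split_ifs <;> omega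

/-- second coordinate form of `mx` -/
def md (k : Fin 3) (P w : Fin 3 → ℤ) : ℤ :=
  P (k+2) - lft w (k+2) + max (P (k+1) - P (k+2) - w k) 0

/-- the excess -/
def ex (k : Fin 3) (P w : Fin 3 → ℤ) : ℤ :=
  max 0 (min (P k - P (k+1) - w (k+2)) (P k - P (k+2) + w (k+1)))

lemma mx_md (P w : Fin 3 → ℤ) (hw : w 0 + w 1 + w 2 = 0) (k : Fin 3) :
    mx P w = md k P w + ex k P w := by
  fin_cases k <;> simp [mx, md, ex, lft] <;> omega

lemma ex_nonneg (k : Fin 3) (P w : Fin 3 → ℤ) : 0 ≤ ex k P w := le_max_left _ _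

variable {n : ℕ} {A B : Type} [Fintype A] [Fintype B]

namespace Net

/-- boundary values -/
def bv (N : Net n A B) (k : Fin 3) (j : Fin n) : ℤ := N.x ((N.s k).symm (Sum.inr j)) k

def F (N : Net n A B) (P : Fin 3 → ℤ) : ℤ := ∑ a, mx P (N.x a) - ∑ b, mx P (N.y b)

lemma sum_split (N : Net n A B) (k : Fin 3) (g : A → ℤ) :
    ∑ a, g a = ∑ b, g ((N.s k).symm (Sum.inl b)) + ∑ j, g ((N.s k).symm (Sum.inr j)) := by
  rw [← Equiv.sum_comp (N.s k).symm g, Fintype.sum_sum_type]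

lemma sum_le (N : Net n A B) (k : Fin 3) (g : (Fin 3 → ℤ) → ℤ) (h0 : ∀ w, 0 ≤ g w)
    (h : ∀ b, g (N.y b) ≤ g (N.x ((N.s k).symm (Sum.inl b)))) :
    ∑ b, g (N.y b) ≤ ∑ a, g (N.x a) := by
  rw [N.sum_split k (fun a => g (N.x a))]
  have h1 := Finset.sum_le_sum (fun b (_ : b ∈ Finset.univ) => h b)
  have h2 : 0 ≤ ∑ j, g (N.x ((N.s k).symm (Sum.inr j))) := Finset.sum_nonneg (fun j _ => h0 _)
  linarith

lemma card_eq (N : Net n A B) : (Fintype.card A : ℤ) = Fintype.card B + n := by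
  have := Fintype.card_congr (N.s 0)
  simp at this
  exact_mod_cast this

lemma F_local (N : Net n A B) (P : Fin 3 → ℤ) (k : Fin 3) :
    N.F P + N.F (P + E (k+1) + E (k+2)) ≤ N.F (P + E (k+1)) + N.F (P + E (k+2)) := by
  have key := N.sum_le k
    (fun w => if w k = P (k+1) - P (k+2) ∧ w (k+1) ≤ P (k+2) - P k then 1 else 0)
    (fun w => by split_ifs <;> simp) (fun b => by
      obtain ⟨h1, h2⟩ := N.seg k b
      split_ifs <;> omega)
  have ha : ∀ a, (if N.x a k = P (k+1) - P (k+2) ∧ N.x a (k+1) ≤ P (k+2) - P k then (1:ℤ) else 0)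
     = mx (P + E (k+1)) (N.x a) + mx (P + E (k+2)) (N.x a) - mx P (N.x a)
        - mx (P + E (k+1) + E (k+2)) (N.x a) := fun a => (mx_local P _ (N.sx a) k).symm
  have hb : ∀ b, (if N.y b k = P (k+1) - P (k+2) ∧ N.y b (k+1) ≤ P (k+2) - P k then (1:ℤ) else 0)
     = mx (P + E (k+1)) (N.y b) + mx (P + E (k+2)) (N.y b) - mx P (N.y b)
        - mx (P + E (k+1) + E (k+2)) (N.y b) := fun b => (mx_local P _ (N.sy b) k).symm
  simp only [ha, hb, Finset.sum_add_distrib, Finset.sum_sub_distrib] at key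
  unfold F
  linarith

lemma F_line (N : Net n A B) (P : Fin 3 → ℤ) (k : Fin 3) (t : ℕ) :
    N.F P + N.F (P + E (k+1) + t • E (k+2)) ≤ N.F (P + E (k+1)) + N.F (P + t • E (k+2)) := by
  induction t with
  | zero => simp; linarith
  | succ t ih =>
    have h := N.F_local (P + t • E (k+2)) k
    have e1 : P + t • E (k+2) + E (k+1) + E (k+2) = P + E (k+1) + (t+1) • E (k+2) := by
      rw [succ_nsmul]; abel
    have e2 : P + t • E (k+2) + E (k+1) = P + E (k+1) + t • E (k+2) := by abel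
    have e3 : P + t • E (k+2) + E (k+2) = P + (t+1) • E (k+2) := by rw [succ_nsmul]; abel
    rw [e1, e2, e3] at h
    linarith

lemma F_rect (N : Net n A B) (P : Fin 3 → ℤ) (k : Fin 3) (s t : ℕ) :
    N.F P + N.F (P + s • E (k+1) + t • E (k+2)) ≤ N.F (P + s • E (k+1)) + N.F (P + t • E (k+2)) := by
  induction s with
  | zero => simp
  | succ s ih =>
    have h := N.F_line (P + s • E (k+1)) k t
    have e1 : P + s • E (k+1) + E (k+1) = P + (s+1) • E (k+1) := by rw [succ_nsmul]; abel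
    rw [e1] at h
    linarith

lemma F_sub (N : Net n A B) (a b : Fin 3 → ℤ) (k : Fin 3) (h : a k = b k) :
    N.F (a ⊓ b) + N.F (a ⊔ b) ≤ N.F a + N.F b := by
  have hcase : (a ≤ b ∨ b ≤ a) ∨ (b (k+1) ≤ a (k+1) ∧ a (k+2) ≤ b (k+2)) ∨
     (a (k+1) ≤ b (k+1) ∧ b (k+2) ≤ a (k+2)) := by
    have e : ∀ u v : Fin 3 → ℤ, u k = v k → u (k+1) ≤ v (k+1) → u (k+2) ≤ v (k+2) → u ≤ v := by
      intro u v h0 h1 h2 i
      fin_cases k <;> fin_cases i <;> simp at * <;> omega
    rcases le_total (a (k+1)) (b (k+1)) with h1 | h1 <;> rcases le_total (a (k+2)) (b (k+2)) with h2 | h2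
    · exact Or.inl (Or.inl (e a b h h1 h2))
    · exact Or.inr (Or.inr ⟨h1, h2⟩)
    · exact Or.inr (Or.inl ⟨h1, h2⟩)
    · exact Or.inl (Or.inr (e b a h.symm h1 h2))
  have main : ∀ a b : Fin 3 → ℤ, a k = b k → (b (k+1) ≤ a (k+1) ∧ a (k+2) ≤ b (k+2)) →
      N.F (a ⊓ b) + N.F (a ⊔ b) ≤ N.F a + N.F b := by
    intro a b h ⟨h1, h2⟩
    have hr := N.F_rect (a ⊓ b) k (a (k+1) - b (k+1)).toNat (b (k+2) - a (k+2)).toNat
    have e1 : a ⊓ b + (a (k+1) - b (k+1)).toNat • E (k+1) = a := by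
      ext i
      fin_cases k <;> fin_cases i <;> simp [E] at * <;> omega
    have e2 : a ⊓ b + (b (k+2) - a (k+2)).toNat • E (k+2) = b := by
      ext i
      fin_cases k <;> fin_cases i <;> simp [E] at * <;> omega
    have e3 : a + (b (k+2) - a (k+2)).toNat • E (k+2) = a ⊔ b := by
      ext i
      fin_cases k <;> fin_cases i <;> simp [E] at * <;> omega
    rw [e1, e2, e3] at hr
    exact hr
  rcases hcase with (h1 | h1) | h1 | h1
  · rw [inf_eq_left.2 h1, sup_eq_right.2 h1]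
  · rw [inf_eq_right.2 h1, sup_eq_left.2 h1]; linarith
  · exact main a b h h1
  · have := main b a h.symm h1
    rw [inf_comm, sup_comm] at this
    linarith

lemma F_shift (N : Net n A B) (P : Fin 3 → ℤ) (c : ℤ) : N.F (fun i => P i + c) = N.F P + n * c := by
  have h : ∀ w, mx (fun i => P i + c) w = mx P w + c := by
    intro w; simp [mx]; omega
  unfold F
  simp only [h, Finset.sum_add_distrib, Finset.sum_const, Finset.card_univ, nsmul_eq_mul]
  rw [N.card_eq]
  ring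

/-- constants -/
def U (N : Net n A B) (k : Fin 3) : ℤ := ∑ a, lft (N.x a) k - ∑ b, lft (N.y b) k

/-- edge functions -/
def G (N : Net n A B) (k : Fin 3) (P : Fin 3 → ℤ) : ℤ :=
  n * P (k+2) - N.U (k+2) + ∑ j, max (P (k+1) - P (k+2) - N.bv k j) 0

lemma sum_md (N : Net n A B) (k : Fin 3) (P : Fin 3 → ℤ) :
    ∑ a, md k P (N.x a) - ∑ b, md k P (N.y b) = N.G k P := by
  unfold md G U bv
  simp only [Finset.sum_add_distrib, Finset.sum_sub_distrib, Finset.sum_const, Finset.card_univ,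
    nsmul_eq_mul]
  rw [N.card_eq, N.sum_split k (fun a => max (P (k+1) - P (k+2) - N.x a k) 0)]
  have : ∀ b, N.x ((N.s k).symm (Sum.inl b)) k = N.y b k := fun b => (N.seg k b).1
  simp only [this]
  ring

lemma F_eq (N : Net n A B) (k : Fin 3) (P : Fin 3 → ℤ) :
    N.F P = N.G k P + (∑ a, ex k P (N.x a) - ∑ b, ex k P (N.y b)) := by
  rw [← N.sum_md]
  unfold F
  rw [Finset.sum_congr rfl (fun a _ => mx_md P (N.x a) (N.sx a) k),
    Finset.sum_congr rfl (fun b _ => mx_md P (N.y b) (N.sy b) k)]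
  simp only [Finset.sum_add_distrib]
  ring

lemma G_le (N : Net n A B) (k : Fin 3) (P : Fin 3 → ℤ) : N.G k P ≤ N.F P := by
  rw [N.F_eq k]
  have := N.sum_le (k+2) (fun w => ex k P w) (fun w => ex_nonneg _ _ _) (fun b => by
    have h1 := N.seg (k+2) b
    have h2 := N.sx ((N.s (k+2)).symm (Sum.inl b))
    have h3 := N.sy b
    generalize N.x ((N.s (k+2)).symm (Sum.inl b)) = w at *
    generalize N.y b = w' at *
    fin_cases k <;> simp [ex] at * <;> omega)
  linarith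

lemma exists_G_eq (N : Net n A B) (k : Fin 3) (p q : ℤ) :
    ∃ P : Fin 3 → ℤ, P (k+1) = p ∧ P (k+2) = q ∧ N.F P = N.G k P := by
  obtain ⟨m1, hm1⟩ := (Set.finite_range (fun a => min (p + N.x a (k+2)) (q - N.x a (k+1)))).bddBelow
  obtain ⟨m2, hm2⟩ := (Set.finite_range (fun b => min (p + N.y b (k+2)) (q - N.y b (k+1)))).bddBelow
  refine ⟨fun i => if i = k then min m1 m2 else if i = k + 1 then p else q, ?_, ?_, ?_⟩
  · fin_cases k <;> simp
  · fin_cases k <;> simp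
  · rw [N.F_eq k]
    have h1 : ∀ a, ex k (fun i => if i = k then min m1 m2 else if i = k + 1 then p else q) (N.x a) = 0 := by
      intro a
      have := hm1 ⟨a, rfl⟩
      simp only at this
      fin_cases k <;> simp [ex] at * <;> omega
    have h2 : ∀ b, ex k (fun i => if i = k then min m1 m2 else if i = k + 1 then p else q) (N.y b) = 0 := by
      intro a
      have := hm2 ⟨a, rfl⟩
      simp only at this
      fin_cases k <;> simp [ex] at * <;> omega
    simp [h1, h2]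

/-- pairing -/
def dot (v P : Fin 3 → ℤ) : ℤ := v 0 * P 0 + v 1 * P 1 + v 2 * P 2

lemma F_lower (N : Net n A B) (k : Fin 3) (P : Fin 3 → ℤ) : n * P k - N.U k ≤ N.F P := by
  have h := N.G_le (k+1) P
  have e : k + 1 + 2 = k := by fin_cases k <;> rfl
  unfold G at h
  rw [e] at h
  have h2 : 0 ≤ ∑ j, max (P (k+1+1) - P k - N.bv (k+1) j) 0 :=
    Finset.sum_nonneg (fun j _ => le_max_right _ _)
  linarith

def Good (n : ℕ) (v : Fin 3 → ℤ) : Prop := (∀ k, 0 ≤ v k) ∧ v 0 + v 1 + v 2 = n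

noncomputable def h (N : Net n A B) (v : Fin 3 → ℤ) : ℤ :=
  sInf (Set.range fun P => N.F P - dot v P)

lemma dot_le (v P : Fin 3 → ℤ) (hv : Good n v) (k : Fin 3) (hk : ∀ j, P j ≤ P k) :
    dot v P ≤ n * P k := by
  obtain ⟨h0, h1⟩ := hv
  rw [← h1]
  unfold dot
  have a0 := mul_le_mul_of_nonneg_left (hk 0) (h0 0)
  have a1 := mul_le_mul_of_nonneg_left (hk 1) (h0 1)
  have a2 := mul_le_mul_of_nonneg_left (hk 2) (h0 2)
  linarith

lemma bdd (N : Net n A B) (v : Fin 3 → ℤ) (hv : Good n v) :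
    BddBelow (Set.range fun P => N.F P - dot v P) := by
  refine ⟨-(|N.U 0| + |N.U 1| + |N.U 2|), ?_⟩
  rintro _ ⟨P, rfl⟩
  obtain ⟨k, hk⟩ : ∃ k, ∀ j, P j ≤ P k := by
    obtain ⟨k, _, hk⟩ := Finset.exists_max_image (Finset.univ : Finset (Fin 3)) P ⟨0, by simp⟩
    exact ⟨k, fun j => hk j (by simp)⟩
  have h1 := dot_le v P hv k hk
  have h2 := N.F_lower k P
  have h3 : N.U k ≤ |N.U 0| + |N.U 1| + |N.U 2| := by
    have b0 := abs_nonneg (N.U 0)
    have b1 := abs_nonneg (N.U 1)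
    have b2 := abs_nonneg (N.U 2)
    have c := le_abs_self (N.U k)
    fin_cases k <;> simp at c ⊢ <;> linarith
  simp only
  linarith

lemma h_le (N : Net n A B) (v P : Fin 3 → ℤ) (hv : Good n v) : N.h v ≤ N.F P - dot v P :=
  csInf_le (N.bdd v hv) ⟨P, rfl⟩

lemma h_mem (N : Net n A B) (v : Fin 3 → ℤ) (hv : Good n v) : ∃ P, N.h v = N.F P - dot v P := by
  obtain ⟨P, hP⟩ := Int.csInf_mem (Set.range_nonempty (fun P => N.F P - dot v P)) (N.bdd v hv)
  exact ⟨P, hP.symm⟩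

lemma rhombus (N : Net n A B) (w : Fin 3 → ℤ) (k : Fin 3) (hw : ∀ j, 0 ≤ w j)
    (hs : w 0 + w 1 + w 2 + 2 = n) :
    N.h (w + E k + E k) + N.h (w + E (k+1) + E (k+2)) ≤
      N.h (w + E k + E (k+1)) + N.h (w + E k + E (k+2)) := by
  have hgood : ∀ i j : Fin 3, Good n (w + E i + E j) := by
    intro i j
    refine ⟨fun m => ?_, ?_⟩
    · have := hw m
      have e1 : 0 ≤ E i m := by unfold E; rw [Pi.single_apply]; split_ifs <;> simp
      have e2 : 0 ≤ E j m := by unfold E; rw [Pi.single_apply]; split_ifs <;> simp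
      simp only [Pi.add_apply]; omega
    · fin_cases i <;> fin_cases j <;> simp [E] <;> omega
  obtain ⟨a, ha⟩ := N.h_mem _ (hgood k (k+1))
  obtain ⟨b, hb⟩ := N.h_mem _ (hgood k (k+2))
  set b' : Fin 3 → ℤ := fun i => b i + (a k - b k) with hb'
  have hF := N.F_shift b (a k - b k)
  rw [← hb'] at hF
  have hd : dot (w + E k + E (k+2)) b' = dot (w + E k + E (k+2)) b + n * (a k - b k) := by
    have := (hgood k (k+2)).2
    rw [← this, hb']
    simp only [dot]
    ring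
  have hsub := N.F_sub a b' k (by simp [hb'])
  have h1 := N.h_le _ (a ⊓ b') (hgood k k)
  have h2 := N.h_le _ (a ⊔ b') (hgood (k+1) (k+2))
  have key : dot (w + E k + E (k+1)) a + dot (w + E k + E (k+2)) b' ≤
      dot (w + E k + E k) (a ⊓ b') + dot (w + E (k+1) + E (k+2)) (a ⊔ b') := by
    have c1 : ∀ i, (a ⊓ b') i + (a ⊔ b') i = a i + b' i := by
      intro i; simp only [Pi.inf_apply, Pi.sup_apply]; omega
    have hk : (a ⊓ b') k = a k ∧ a k = b' k := by
      have : a k = b' k := by simp [hb']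
      refine ⟨?_, this⟩
      simp only [Pi.inf_apply]; omega
    have c2 : a (k+1) ≤ (a ⊔ b') (k+1) := by simp
    have c3 : b' (k+2) ≤ (a ⊔ b') (k+2) := by simp
    have e : dot (w + E k + E (k+1)) a + dot (w + E k + E (k+2)) b' =
       w 0 * (a 0 + b' 0) + w 1 * (a 1 + b' 1) + w 2 * (a 2 + b' 2) + a k + b' k + a (k+1) + b' (k+2) := by
      fin_cases k <;> simp [dot, E] <;> ring
    have e' : dot (w + E k + E k) (a ⊓ b') + dot (w + E (k+1) + E (k+2)) (a ⊔ b') =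
       w 0 * ((a ⊓ b') 0 + (a ⊔ b') 0) + w 1 * ((a ⊓ b') 1 + (a ⊔ b') 1) + w 2 * ((a ⊓ b') 2 + (a ⊔ b') 2)
        + 2 * (a ⊓ b') k + (a ⊔ b') (k+1) + (a ⊔ b') (k+2) := by
      generalize a ⊓ b' = u
      generalize a ⊔ b' = u'
      fin_cases k <;> simp [dot, E] <;> ring
    rw [e, e', c1, c1, c1]
    omega
  linarith

lemma h_edge (N : Net n A B) (k : Fin 3) (v : Fin 3 → ℤ) (hv : Good n v) (h0 : v k = 0)
    (J : Finset (Fin n)) (hJ : (J.card : ℤ) = v (k+1)) (D : ℤ)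
    (h1 : ∀ j ∈ J, N.bv k j ≤ D) (h2 : ∀ j ∉ J, D ≤ N.bv k j) :
    N.h v = - N.U (k+2) - ∑ j ∈ J, N.bv k j := by
  have hn : (n : ℤ) = v (k+1) + v (k+2) := by
    rw [← hv.2]
    fin_cases k <;> simp at * <;> omega
  have hdot : ∀ P : Fin 3 → ℤ, dot v P = v (k+1) * P (k+1) + v (k+2) * P (k+2) := by
    intro P
    fin_cases k <;> simp [dot] at * <;> simp [h0] <;> ring
  apply le_antisymm
  · obtain ⟨P, hP1, hP2, hP3⟩ := N.exists_G_eq k D 0
    have h := N.h_le v P hv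
    rw [hP3, hdot, hP1, hP2] at h
    unfold G at h
    rw [hP1, hP2] at h
    have hs : ∑ j, max (D - 0 - N.bv k j) 0 = v (k+1) * D - ∑ j ∈ J, N.bv k j := by
      have : ∀ j, max (D - 0 - N.bv k j) 0 = if j ∈ J then D - N.bv k j else 0 := by
        intro j
        split_ifs with hj
        · have := h1 j hj; omega
        · have := h2 j hj; omega
      simp only [this, Finset.sum_ite_mem, Finset.univ_inter, Finset.sum_sub_distrib, Finset.sum_const,
        nsmul_eq_mul, hJ]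
    rw [hs] at h
    linarith
  · obtain ⟨P, hP⟩ := N.h_mem v hv
    have h := N.G_le k P
    rw [hP, hdot]
    unfold G at h
    have hs : v (k+1) * (P (k+1) - P (k+2)) - ∑ j ∈ J, N.bv k j ≤
        ∑ j, max (P (k+1) - P (k+2) - N.bv k j) 0 := by
      calc v (k+1) * (P (k+1) - P (k+2)) - ∑ j ∈ J, N.bv k j
          = ∑ j ∈ J, (P (k+1) - P (k+2) - N.bv k j) := by
            simp only [Finset.sum_sub_distrib, Finset.sum_const, nsmul_eq_mul, hJ]; ring
        _ ≤ ∑ j ∈ J, max (P (k+1) - P (k+2) - N.bv k j) 0 :=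
            Finset.sum_le_sum (fun j _ => le_max_left _ _)
        _ ≤ _ := Finset.sum_le_univ_sum_of_nonneg (fun j => le_max_right _ _)
    rw [hn] at h
    have := hs
    nlinarith [hs, h]

end Net

end Pool.Agent.NL
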