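import Mathlib
import Pool.Agent.NL.Hive

set_option autoImplicit false

namespace Pool.Agent.NL

open Finset

/-- Littlewood-Richardson datum, as in the frozen statement -/
def LRd (n : ℕ) (l a b : ℕ → ℕ) (t : ℕ → ℕ → ℕ) : Prop :=
  (∀ i, i < n → a i + ∑ j ∈ Finset.range n, t i j = l i) ∧
  (∀ j, j < n → ∑ i ∈ Finset.range n, t i j = b j) ∧
  (∀ i j, i < j → t i j = 0) ∧
  (∀ i j, i + 1 < n → j < n →
    a (i + 1) + ∑ k ∈ Finset.range (j + 1), t (i + 1) k
      ≤ a i + ∑ k ∈ Finset.range j, t i k) ∧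
  (∀ i j, i < n → j + 1 < n →
    ∑ r ∈ Finset.range (i + 1), t r (j + 1) ≤ ∑ r ∈ Finset.range i, t r j)

theorem hive_to_t (n : ℕ) (H : ℕ → ℕ → ℤ) (a b l : ℕ → ℕ) (hl : Antitone l)
    (hA : ∀ i ≤ n, H i 0 = ∑ j ∈ range i, (a j : ℤ))
    (hB : ∀ j ≤ n, H n j = H n 0 + ∑ i ∈ range j, (b i : ℤ))
    (hL : ∀ i ≤ n, H i i = ∑ j ∈ range i, (l j : ℤ))
    (r1 : ∀ i j, j < i → i < n → H (i+1) j + H i (j+1) ≤ H (i+1) (j+1) + H i j)
    (r2 : ∀ i j, j ≤ i → i + 2 ≤ n → H i j + H (i+2) (j+1) ≤ H (i+1) j + H (i+1) (j+1))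
    (r3 : ∀ i j, j < i → i < n → H (i+1) (j+2) + H i j ≤ H i (j+1) + H (i+1) (j+1)) :
    ∃ t : ℕ → ℕ → ℕ, LRd n l a b t := by
  obtain ⟨tz, htz⟩ : ∃ tz : ℕ → ℕ → ℤ, tz = fun i j => if n ≤ i then 0 else
    if j < i then H (i+1) (j+1) - H i (j+1) - H (i+1) j + H i j else
    if j = i then H (i+1) (i+1) - H (i+1) i else 0 := ⟨_, rfl⟩
  have t0 : ∀ i j, i < j → tz i j = 0 := by
    intro i j h; rw [htz]; simp only
    rw [if_neg (by omega : ¬ j < i), if_neg (by omega : ¬ j = i)]; simp
  have t1 : ∀ i j, j < i → i < n → tz i j = H (i+1) (j+1) - H i (j+1) - H (i+1) j + H i j := by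
    intro i j h h'; rw [htz]; simp only
    rw [if_neg (by omega), if_pos h]
  have t2 : ∀ i, i < n → tz i i = H (i+1) (i+1) - H (i+1) i := by
    intro i h'; rw [htz]; simp only
    rw [if_neg (by omega), if_neg (by omega)]; simp
  have row : ∀ i, i < n → ∀ j ≤ i, (a i : ℤ) + ∑ k ∈ range j, tz i k = H (i+1) j - H i j := by
    intro i hi j
    induction j with
    | zero =>
      intro _
      rw [hA i (by omega), hA (i+1) (by omega), sum_range_succ]
      simp
    | succ j ih =>
      intro hj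
      rw [sum_range_succ, ← add_assoc, ih (by omega), t1 i j (by omega) hi]
      ring
  have row' : ∀ i, i < n → ∀ d, (a i : ℤ) + ∑ k ∈ range (i + 1 + d), tz i k = l i := by
    intro i hi d
    induction d with
    | zero =>
      rw [add_zero, sum_range_succ, ← add_assoc, row i hi i le_rfl, t2 i hi]
      have h1 := hL i (by omega)
      have h2 := hL (i+1) (by omega)
      rw [sum_range_succ] at h2
      linarith
    | succ d ih =>
      rw [← add_assoc, sum_range_succ, ← add_assoc, ih, t0 i _ (by omega), add_zero]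
  have col0 : ∀ j i, i ≤ j → ∑ r ∈ range i, tz r j = 0 := by
    intro j i h
    apply sum_eq_zero
    intro r hr
    rw [mem_range] at hr
    exact t0 r j (by omega)
  have col : ∀ j d, j + 1 + d ≤ n → ∑ r ∈ range (j+1+d), tz r j = H (j+1+d) (j+1) - H (j+1+d) j := by
    intro j d
    induction d with
    | zero =>
      intro h
      rw [add_zero, sum_range_succ, col0 j j le_rfl, t2 j (by omega)]
      ring
    | succ d ih =>
      intro h
      rw [← add_assoc, sum_range_succ, ih (by omega), t1 (j+1+d) j (by omega) (by omega)]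
      ring
  have diag : ∀ d j, j + 1 + d = n → 0 ≤ H (j+1) (j+1) - H (j+1) j := by
    intro d
    induction d with
    | zero =>
      intro j h
      have hj : j + 1 = n := by omega
      rw [hj]
      have h1 := hB n le_rfl
      have h2 := hB j (by omega)
      rw [h1, h2]
      conv => rhs; rw [← hj]
      rw [sum_range_succ]
      have : (0:ℤ) ≤ b j := by positivity
      linarith
    | succ d ih =>
      intro j h
      have h1 := ih (j+1) (by omega)
      have h2 := r3 (j+1) j (by omega) (by omega)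
      have e : j + 1 + 1 = j + 2 := by ring
      rw [e] at h1 h2
      linarith
  have nonneg : ∀ i j, 0 ≤ tz i j := by
    intro i j
    rcases lt_or_ge i n with hi | hi
    · rcases lt_trichotomy j i with hj | hj | hj
      · rw [t1 i j hj hi]
        have := r1 i j hj hi
        linarith
      · subst hj
        rw [t2 j hi]
        exact diag (n - 1 - j) j (by omega)
      · rw [t0 i j hj]
    · rw [htz]; simp [hi]
  have cast : ∀ i j, (((tz i j).toNat : ℕ) : ℤ) = tz i j := fun i j => Int.toNat_of_nonneg (nonneg i j)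
  refine ⟨fun i j => (tz i j).toNat, ?_, ?_, ?_, ?_, ?_⟩
  · intro i hi
    have := row' i hi (n - 1 - i)
    rw [show i + 1 + (n - 1 - i) = n by omega] at this
    zify
    simp only [cast]
    exact this
  · intro j hj
    have := col j (n - 1 - j) (by omega)
    rw [show j + 1 + (n - 1 - j) = n by omega] at this
    zify
    simp only [cast]
    rw [this, hB (j+1) (by omega), hB j (by omega), sum_range_succ]
    ring
  · intro i j hij
    simp [t0 i j hij]
  · intro i j hi hj
    zify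
    simp only [cast]
    rcases le_or_gt j i with h | h
    · rw [row (i+1) hi (j+1) (by omega), row i (by omega) j h]
      have := r2 i j h (by omega)
      have e : i + 1 + 1 = i + 2 := by ring
      rw [e]
      linarith
    · have h1 := row' (i+1) hi (j - (i + 1))
      have h2 := row' i (by omega) (j - (i + 1))
      rw [show i + 1 + 1 + (j - (i+1)) = j + 1 by omega] at h1
      rw [show i + 1 + (j - (i+1)) = j by omega] at h2
      rw [h1, h2]
      exact_mod_cast hl (by omega)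
  · intro i j hi hj
    zify
    simp only [cast]
    rcases le_or_gt i j with h | h
    · rw [col0 _ _ (by omega), col0 _ _ h]
    · have h1 := col (j+1) (i - (j+1)) (by omega)
      have h2 := col j (i - (j+1)) (by omega)
      rw [show j + 1 + 1 + (i - (j+1)) = i + 1 by omega] at h1
      rw [show j + 1 + (i - (j+1)) = i by omega] at h2
      rw [h1, h2]
      have := r3 i j h hi
      have e : j + 1 + 1 = j + 2 := by ring
      rw [e]
      linarith

variable {n : ℕ} {A B : Type} [Fintype A] [Fintype B]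

lemma sum_Fin_ge (f : ℕ → ℤ) (i : ℕ) (hi : i ≤ n) :
    ∑ j ∈ (univ.filter (fun j : Fin n => i ≤ (j : ℕ))), f j = ∑ j ∈ range n, f j - ∑ j ∈ range i, f j := by
  rw [Finset.sum_filter, Fin.sum_univ_eq_sum_range (fun j => if i ≤ j then f j else 0) n]
  obtain ⟨d, rfl⟩ := Nat.exists_eq_add_of_le hi
  rw [sum_range_add (fun j => if i ≤ j then f j else 0), sum_range_add]
  have : ∑ x ∈ range i, (if i ≤ x then f x else 0) = 0 := by
    apply sum_eq_zero
    intro x hx
    rw [mem_range] at hx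
    rw [if_neg (by omega)]
  rw [this]
  simp

lemma sum_Fin_lt (f : ℕ → ℤ) (i : ℕ) (hi : i ≤ n) :
    ∑ j ∈ (univ.filter (fun j : Fin n => (j : ℕ) < i)), f j = ∑ j ∈ range i, f j := by
  rw [Finset.sum_filter, Fin.sum_univ_eq_sum_range (fun j => if j < i then f j else 0) n]
  obtain ⟨d, rfl⟩ := Nat.exists_eq_add_of_le hi
  rw [sum_range_add (fun j => if j < i then f j else 0)]
  have : ∑ x ∈ range i, (if x < i then f x else 0) = ∑ x ∈ range i, f x := by
    apply sum_congr rfl
    intro x hx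
    rw [mem_range] at hx
    rw [if_pos hx]
  rw [this]
  simp

lemma vec_add (a b c : ℤ) (i j : Fin 3) (p q r : ℤ) (h0 : a + E i 0 + E j 0 = p)
    (h1 : b + E i 1 + E j 1 = q) (h2 : c + E i 2 + E j 2 = r) :
    ![a, b, c] + E i + E j = ![p, q, r] := by
  ext k
  fin_cases k
  · exact h0
  · exact h1
  · exact h2

theorem net_to_LR (N : Net n A B) (a b l : ℕ → ℕ) (ha : Antitone a) (hb : Antitone b) (hl : Antitone l)
    (h0 : ∀ j : Fin n, N.bv 0 j = a j) (h1 : ∀ j : Fin n, N.bv 1 j = b j)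
    (h2 : ∀ j : Fin n, N.bv 2 j = - (l j : ℤ)) : ∃ t : ℕ → ℕ → ℕ, LRd n l a b t := by
  have U2 : N.U 2 = 0 := by simp [Net.U, lft]
  have U1 : N.U 1 = ∑ j ∈ range n, (a j : ℤ) := by
    unfold Net.U
    rw [N.sum_split 0]
    have e1 : ∀ b, N.x ((N.s 0).symm (Sum.inl b)) 0 = N.y b 0 := fun b => (N.seg 0 b).1
    have e2 : ∀ j : Fin n, N.x ((N.s 0).symm (Sum.inr j)) 0 = a j := h0
    simp only [lft, Matrix.cons_val_one, Matrix.cons_val_zero, e1, e2]
    rw [Fin.sum_univ_eq_sum_range (fun j => (a j : ℤ)) n]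
    ring
  have U0 : N.U 0 = - ∑ j ∈ range n, (b j : ℤ) := by
    unfold Net.U
    rw [N.sum_split 1]
    have e1 : ∀ b, N.x ((N.s 1).symm (Sum.inl b)) 1 = N.y b 1 := fun b => (N.seg 1 b).1
    have e2 : ∀ j : Fin n, N.x ((N.s 1).symm (Sum.inr j)) 1 = b j := h1
    simp only [lft, Matrix.cons_val_zero, e1, e2]
    rw [Finset.sum_neg_distrib, Finset.sum_neg_distrib,
      Fin.sum_univ_eq_sum_range (fun j => (b j : ℤ)) n]
    ring
  obtain ⟨H, hH⟩ : ∃ H : ℕ → ℕ → ℤ, H = fun (i j : ℕ) => N.h ![(j:ℤ), n - i, i - j] + ∑ j ∈ range n, (a j : ℤ) :=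
    ⟨_, rfl⟩
  have good : ∀ i j : ℕ, j ≤ i → i ≤ n → Net.Good n ![(j:ℤ), n - i, i - j] := by
    intro i j hj hi
    constructor
    · intro k; fin_cases k <;> simp <;> omega
    · simp; ring
  have cge : ∀ i, i ≤ n → (((univ.filter (fun j : Fin n => i ≤ (j : ℕ))).card : ℕ) : ℤ) = n - i := by
    intro i hi
    have := sum_Fin_ge (n := n) (fun _ => 1) i hi
    simp at this ⊢
    linarith
  have clt : ∀ i, i ≤ n → (((univ.filter (fun j : Fin n => (j : ℕ) < i)).card : ℕ) : ℤ) = i := by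
    intro i hi
    have := sum_Fin_lt (n := n) (fun _ => 1) i hi
    simp at this ⊢
    linarith
  have bA : ∀ i ≤ n, H i 0 = ∑ j ∈ range i, (a j : ℤ) := by
    intro i hi
    rw [hH]
    simp only
    rw [N.h_edge 0 _ (good i 0 (by omega) hi) (by simp) (univ.filter (fun j : Fin n => i ≤ (j : ℕ)))
      (by rw [cge i hi]; simp) (a i) ?_ ?_]
    · simp only [h0]
      rw [sum_Fin_ge (fun j => (a j : ℤ)) i hi]
      simp [U2]
    · intro j hj
      rw [h0]
      simp at hj
      exact_mod_cast ha hj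
    · intro j hj
      rw [h0]
      simp at hj
      exact_mod_cast ha hj.le
  have bB' : ∀ j ≤ n, H n j = ∑ j ∈ range n, (a j : ℤ) + ∑ i ∈ range j, (b i : ℤ) := by
    intro j hj
    rw [hH]
    simp only
    rw [N.h_edge 1 _ (good n j hj le_rfl) (by simp) (univ.filter (fun i : Fin n => j ≤ (i : ℕ)))
      (by rw [cge j hj]; simp) (b j) ?_ ?_]
    · simp only [h1]
      rw [sum_Fin_ge (fun j => (b j : ℤ)) j hj]
      have : (1:Fin 3) + 2 = 0 := rfl
      rw [this, U0]
      ring
    · intro i hi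
      rw [h1]
      simp at hi
      exact_mod_cast hb hi
    · intro i hi
      rw [h1]
      simp at hi
      exact_mod_cast hb hi.le
  have bL : ∀ i ≤ n, H i i = ∑ j ∈ range i, (l j : ℤ) := by
    intro i hi
    rw [hH]
    simp only
    rw [N.h_edge 2 _ (good i i le_rfl hi) (by simp) (univ.filter (fun j : Fin n => (j : ℕ) < i))
      (by rw [clt i hi]; simp) (- (l i : ℤ)) ?_ ?_]
    · simp only [h2]
      rw [Finset.sum_neg_distrib, sum_Fin_lt (fun j => (l j : ℤ)) i hi]
      have : (2:Fin 3) + 2 = 1 := rfl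
      rw [this, U1]
      ring
    · intro j hj
      rw [h2]
      simp at hj
      have : l i ≤ l j := hl hj.le
      have : (l i : ℤ) ≤ l j := by exact_mod_cast this
      linarith
    · intro j hj
      rw [h2]
      simp at hj
      have : l j ≤ l i := hl hj
      have : (l j : ℤ) ≤ l i := by exact_mod_cast this
      linarith
  apply hive_to_t n H a b l hl bA
  · intro j hj
    rw [bB' j hj, bB' 0 (by omega)]
    simp
  · exact bL
  · intro i j hj hi
    have r := N.rhombus ![(j:ℤ), n - i - 1, i - j - 1] 2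
      (by intro k; fin_cases k <;> simp <;> omega) (by simp; ring)
    have e1 : ![(j:ℤ), n - i - 1, i - j - 1] + E 2 + E 2 = ![(j:ℤ), n - (i+1 : ℕ), (i+1 : ℕ) - j] := by
      exact vec_add _ _ _ _ _ _ _ _ (by simp [E] <;> omega) (by simp [E] <;> omega) (by simp [E] <;> omega)
    have e2 : ![(j:ℤ), n - i - 1, i - j - 1] + E (2+1) + E (2+2) = ![((j+1 : ℕ):ℤ), n - i, i - (j+1 : ℕ)] := by
      exact vec_add _ _ _ _ _ _ _ _ (by simp [E] <;> omega) (by simp [E] <;> omega) (by simp [E] <;> omega)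
    have e3 : ![(j:ℤ), n - i - 1, i - j - 1] + E 2 + E (2+1) = ![((j+1 : ℕ):ℤ), n - (i+1 : ℕ), (i+1 : ℕ) - (j+1 : ℕ)] := by
      exact vec_add _ _ _ _ _ _ _ _ (by simp [E] <;> omega) (by simp [E] <;> omega) (by simp [E] <;> omega)
    have e4 : ![(j:ℤ), n - i - 1, i - j - 1] + E 2 + E (2+2) = ![(j:ℤ), n - i, i - j] := by
      exact vec_add _ _ _ _ _ _ _ _ (by simp [E] <;> omega) (by simp [E] <;> omega) (by simp [E] <;> omega)
    rw [e1, e2, e3, e4] at r
    rw [hH]
    simp only
    linarith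
  · intro i j hj hi
    have r := N.rhombus ![(j:ℤ), n - i - 2, i - j] 1
      (by intro k; fin_cases k <;> simp <;> omega) (by simp; ring)
    have e1 : ![(j:ℤ), n - i - 2, i - j] + E 1 + E 1 = ![(j:ℤ), n - i, i - j] := by
      exact vec_add _ _ _ _ _ _ _ _ (by simp [E] <;> omega) (by simp [E] <;> omega) (by simp [E] <;> omega)
    have e2 : ![(j:ℤ), n - i - 2, i - j] + E (1+1) + E (1+2) = ![((j+1 : ℕ):ℤ), n - (i+2 : ℕ), (i+2 : ℕ) - (j+1 : ℕ)] := by
      exact vec_add _ _ _ _ _ _ _ _ (by simp [E] <;> omega) (by simp [E] <;> omega) (by simp [E] <;> omega)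
    have e3 : ![(j:ℤ), n - i - 2, i - j] + E 1 + E (1+1) = ![(j:ℤ), n - (i+1 : ℕ), (i+1 : ℕ) - j] := by
      exact vec_add _ _ _ _ _ _ _ _ (by simp [E] <;> omega) (by simp [E] <;> omega) (by simp [E] <;> omega)
    have e4 : ![(j:ℤ), n - i - 2, i - j] + E 1 + E (1+2) = ![((j+1 : ℕ):ℤ), n - (i+1 : ℕ), (i+1 : ℕ) - (j+1 : ℕ)] := by
      exact vec_add _ _ _ _ _ _ _ _ (by simp [E] <;> omega) (by simp [E] <;> omega) (by simp [E] <;> omega)
    rw [e1, e2, e3, e4] at r
    rw [hH]
    simp only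
    linarith
  · intro i j hj hi
    have r := N.rhombus ![(j:ℤ), n - i - 1, i - j - 1] 0
      (by intro k; fin_cases k <;> simp <;> omega) (by simp; ring)
    have e1 : ![(j:ℤ), n - i - 1, i - j - 1] + E 0 + E 0 = ![((j+2 : ℕ):ℤ), n - (i+1 : ℕ), (i+1 : ℕ) - (j+2 : ℕ)] := by
      exact vec_add _ _ _ _ _ _ _ _ (by simp [E] <;> omega) (by simp [E] <;> omega) (by simp [E] <;> omega)
    have e2 : ![(j:ℤ), n - i - 1, i - j - 1] + E (0+1) + E (0+2) = ![(j:ℤ), n - i, i - j] := by
      exact vec_add _ _ _ _ _ _ _ _ (by simp [E] <;> omega) (by simp [E] <;> omega) (by simp [E] <;> omega)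
    have e3 : ![(j:ℤ), n - i - 1, i - j - 1] + E 0 + E (0+1) = ![((j+1 : ℕ):ℤ), n - i, i - (j+1 : ℕ)] := by
      exact vec_add _ _ _ _ _ _ _ _ (by simp [E] <;> omega) (by simp [E] <;> omega) (by simp [E] <;> omega)
    have e4 : ![(j:ℤ), n - i - 1, i - j - 1] + E 0 + E (0+2) = ![((j+1 : ℕ):ℤ), n - (i+1 : ℕ), (i+1 : ℕ) - (j+1 : ℕ)] := by
      exact vec_add _ _ _ _ _ _ _ _ (by simp [E] <;> omega) (by simp [E] <;> omega) (by simp [E] <;> omega)
    rw [e1, e2, e3, e4] at r
    rw [hH]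
    simp only
    linarith

end Pool.Agent.NL
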