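import Mathlib
import Pool.Agent.NL.Sys
import Pool.Agent.NL.Tab

set_option autoImplicit false

namespace Pool.Agent.NL

open Finset

@[ext] structure PU (n : ℕ) where
  i : Fin 3
  r : ℕ
  j : ℕ
  h : j ≤ r
  h' : r < n

@[ext] structure MD (n : ℕ) where
  i : Fin 3
  r : ℕ
  j : ℕ
  h : j < r
  h' : r < n

instance (n : ℕ) : Finite (PU n) :=
  Finite.of_injective (fun p : PU n => ((p.i, ⟨p.r, p.h'⟩, ⟨p.j, lt_of_le_of_lt p.h p.h'⟩) : Fin 3 × Fin n × Fin n))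
    (by
      intro a b h
      simp only [Prod.mk.injEq, Fin.mk.injEq] at h
      exact PU.ext h.1 h.2.1 h.2.2)

instance (n : ℕ) : Finite (MD n) :=
  Finite.of_injective (fun p : MD n => ((p.i, ⟨p.r, p.h'⟩, ⟨p.j, lt_trans p.h p.h'⟩) : Fin 3 × Fin n × Fin n))
    (by
      intro a b h
      simp only [Prod.mk.injEq, Fin.mk.injEq] at h
      exact MD.ext h.1 h.2.1 h.2.2)

def g0 (n : ℕ) : MD n ⊕ (Fin 3 × Fin n) → PU n
  | Sum.inl q => ⟨q.i, q.r, q.j + 1, q.h, q.h'⟩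
  | Sum.inr b => ⟨b.1, b.2.1, 0, Nat.zero_le _, b.2.2⟩

def g1 (n : ℕ) : MD n ⊕ (Fin 3 × Fin n) → PU n
  | Sum.inl q => ⟨q.i, q.r - 1, q.j, by have := q.h; omega, by have := q.h'; omega⟩
  | Sum.inr b => ⟨b.1, n - 1, b.2.1, by have := b.2.2; omega, by have := b.2.2; omega⟩

def g2 (n : ℕ) : MD n ⊕ (Fin 3 × Fin n) → PU n
  | Sum.inl q => ⟨q.i, q.r, q.j, q.h.le, q.h'⟩
  | Sum.inr b => ⟨b.1, b.2.1, b.2.1, le_rfl, b.2.2⟩

lemma g0_bij (n : ℕ) : Function.Bijective (g0 n) := by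
  constructor
  · rintro (q | b) (q' | b') h <;> rw [PU.ext_iff] at h <;> simp only [g0] at h <;> obtain ⟨h1, h2, h3⟩ := h
    · congr 1; exact MD.ext h1 h2 (by omega)
    · omega
    · omega
    · congr 1; exact Prod.ext h1 (Fin.ext h2)
  · intro p
    have h1 := p.h
    have h2 := p.h'
    by_cases hj : p.j = 0
    · exact ⟨Sum.inr (p.i, ⟨p.r, h2⟩), PU.ext rfl rfl hj.symm⟩
    · exact ⟨Sum.inl ⟨p.i, p.r, p.j - 1, by omega, h2⟩, PU.ext rfl rfl (by simp only [g0]; omega)⟩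

lemma g1_bij (n : ℕ) : Function.Bijective (g1 n) := by
  constructor
  · rintro (q | b) (q' | b') h <;> rw [PU.ext_iff] at h <;> simp only [g1] at h <;> obtain ⟨h1, h2, h3⟩ := h
    · congr 1
      have := q.h
      have := q'.h
      exact MD.ext h1 (by omega) h3
    · have := q.h
      have := q.h'
      omega
    · have := q'.h
      have := q'.h'
      omega
    · congr 1; exact Prod.ext h1 (Fin.ext h3)
  · intro p
    have h1 := p.h
    have h2 := p.h'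
    by_cases hj : p.r + 1 < n
    · exact ⟨Sum.inl ⟨p.i, p.r + 1, p.j, by omega, hj⟩, PU.ext rfl rfl rfl⟩
    · exact ⟨Sum.inr (p.i, ⟨p.j, by omega⟩), PU.ext rfl (by simp only [g1]; omega) rfl⟩

lemma g2_bij (n : ℕ) : Function.Bijective (g2 n) := by
  constructor
  · rintro (q | b) (q' | b') h <;> rw [PU.ext_iff] at h <;> simp only [g2] at h <;> obtain ⟨h1, h2, h3⟩ := h
    · congr 1; exact MD.ext h1 h2 h3
    · have := q.h
      omega
    · have := q'.h
      omega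
    · congr 1; exact Prod.ext h1 (Fin.ext h2)
  · intro p
    have h1 := p.h
    have h2 := p.h'
    by_cases hj : p.j < p.r
    · exact ⟨Sum.inl ⟨p.i, p.r, p.j, hj, h2⟩, PU.ext rfl rfl rfl⟩
    · exact ⟨Sum.inr (p.i, ⟨p.r, h2⟩), PU.ext rfl rfl (by simp only [g2]; omega)⟩

noncomputable def eq0 (n : ℕ) : PU n ≃ MD n ⊕ (Fin 3 × Fin n) := (Equiv.ofBijective _ (g0_bij n)).symm
noncomputable def eq1 (n : ℕ) : PU n ≃ MD n ⊕ (Fin 3 × Fin n) := (Equiv.ofBijective _ (g1_bij n)).symm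
noncomputable def eq2 (n : ℕ) : PU n ≃ MD n ⊕ (Fin 3 × Fin n) := (Equiv.ofBijective _ (g2_bij n)).symm

lemma eq0_of (n : ℕ) (p : PU n) (z : MD n ⊕ (Fin 3 × Fin n)) (h : g0 n z = p) : eq0 n p = z := by
  rw [eq0, Equiv.symm_apply_eq]; exact h.symm
lemma eq1_of (n : ℕ) (p : PU n) (z : MD n ⊕ (Fin 3 × Fin n)) (h : g1 n z = p) : eq1 n p = z := by
  rw [eq1, Equiv.symm_apply_eq]; exact h.symm
lemma eq2_of (n : ℕ) (p : PU n) (z : MD n ⊕ (Fin 3 × Fin n)) (h : g2 n z = p) : eq2 n p = z := by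
  rw [eq2, Equiv.symm_apply_eq]; exact h.symm

noncomputable def eqs (n : ℕ) (k : Fin 3) : PU n ≃ MD n ⊕ (Fin 3 × Fin n) :=
  if k = 0 then eq0 n else if k = 1 then eq1 n else eq2 n

lemma eq0_cases (n : ℕ) (p : PU n) : (p.j = 0 ∧ eq0 n p = Sum.inr (p.i, ⟨p.r, p.h'⟩)) ∨
    (∃ q : MD n, eq0 n p = Sum.inl q ∧ q.i = p.i ∧ q.r = p.r ∧ q.j + 1 = p.j) := by
  have h1 := p.h
  have h2 := p.h'
  by_cases hj : p.j = 0
  · exact Or.inl ⟨hj, eq0_of n p _ (PU.ext rfl rfl hj.symm)⟩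
  · exact Or.inr ⟨⟨p.i, p.r, p.j - 1, by omega, h2⟩, eq0_of n p _ (PU.ext rfl rfl (by simp only [g0]; omega)),
      rfl, rfl, by simp only; omega⟩

lemma eq1_cases (n : ℕ) (p : PU n) : (p.r + 1 = n ∧ eq1 n p = Sum.inr (p.i, ⟨p.j, lt_of_le_of_lt p.h p.h'⟩)) ∨
    (∃ q : MD n, eq1 n p = Sum.inl q ∧ q.i = p.i ∧ q.r = p.r + 1 ∧ q.j = p.j) := by
  have h1 := p.h
  have h2 := p.h'
  by_cases hj : p.r + 1 < n
  · exact Or.inr ⟨⟨p.i, p.r + 1, p.j, by omega, hj⟩, eq1_of n p _ (PU.ext rfl rfl rfl), rfl, rfl, rfl⟩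
  · exact Or.inl ⟨by omega, eq1_of n p _ (PU.ext rfl (by simp only [g1]; omega) rfl)⟩

lemma eq2_cases (n : ℕ) (p : PU n) : (p.j = p.r ∧ eq2 n p = Sum.inr (p.i, ⟨p.r, p.h'⟩)) ∨
    (∃ q : MD n, eq2 n p = Sum.inl q ∧ q.i = p.i ∧ q.r = p.r ∧ q.j = p.j) := by
  have h1 := p.h
  have h2 := p.h'
  by_cases hj : p.j < p.r
  · exact Or.inr ⟨⟨p.i, p.r, p.j, hj, h2⟩, eq2_of n p _ (PU.ext rfl rfl rfl), rfl, rfl, rfl⟩
  · exact Or.inl ⟨by omega, eq2_of n p _ (PU.ext rfl rfl (by simp only [g2]; omega))⟩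

lemma eqs_cases (n : ℕ) (k : Fin 3) (p : PU n) :
    (∃ j, eqs n k p = Sum.inr (p.i, j)) ∨ (∃ q : MD n, eqs n k p = Sum.inl q ∧ q.i = p.i) := by
  fin_cases k
  · rcases eq0_cases n p with ⟨_, h⟩ | ⟨q, h, h2, _⟩
    · exact Or.inl ⟨_, h⟩
    · exact Or.inr ⟨q, h, h2⟩
  · rcases eq1_cases n p with ⟨_, h⟩ | ⟨q, h, h2, _⟩
    · exact Or.inl ⟨_, h⟩
    · exact Or.inr ⟨q, h, h2⟩
  · rcases eq2_cases n p with ⟨_, h⟩ | ⟨q, h, h2, _⟩
    · exact Or.inl ⟨_, h⟩
    · exact Or.inr ⟨q, h, h2⟩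

noncomputable def lrG (n : ℕ) : Cmb n (PU n) (MD n) where
  lp := fun p => p.i
  lm := fun q => q.i
  s := eqs n
  lab := by
    intro k p q h
    rcases eqs_cases n k p with ⟨j, h'⟩ | ⟨q', h', h2⟩
    · rw [h'] at h; simp at h
    · rw [h', Sum.inl.injEq] at h
      rw [← h, h2]
  labb := by
    intro k p i j h
    rcases eqs_cases n k p with ⟨j, h'⟩ | ⟨q', h', h2⟩
    · rw [h', Sum.inr.injEq, Prod.mk.injEq] at h
      exact h.1
    · rw [h'] at h; simp at h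

/-- position from x and y -/
def xyz (a b : ℤ) : Fin 3 → ℤ := ![a, b, - a - b]

def lrA (n : ℕ) (w : Fin 3 → ℕ → ℕ) (t : Fin 3 → ℕ → ℕ → ℕ) : Cfg ℤ n (PU n) (MD n) where
  x := fun p => xyz (w (gg 0 p.i) p.r + ∑ k ∈ range p.j, (t p.i p.r k : ℤ)) (∑ r ∈ range (p.r + 1), (t p.i r p.j : ℤ))
  y := fun q => xyz (w (gg 0 q.i) q.r + ∑ k ∈ range (q.j + 1), (t q.i q.r k : ℤ)) (∑ r ∈ range q.r, (t q.i r q.j : ℤ))
  c := fun u j => w u j

lemma xyz_sum (a b : ℤ) : xyz a b 0 + xyz a b 1 + xyz a b 2 = 0 := by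
  simp [xyz]

theorem lr_val (n : ℕ) (w : Fin 3 → ℕ → ℕ) (t : Fin 3 → ℕ → ℕ → ℕ) (L : Fin 3 → ℕ → ℕ)
    (h : ∀ i, LRd n (L i) (w (gg 0 i)) (w (gg 1 i)) (t i)) :
    Val (lrG n) (fun i j => (L i j : ℤ)) (lrA n w t) := by
  have hx0 : ∀ p, (lrA n w t).x p 0 = w (gg 0 p.i) p.r + ∑ k ∈ range p.j, (t p.i p.r k : ℤ) := fun p => rfl
  have hx1 : ∀ p, (lrA n w t).x p 1 = ∑ r ∈ range (p.r + 1), (t p.i r p.j : ℤ) := fun p => rfl
  have hx2 : ∀ p, (lrA n w t).x p 2 = - (w (gg 0 p.i) p.r + ∑ k ∈ range p.j, (t p.i p.r k : ℤ)) -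
    ∑ r ∈ range (p.r + 1), (t p.i r p.j : ℤ) := fun p => rfl
  have hy0 : ∀ p, (lrA n w t).y p 0 = w (gg 0 p.i) p.r + ∑ k ∈ range (p.j + 1), (t p.i p.r k : ℤ) := fun p => rfl
  have hy1 : ∀ p, (lrA n w t).y p 1 = ∑ r ∈ range p.r, (t p.i r p.j : ℤ) := fun p => rfl
  have hy2 : ∀ p, (lrA n w t).y p 2 = - (w (gg 0 p.i) p.r + ∑ k ∈ range (p.j + 1), (t p.i p.r k : ℤ)) -
    ∑ r ∈ range p.r, (t p.i r p.j : ℤ) := fun p => rfl
  refine ⟨⟨fun p => xyz_sum _ _, fun q => xyz_sum _ _, ?_, ?_⟩, ?_, ?_⟩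
  · intro k p q hs
    fin_cases k
    · change eq0 n p = Sum.inl q at hs
      rcases eq0_cases n p with ⟨_, h'⟩ | ⟨q', h', h1, h2, h3⟩
      · rw [h'] at hs; simp at hs
      · rw [h', Sum.inl.injEq] at hs
        subst hs
        show (lrA n w t).x p 0 = (lrA n w t).y q' 0
        rw [hx0, hy0, h1, h2, h3]
    · change eq1 n p = Sum.inl q at hs
      rcases eq1_cases n p with ⟨_, h'⟩ | ⟨q', h', h1, h2, h3⟩
      · rw [h'] at hs; simp at hs
      · rw [h', Sum.inl.injEq] at hs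
        subst hs
        show (lrA n w t).x p 1 = (lrA n w t).y q' 1
        rw [hx1, hy1, h1, h2, h3]
    · change eq2 n p = Sum.inl q at hs
      rcases eq2_cases n p with ⟨_, h'⟩ | ⟨q', h', h1, h2, h3⟩
      · rw [h'] at hs; simp at hs
      · rw [h', Sum.inl.injEq] at hs
        subst hs
        show (lrA n w t).x p 2 = (lrA n w t).y q' 2
        rw [hx2, hy2, h1, h2, h3, sum_range_succ, sum_range_succ]
        ring
  · intro k p i j hs
    fin_cases k
    · change eq0 n p = Sum.inr (i, j) at hs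
      rcases eq0_cases n p with ⟨h0, h'⟩ | ⟨q', h', _⟩
      · rw [h', Sum.inr.injEq, Prod.mk.injEq] at hs
        obtain ⟨rfl, rfl⟩ := hs
        show (lrA n w t).x p 0 = bd _ _ 0 p.i _
        rw [hx0, h0, bd_ne _ _ _ _ _ (by decide)]
        simp [lrA]
      · rw [h'] at hs; simp at hs
    · change eq1 n p = Sum.inr (i, j) at hs
      rcases eq1_cases n p with ⟨h0, h'⟩ | ⟨q', h', _⟩
      · rw [h', Sum.inr.injEq, Prod.mk.injEq] at hs
        obtain ⟨rfl, rfl⟩ := hs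
        show (lrA n w t).x p 1 = bd _ _ 1 p.i _
        rw [hx1, h0, bd_ne _ _ _ _ _ (by decide)]
        have := (h p.i).2.1 p.j (by have := p.h; have := p.h'; omega)
        simp only [lrA]
        rw [← this]
        push_cast
        rfl
      · rw [h'] at hs; simp at hs
    · change eq2 n p = Sum.inr (i, j) at hs
      rcases eq2_cases n p with ⟨h0, h'⟩ | ⟨q', h', _⟩
      · rw [h', Sum.inr.injEq, Prod.mk.injEq] at hs
        obtain ⟨rfl, rfl⟩ := hs
        show (lrA n w t).x p 2 = bd _ _ 2 p.i _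
        rw [hx2, h0]
        simp only [bd, if_true]
        obtain ⟨H1, _, H3, _, _⟩ := h p.i
        have e1 := H1 p.r p.h'
        have e2 : ∑ r ∈ range (p.r + 1), (t p.i r p.r : ℤ) = t p.i p.r p.r := by
          rw [sum_range_succ, sum_eq_zero, zero_add]
          intro r hr
          rw [mem_range] at hr
          rw [H3 r p.r hr]; rfl
        have e3 : ∑ j ∈ range n, t p.i p.r j = ∑ j ∈ range (p.r + 1), t p.i p.r j := by
          symm
          apply sum_subset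
          · intro x hx
            rw [mem_range] at *
            have := p.h'
            omega
          · intro x hx hx'
            rw [mem_range] at *
            exact H3 _ _ (by omega)
        rw [e3, sum_range_succ] at e1
        rw [e2, ← e1]
        push_cast
        ring
      · rw [h'] at hs; simp at hs
  · intro k p q hs
    fin_cases k
    · change eq0 n p = Sum.inl q at hs
      rcases eq0_cases n p with ⟨_, h'⟩ | ⟨q', h', h1, h2, h3⟩
      · rw [h'] at hs; simp at hs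
      · rw [h', Sum.inl.injEq] at hs
        subst hs
        show (lrA n w t).x p 1 ≤ (lrA n w t).y q' 1
        rw [hx1, hy1, h1, h2, ← h3]
        have := (h p.i).2.2.2.2 p.r q'.j p.h' (by have := p.h; have := p.h'; omega)
        exact_mod_cast this
    · change eq1 n p = Sum.inl q at hs
      rcases eq1_cases n p with ⟨_, h'⟩ | ⟨q', h', h1, h2, h3⟩
      · rw [h'] at hs; simp at hs
      · rw [h', Sum.inl.injEq] at hs
        subst hs
        show (lrA n w t).x p 2 ≤ (lrA n w t).y q' 2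
        rw [hx2, hy2, h1, h2, h3]
        have h4 := (h p.i).2.2.2.1 p.r p.j (by rw [← h2]; exact q'.h') (by have := p.h; have := p.h'; omega)
        have h5 : (w (gg 0 p.i) (p.r + 1) : ℤ) + ∑ k ∈ range (p.j + 1), (t p.i (p.r + 1) k : ℤ) ≤
          w (gg 0 p.i) p.r + ∑ k ∈ range p.j, (t p.i p.r k : ℤ) := by exact_mod_cast h4
        linarith
    · change eq2 n p = Sum.inl q at hs
      rcases eq2_cases n p with ⟨_, h'⟩ | ⟨q', h', h1, h2, h3⟩
      · rw [h'] at hs; simp at hs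
      · rw [h', Sum.inl.injEq] at hs
        subst hs
        show (lrA n w t).x p 0 ≤ (lrA n w t).y q' 0
        rw [hx0, hy0, h1, h2, h3, sum_range_succ]
        have : (0:ℤ) ≤ t p.i p.r p.j := by positivity
        linarith
  · intro u j
    show (0:ℤ) ≤ (w u j : ℤ)
    positivity

/-- scaling -/
def scl {n : ℕ} {P M : Type} (κ : ℚ) (A : Cfg ℤ n P M) : Cfg ℚ n P M where
  x := fun p k => κ * (A.x p k : ℚ)
  y := fun q k => κ * (A.y q k : ℚ)
  c := fun w j => κ * (A.c w j : ℚ)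

theorem val_scl {n : ℕ} {P M : Type} {G : Cmb n P M} {l : Fin 3 → Fin n → ℤ} {l' : Fin 3 → Fin n → ℚ}
    {A : Cfg ℤ n P M} (h : Val G l A) (κ : ℚ) (hκ : 0 ≤ κ) (hl : ∀ i j, κ * (l i j : ℚ) = l' i j) :
    Val G l' (scl κ A) := by
  refine ⟨⟨?_, ?_, ?_, ?_⟩, ?_, ?_⟩
  · intro p
    have := h.sx p
    have : ((A.x p 0 + A.x p 1 + A.x p 2 : ℤ) : ℚ) = 0 := by rw [this]; simp
    push_cast at this
    simp only [scl]
    linear_combination κ * this
  · intro p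
    have := h.sy p
    have : ((A.y p 0 + A.y p 1 + A.y p 2 : ℤ) : ℚ) = 0 := by rw [this]; simp
    push_cast at this
    simp only [scl]
    linear_combination κ * this
  · intro k p q hs
    simp only [scl]
    rw [h.seg k p q hs]
  · intro k p i j hs
    simp only [scl]
    rw [h.bv k p i j hs]
    unfold bd
    split_ifs
    · rw [← hl]; push_cast; ring
    · rfl
  · intro k p q hs
    have := h.le k p q hs
    have : (A.x p (k+1) : ℚ) ≤ A.y q (k+1) := by exact_mod_cast this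
    exact mul_le_mul_of_nonneg_left this hκ
  · intro w j
    have := h.nn w j
    have : (0 : ℚ) ≤ A.c w j := by exact_mod_cast this
    exact mul_nonneg hκ this

end Pool.Agent.NL
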