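import Mathlib
import Pool.Agent.NL.CaseC

set_option autoImplicit false

namespace Pool.Agent.NL

open Finset

variable {n : ℕ} {P M : Type}

/-- value at an end -/
def ev {R : Type} [Ring R] (l : Fin 3 → Fin n → R) (X : Cfg R n P M) (k : Fin 3) :
    M ⊕ (Fin 3 × Fin n) → R :=
  Sum.elim (fun q => X.y q k) (fun b => bd l X.c k b.1 b.2)

lemma Lin.ev_eq {R : Type} [Ring R] {G : Cmb n P M} {l : Fin 3 → Fin n → R} {X : Cfg R n P M}
    (h : Lin G l X) (k : Fin 3) (p : P) : X.x p k = ev l X k (G.s k p) := by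
  rcases hs : G.s k p with q | ⟨i, j⟩
  · exact h.seg k p q hs
  · exact h.bv k p i j hs

lemma Lin.of_ev {R : Type} [Ring R] {G : Cmb n P M} {l : Fin 3 → Fin n → R} {X : Cfg R n P M}
    (h1 : ∀ p, X.x p 0 + X.x p 1 + X.x p 2 = 0) (h2 : ∀ q, X.y q 0 + X.y q 1 + X.y q 2 = 0)
    (h3 : ∀ k p, X.x p k = ev l X k (G.s k p)) : Lin G l X := by
  refine ⟨h1, h2, ?_, ?_⟩
  · intro k p q hs
    rw [h3, hs]; rfl
  · intro k p i j hs
    rw [h3, hs]; rfl

/-- sign function with a defect at the plus dart d0 -/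
structure Sgn (G : Cmb n P M) (A : Cfg ℤ n P M) (p0 : P) (k0 : Fin 3) (e : (P ⊕ M) × Fin 3 → ℤ) : Prop where
  v : ∀ d, e d = 0 ∨ e d = 1 ∨ e d = -1
  z : ∀ d, Even (pos A d) → e d = 0
  s : ∀ v, e (v, 0) + e (v, 1) + e (v, 2) = 0
  t : ∀ d, d ≠ (Sum.inl p0, k0) → d ≠ t2 G (Sum.inl p0, k0) → e (t2 G d) = e d
  a : e (Sum.inl p0, k0) = -1
  b : e (t2 G (Sum.inl p0, k0)) = 1

open Classical in
/-- configuration of a sign function -/
noncomputable def dfl (G : Cmb n P M) (e : (P ⊕ M) × Fin 3 → ℤ) (p0 : P) (k0 : Fin 3) : Cfg ℤ n P M where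
  x := fun p k => e (Sum.inl p, k)
  y := fun q k => e (Sum.inr q, k)
  c := fun w j => if sd G (rep w) j = (Sum.inl p0, k0) then e (t2 G (Sum.inl p0, k0)) else e (sd G (rep w) j)

lemma z_even {G : Cmb n P M} {l : Fin 3 → Fin n → ℤ} {A : Cfg ℤ n P M} (hA : Val G (fun i j => 2 * l i j) A)
    (i : Fin 3) (j : Fin n) : Even (pos A (sd G (2, i) j)) := by
  unfold sd
  rw [pos_inl, hA.bv 2 _ i j (by simp)]
  exact ⟨- l i j, by simp [bd]; ring⟩

section

variable {G : Cmb n P M} {l : Fin 3 → Fin n → ℤ} {A : Cfg ℤ n P M} (hA : Val G (fun i j => 2 * l i j) A)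
  {p0 : P} {k0 : Fin 3} {e : (P ⊕ M) × Fin 3 → ℤ} (h : Sgn G A p0 k0 e)

include hA h

lemma Sgn.ev_eq (k : Fin 3) (p : P) (hne : ¬ (p = p0 ∧ k = k0)) :
    e (Sum.inl p, k) = ev 0 (dfl G e p0 k0) k (G.s k p) := by
  classical
  have hd : (Sum.inl p, k) ≠ ((Sum.inl p0, k0) : (P ⊕ M) × Fin 3) := by
    intro hc
    apply hne
    exact ⟨Sum.inl.inj (congrArg Prod.fst hc), congrArg Prod.snd hc⟩
  rcases hs : G.s k p with q | ⟨i, j⟩
  · show _ = e (Sum.inr q, k)
    have e1 : t2 G (Sum.inr q, k) = (Sum.inl p, k) := by rw [← t2_seg G p k q hs, t2_t2]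
    rw [← e1]
    apply h.t
    · simp
    · intro hc
      apply hd
      rw [← e1, hc, t2_t2]
  · show _ = bd 0 _ k i j
    have hsd := sd_eq G p k i j hs
    rw [hsd]
    by_cases hk : k = 2
    · subst hk
      rw [h.z _ (z_even hA i j)]
      simp [bd]
    · rw [bd_ne _ _ _ _ _ hk]
      show _ = if sd G (rep (gg k i)) j = (Sum.inl p0, k0) then e (t2 G (Sum.inl p0, k0)) else e (sd G (rep (gg k i)) j)
      rcases rep_cases k i hk with h' | ⟨_, h'⟩
      · rw [← h', if_neg (by rw [← hsd]; exact hd)]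
      · have e2 : sd G (rep (gg k i)) j = t2 G (sd G (k, i) j) := by rw [t2_sd]; rw [← h']
        rw [e2]
        split_ifs with h3
        · rw [← h3, t2_t2]
        · rw [h.t]
          · rw [← hsd]; exact hd
          · intro hc
            apply h3
            rw [hc, t2_t2]

lemma Sgn.ev_one (ho : Odd (pos A (Sum.inl p0, k0))) : ev 0 (dfl G e p0 k0) k0 (G.s k0 p0) = 1 := by
  classical
  rcases hs : G.s k0 p0 with q | ⟨i, j⟩
  · show e (Sum.inr q, k0) = 1
    rw [← t2_seg G p0 k0 q hs]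
    exact h.b
  · show bd 0 _ k0 i j = 1
    have hsd := sd_eq G p0 k0 i j hs
    have hk : k0 ≠ 2 := by
      rintro rfl
      rw [hsd] at ho
      exact (Int.not_even_iff_odd.2 ho) (z_even hA i j)
    rw [bd_ne _ _ _ _ _ hk]
    show (if sd G (rep (gg k0 i)) j = (Sum.inl p0, k0) then e (t2 G (Sum.inl p0, k0)) else e (sd G (rep (gg k0 i)) j)) = 1
    split_ifs with h3
    · exact h.b
    · rcases rep_cases k0 i hk with h' | ⟨_, h'⟩
      · exfalso
        apply h3
        rw [← h', hsd]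
      · have e2 : sd G (rep (gg k0 i)) j = t2 G (sd G (k0, i) j) := by rw [t2_sd]; rw [← h']
        rw [e2, ← hsd]
        exact h.b

end

/-! ### swap -/

open Classical in
noncomputable def swapG (G : Cmb n P M) (k : Fin 3) (p0 p1 : P) (hl : G.lp p0 = G.lp p1) : Cmb n P M where
  lp := G.lp
  lm := G.lm
  s := fun k' => if k' = k then (Equiv.swap p0 p1).trans (G.s k') else G.s k'
  lab := by
    intro k' p q h
    split_ifs at h with h1
    · simp only [Equiv.trans_apply] at h
      have := G.lab k' _ q h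
      rw [← this, Equiv.swap_apply_def]
      split_ifs with h2 h3
      · rw [h2, hl]
      · rw [h3, hl]
      · rfl
    · exact G.lab k' p q h
  labb := by
    intro k' p i j h
    split_ifs at h with h1
    · simp only [Equiv.trans_apply] at h
      have := G.labb k' _ i j h
      rw [← this, Equiv.swap_apply_def]
      split_ifs with h2 h3
      · rw [h2, hl]
      · rw [h3, hl]
      · rfl
    · exact G.labb k' p i j h

lemma swapG_cases (G : Cmb n P M) (k : Fin 3) (p0 p1 : P) (hl : G.lp p0 = G.lp p1) (k' : Fin 3) (p : P) :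
    (k' = k ∧ p = p0 ∧ (swapG G k p0 p1 hl).s k' p = G.s k p1) ∨
    (k' = k ∧ p = p1 ∧ (swapG G k p0 p1 hl).s k' p = G.s k p0) ∨
    (¬ (p = p0 ∧ k' = k) ∧ ¬ (p = p1 ∧ k' = k) ∧ (swapG G k p0 p1 hl).s k' p = G.s k' p) := by
  classical
  by_cases hk : k' = k
  · subst hk
    by_cases h0 : p = p0
    · subst h0
      left
      refine ⟨rfl, rfl, ?_⟩
      simp [swapG]
    · by_cases h1 : p = p1
      · subst h1
        right; left
        refine ⟨rfl, rfl, ?_⟩
        simp [swapG]
      · right; right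
        refine ⟨fun h => h0 h.1, fun h => h1 h.1, ?_⟩
        simp only [swapG, if_true, Equiv.trans_apply]
        rw [Equiv.swap_apply_of_ne_of_ne h0 h1]
  · right; right
    refine ⟨fun h => hk h.2, fun h => hk h.2, ?_⟩
    simp [swapG, hk]

/-- a point on a piece -/
def OnP (G : Cmb n P M) (A : Cfg ℤ n P M) (p : P) (k : Fin 3) (T : Fin 3 → ℤ) : Prop :=
  T k = A.x p k ∧ A.x p (k+1) ≤ T (k+1) ∧ ∀ q, G.s k p = Sum.inl q → T (k+1) ≤ A.y q (k+1)

lemma lin_hlf {G : Cmb n P M} {V : Cfg ℤ n P M} (h : Lin G 0 V) : Lin G 0 (hlf V) := by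
  refine ⟨?_, ?_, ?_, ?_⟩
  · intro p
    have := h.sx p
    have : ((V.x p 0 + V.x p 1 + V.x p 2 : ℤ) : ℚ) = 0 := by rw [this]; simp
    push_cast at this
    simp only [hlf]
    linarith
  · intro p
    have := h.sy p
    have : ((V.y p 0 + V.y p 1 + V.y p 2 : ℤ) : ℚ) = 0 := by rw [this]; simp
    push_cast at this
    simp only [hlf]
    linarith
  · intro k p q hs
    have := h.seg k p q hs
    simp only [hlf]
    rw [this]
  · intro k p i j hs
    have := h.bv k p i j hs
    simp only [hlf]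
    rw [this]
    unfold bd
    split_ifs <;> simp

theorem swap_case [Fintype P] [Fintype M] {G : Cmb n P M} {l : Fin 3 → Fin n → ℤ} {A : Cfg ℤ n P M}
    (hA : Val G (fun i j => 2 * l i j) A) (k : Fin 3) (p0 p1 : P) (hl : G.lp p0 = G.lp p1)
    (T : Fin 3 → ℤ) (on0 : OnP G A p0 k T) (on1 : OnP G A p1 k T) (ho : Odd (T k))
    (e1 e2 : (P ⊕ M) × Fin 3 → ℤ) (h1 : Sgn G A p0 k e1) (h2 : Sgn G A p1 k e2)
    (z1 : e1 (Sum.inl p1, k) = 0) (z2 : e2 (Sum.inl p0, k) = 0) :
    Smaller (fun i j => (l i j : ℚ)) (hlf A) := by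
  have hne : p0 ≠ p1 := by
    rintro rfl
    rw [h1.a] at z1
    norm_num at z1
  have hval : Val (swapG G k p0 p1 hl) (fun i j => 2 * l i j) A := by
    refine ⟨Lin.of_ev hA.sx hA.sy ?_, ?_, hA.nn⟩
    · intro k' p
      rcases swapG_cases G k p0 p1 hl k' p with ⟨rfl, rfl, h⟩ | ⟨rfl, rfl, h⟩ | ⟨_, _, h⟩
      · rw [h, ← hA.ev_eq, ← on0.1, on1.1]
      · rw [h, ← hA.ev_eq, ← on1.1, on0.1]
      · rw [h, ← hA.ev_eq]
    · intro k' p q hq
      rcases swapG_cases G k p0 p1 hl k' p with ⟨rfl, rfl, h⟩ | ⟨rfl, rfl, h⟩ | ⟨_, _, h⟩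
      · rw [h] at hq
        exact on0.2.1.trans (on1.2.2 q hq)
      · rw [h] at hq
        exact on1.2.1.trans (on0.2.2 q hq)
      · rw [h] at hq
        exact hA.le _ _ _ hq
  have o0 : Odd (pos A (Sum.inl p0, k)) := by rw [pos_inl, ← on0.1]; exact ho
  have o1 : Odd (pos A (Sum.inl p1, k)) := by rw [pos_inl, ← on1.1]; exact ho
  let V : Cfg ℤ n P M := ⟨fun p k => e1 (Sum.inl p, k) - e2 (Sum.inl p, k),
    fun q k => e1 (Sum.inr q, k) - e2 (Sum.inr q, k),
    fun w j => (dfl G e1 p0 k).c w j - (dfl G e2 p1 k).c w j⟩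
  have hev : ∀ k' z, ev 0 V k' z = ev 0 (dfl G e1 p0 k) k' z - ev 0 (dfl G e2 p1 k) k' z := by
    intro k' z
    rcases z with q | ⟨i, j⟩
    · rfl
    · show bd 0 _ k' i j = bd 0 _ k' i j - bd 0 _ k' i j
      unfold bd
      split_ifs
      · simp
      · rfl
  have hV : Lin (swapG G k p0 p1 hl) 0 V := by
    apply Lin.of_ev
    · intro p
      have a := h1.s (Sum.inl p)
      have b := h2.s (Sum.inl p)
      simp only [V]
      linarith
    · intro p
      have a := h1.s (Sum.inr p)
      have b := h2.s (Sum.inr p)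
      simp only [V]
      linarith
    · intro k' p
      rw [hev]
      rcases swapG_cases G k p0 p1 hl k' p with ⟨rfl, rfl, h⟩ | ⟨rfl, rfl, h⟩ | ⟨hn1, hn2, h⟩
      · rw [h, h2.ev_one hA o1, ← h1.ev_eq hA k' p1 (fun hc => hne hc.1.symm), z1]
        show e1 (Sum.inl p, k') - e2 (Sum.inl p, k') = 0 - 1
        rw [h1.a, z2]; norm_num
      · rw [h, h1.ev_one hA o0, ← h2.ev_eq hA k' p0 (fun hc => hne hc.1), z2]
        show e1 (Sum.inl p, k') - e2 (Sum.inl p, k') = 1 - 0
        rw [h2.a, z1]; norm_num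
      · rw [h, ← h1.ev_eq hA k' p hn1, ← h2.ev_eq hA k' p hn2]
  apply reduce (G := swapG G k p0 p1 hl) (val_half.2 hval)
  right
  refine ⟨hlf V, lin_hlf hV, ?_, p0, k, ?_⟩
  · intro p k' hz
    have hz' : Even (pos A (Sum.inl p, k')) := by
      rw [← Isz_pos_half]; exact hz
    show ((e1 (Sum.inl p, k') - e2 (Sum.inl p, k') : ℤ) : ℚ) / 2 = 0
    rw [h1.z _ hz', h2.z _ hz']
    simp
  · show ((e1 (Sum.inl p0, k) - e2 (Sum.inl p0, k) : ℤ) : ℚ) / 2 ≠ 0
    rw [h1.a, z2]
    norm_num

/-! ### switch -/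

/-- adding one node to each side -/
def s0 (G : Cmb n P M) (k : Fin 3) : Option P ≃ Option M ⊕ (Fin 3 × Fin n) where
  toFun
    | none => Sum.inl none
    | some p => Sum.map some id (G.s k p)
  invFun
    | Sum.inl none => none
    | Sum.inl (some q) => some ((G.s k).symm (Sum.inl q))
    | Sum.inr b => some ((G.s k).symm (Sum.inr b))
  left_inv := by
    rintro (_ | p)
    · rfl
    · rcases hs : G.s k p with q | b
      · simp only [hs, Sum.map_inl]
        rw [← hs]; simp
      · simp only [hs, Sum.map_inr, id]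
        rw [← hs]; simp
  right_inv := by
    rintro ((_ | q) | b)
    · rfl
    · simp
    · simp

lemma s0_none (G : Cmb n P M) (k : Fin 3) : s0 G k none = Sum.inl none := rfl
lemma s0_some (G : Cmb n P M) (k : Fin 3) (p : P) : s0 G k (some p) = Sum.map some id (G.s k p) := rfl

/-- the node to switch with -/
def rr (k : Fin 3) (p0 p1 : P) (k' : Fin 3) : Option P :=
  if k' = k then some p0 else if k' = k + 1 then some p1 else none

lemma rr_lab (G : Cmb n P M) (k : Fin 3) (p0 p1 : P) (hl : G.lp p0 = G.lp p1) (k' : Fin 3) :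
    ((rr k p0 p1 k').elim (G.lp p0) G.lp) = G.lp p0 := by
  unfold rr
  split_ifs
  · rfl
  · exact hl.symm
  · rfl

open Classical in
noncomputable def switchG (G : Cmb n P M) (k : Fin 3) (p0 p1 : P) (hl : G.lp p0 = G.lp p1) :
    Cmb n (Option P) (Option M) where
  lp := fun p => p.elim (G.lp p0) G.lp
  lm := fun q => q.elim (G.lp p0) G.lm
  s := fun k' => (Equiv.swap none (rr k p0 p1 k')).trans (s0 G k')
  lab := by
    have key : ∀ k' p q, s0 G k' p = Sum.inl q → p.elim (G.lp p0) G.lp = q.elim (G.lp p0) G.lm := by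
      intro k' p q h
      rcases p with _ | p
      · rw [s0_none] at h
        rw [← Sum.inl.inj h]; rfl
      · rw [s0_some] at h
        rcases hs : G.s k' p with q' | b
        · rw [hs] at h
          simp only [Sum.map_inl, Sum.inl.injEq] at h
          rw [← h]
          exact G.lab k' p q' hs
        · rw [hs] at h; simp at h
    intro k' p q h
    simp only [Equiv.trans_apply] at h
    have h2 := key k' _ q h
    rw [← h2, Equiv.swap_apply_def]
    split_ifs with h3 h4
    · rw [h3]; exact (rr_lab G k p0 p1 hl k').symm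
    · rw [h4]; exact rr_lab G k p0 p1 hl k'
    · rfl
  labb := by
    have key : ∀ k' p i j, s0 G k' p = Sum.inr (i, j) → p.elim (G.lp p0) G.lp = i := by
      intro k' p i j h
      rcases p with _ | p
      · rw [s0_none] at h; simp at h
      · rw [s0_some] at h
        rcases hs : G.s k' p with q' | b
        · rw [hs] at h; simp at h
        · rw [hs] at h
          simp only [Sum.map_inr, id, Sum.inr.injEq] at h
          rw [h] at hs
          exact G.labb k' p i j hs
    intro k' p i j h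
    simp only [Equiv.trans_apply] at h
    have h2 := key k' _ i j h
    rw [← h2, Equiv.swap_apply_def]
    split_ifs with h3 h4
    · rw [h3]; exact (rr_lab G k p0 p1 hl k').symm
    · rw [h4]; exact rr_lab G k p0 p1 hl k'
    · rfl

lemma switchG_none (G : Cmb n P M) (k : Fin 3) (p0 p1 : P) (hl : G.lp p0 = G.lp p1) (k' : Fin 3) :
    (switchG G k p0 p1 hl).s k' none = s0 G k' (rr k p0 p1 k') := by
  simp [switchG]

lemma switchG_rr (G : Cmb n P M) (k : Fin 3) (p0 p1 : P) (hl : G.lp p0 = G.lp p1) (k' : Fin 3) (p : P)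
    (h : some p = rr k p0 p1 k') : (switchG G k p0 p1 hl).s k' (some p) = Sum.inl none := by
  simp [switchG, ← h, s0_none]

lemma switchG_other (G : Cmb n P M) (k : Fin 3) (p0 p1 : P) (hl : G.lp p0 = G.lp p1) (k' : Fin 3) (p : P)
    (h : some p ≠ rr k p0 p1 k') : (switchG G k p0 p1 hl).s k' (some p) = Sum.map some id (G.s k' p) := by
  classical
  simp only [switchG, Equiv.trans_apply]
  rw [Equiv.swap_apply_of_ne_of_ne (by simp) h, s0_some]

lemma rr_cases (k : Fin 3) (p0 p1 : P) (k' : Fin 3) :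
    (k' = k ∧ rr k p0 p1 k' = some p0) ∨ (k' = k + 1 ∧ rr k p0 p1 k' = some p1) ∨
    (k' = k + 2 ∧ rr k p0 p1 k' = none) := by
  unfold rr
  fin_cases k <;> fin_cases k' <;> simp

/-- increment at the new plus node -/
def dA (k k' : Fin 3) : ℤ := if k' = k then -1 else if k' = k + 1 then 1 else 0

lemma dA0 (k : Fin 3) : dA k k = -1 := by simp [dA]
lemma dA1 (k : Fin 3) : dA k (k+1) = 1 := by fin_cases k <;> simp [dA]
lemma dA2 (k : Fin 3) : dA k (k+2) = 0 := by fin_cases k <;> simp [dA]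

theorem switch_case [Fintype P] [Fintype M] {G : Cmb n P M} {l : Fin 3 → Fin n → ℤ} {A : Cfg ℤ n P M}
    (hA : Val G (fun i j => 2 * l i j) A)
    (hstrict : ∀ k p q, G.s k p = Sum.inl q → A.x p (k+1) < A.y q (k+1))
    (k : Fin 3) (p0 p1 : P) (hl : G.lp p0 = G.lp p1)
    (T : Fin 3 → ℤ) (hT : T 0 + T 1 + T 2 = 0) (t0 : T k = A.x p0 k) (t1 : T (k+1) = A.x p1 (k+1))
    (o0 : Odd (T k)) (o1 : Odd (T (k+1)))
    (s1 : A.x p0 (k+1) < T (k+1)) (s1' : ∀ q, G.s k p0 = Sum.inl q → T (k+1) < A.y q (k+1))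
    (s2 : A.x p1 (k+2) < T (k+2)) (s2' : ∀ q, G.s (k+1) p1 = Sum.inl q → T (k+2) < A.y q (k+2))
    (e1 e2 : (P ⊕ M) × Fin 3 → ℤ) (h1 : Sgn G A p0 k e1) (h2 : Sgn G A p1 (k+1) e2)
    (dis : ∀ d, e1 d = 0 ∨ e2 d = 0) : Smaller (fun i j => (l i j : ℚ)) (hlf A) := by
  have hTk := sum3 T k hT
  have a1 : Odd (pos A (Sum.inl p0, k)) := by rw [pos_inl, ← t0]; exact o0
  have a2 : Odd (pos A (Sum.inl p1, k+1)) := by rw [pos_inl, ← t1]; exact o1
  have z2 : e2 (Sum.inl p0, k) = 0 := by
    rcases dis (Sum.inl p0, k) with h | h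
    · rw [h1.a] at h; norm_num at h
    · exact h
  have z1 : e1 (Sum.inl p1, k+1) = 0 := by
    rcases dis (Sum.inl p1, k+1) with h | h
    · exact h
    · rw [h2.a] at h; norm_num at h
  have kk1 : k ≠ k + 1 := by fin_cases k <;> simp
  -- increments
  obtain ⟨W, hW⟩ : ∃ W : (P ⊕ M) × Fin 3 → ℤ, W = fun d => - e1 d + e2 d := ⟨_, rfl⟩
  have hWs : ∀ v, W (v, 0) + W (v, 1) + W (v, 2) = 0 := by
    intro v
    have a := h1.s v
    have b := h2.s v
    rw [hW]; simp only
    linarith
  have hWv : ∀ d, (W d = 0 ∨ W d = 1 ∨ W d = -1) ∧ (Even (pos A d) → W d = 0) := by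
    intro d
    constructor
    · rw [hW]
      simp only
      rcases dis d with h | h <;> rw [h]
      · rcases h2.v d with h' | h' | h' <;> rw [h'] <;> norm_num
      · rcases h1.v d with h' | h' | h' <;> rw [h'] <;> norm_num
    · intro hd
      rw [hW]
      simp only
      rw [h1.z d hd, h2.z d hd]; norm_num
  have hWx : ∀ p κ, (W (Sum.inl p, κ) = 0 ∨ W (Sum.inl p, κ) = 1 ∨ W (Sum.inl p, κ) = -1) ∧
      (A.x p κ % 2 = 0 → W (Sum.inl p, κ) = 0) := by
    intro p κ
    refine ⟨(hWv _).1, fun h => (hWv _).2 ?_⟩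
    rw [pos_inl, Int.even_iff]; exact h
  have hWy : ∀ q κ, (W (Sum.inr q, κ) = 0 ∨ W (Sum.inr q, κ) = 1 ∨ W (Sum.inr q, κ) = -1) ∧
      (A.y q κ % 2 = 0 → W (Sum.inr q, κ) = 0) := by
    intro p κ
    refine ⟨(hWv _).1, fun h => (hWv _).2 ?_⟩
    rw [pos_inr, Int.even_iff]; exact h
  rw [Int.odd_iff] at o0 o1
  let A' : Cfg ℤ n (Option P) (Option M) :=
    ⟨fun p κ => p.elim (T κ + dA k κ) (fun p => A.x p κ + W (Sum.inl p, κ)),
     fun q κ => q.elim (T κ - dA k κ) (fun q => A.y q κ + W (Sum.inr q, κ)),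
     fun w j => A.c w j - (dfl G e1 p0 k).c w j + (dfl G e2 p1 (k+1)).c w j⟩
  have xn : ∀ κ, A'.x none κ = T κ + dA k κ := fun κ => rfl
  have xs : ∀ p κ, A'.x (some p) κ = A.x p κ + W (Sum.inl p, κ) := fun p κ => rfl
  have yn : ∀ κ, A'.y none κ = T κ - dA k κ := fun κ => rfl
  have ys : ∀ p κ, A'.y (some p) κ = A.y p κ + W (Sum.inr p, κ) := fun p κ => rfl
  have hev : ∀ κ z, ev (fun i j => 2 * l i j) A' κ (Sum.map some id z) =
      ev (fun i j => 2 * l i j) A κ z - ev 0 (dfl G e1 p0 k) κ z + ev 0 (dfl G e2 p1 (k+1)) κ z := by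
    intro κ z
    rcases z with q | ⟨i, j⟩
    · show A.y q κ + W (Sum.inr q, κ) = A.y q κ - e1 (Sum.inr q, κ) + e2 (Sum.inr q, κ)
      rw [hW]; ring
    · show bd (fun i j => 2 * l i j) A'.c κ i j = bd (fun i j => 2 * l i j) A.c κ i j -
        bd 0 (dfl G e1 p0 k).c κ i j + bd 0 (dfl G e2 p1 (k+1)).c κ i j
      unfold bd
      split_ifs
      · simp
      · rfl
  have hevn : ∀ κ, ev (fun i j => 2 * l i j) A' κ (Sum.inl none) = T κ - dA k κ := fun κ => rfl
  have W0 : W (Sum.inl p0, k) = 1 := by rw [hW]; simp only; rw [h1.a, z2]; norm_num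
  have W1 : W (Sum.inl p1, k+1) = -1 := by rw [hW]; simp only; rw [h2.a, z1]; norm_num
  have heq : ∀ κ p, A'.x p κ = ev (fun i j => 2 * l i j) A' κ ((switchG G k p0 p1 hl).s κ p) := by
    intro κ p
    rcases p with _ | p
    · rw [switchG_none, xn]
      rcases rr_cases k p0 p1 κ with ⟨hκ, hr⟩ | ⟨hκ, hr⟩ | ⟨hκ, hr⟩
      · subst hκ
        rw [hr, s0_some, hev, h1.ev_one hA a1, ← h2.ev_eq hA κ p0 (fun hc => kk1 hc.2), z2, ← hA.ev_eq, ← t0, dA0]
        ring
      · subst hκ
        rw [hr, s0_some, hev, h2.ev_one hA a2, ← h1.ev_eq hA (k+1) p1 (fun hc => kk1 hc.2.symm), z1,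
          ← hA.ev_eq, ← t1, dA1]
        ring
      · subst hκ
        rw [hr, s0_none, hevn, dA2]
        ring
    · by_cases hp : some p = rr k p0 p1 κ
      · rw [switchG_rr G k p0 p1 hl κ p hp, hevn, xs]
        rcases rr_cases k p0 p1 κ with ⟨hκ, hr⟩ | ⟨hκ, hr⟩ | ⟨hκ, hr⟩
        · subst hκ
          rw [hr, Option.some.injEq] at hp
          subst hp
          rw [W0, ← t0, dA0]; ring
        · subst hκ
          rw [hr, Option.some.injEq] at hp
          subst hp
          rw [W1, ← t1, dA1]; ring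
        · rw [hr] at hp; simp at hp
      · rw [switchG_other G k p0 p1 hl κ p hp, hev, xs, hA.ev_eq κ p,
          ← h1.ev_eq hA κ p, ← h2.ev_eq hA κ p, hW]
        · ring
        · rintro ⟨rfl, hκ⟩
          apply hp
          rw [hκ]
          rcases rr_cases k p0 p (k+1) with ⟨h, hr⟩ | ⟨h, hr⟩ | ⟨h, hr⟩
          · exact absurd h.symm kk1
          · exact hr.symm
          · exfalso; fin_cases k <;> simp at h
        · rintro ⟨rfl, hκ⟩
          apply hp
          rw [hκ]
          simp [rr]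
  have hlin : Lin (switchG G k p0 p1 hl) (fun i j => 2 * l i j) A' := by
    apply Lin.of_ev _ _ heq
    · rintro (_ | p)
      · rw [xn, xn, xn]
        have : dA k 0 + dA k 1 + dA k 2 = 0 := by fin_cases k <;> simp [dA]
        linarith
      · rw [xs, xs, xs]
        have a := hA.sx p
        have b := hWs (Sum.inl p)
        linarith
    · rintro (_ | p)
      · rw [yn, yn, yn]
        have : dA k 0 + dA k 1 + dA k 2 = 0 := by fin_cases k <;> simp [dA]
        linarith
      · rw [ys, ys, ys]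
        have a := hA.sy p
        have b := hWs (Sum.inr p)
        linarith
  have hval : Val (switchG G k p0 p1 hl) (fun i j => 2 * l i j) A' := by
    refine ⟨hlin, ?_, ?_⟩
    · intro κ p q hq
      rcases p with _ | p
      · rw [switchG_none] at hq
        rw [xn]
        rcases rr_cases k p0 p1 κ with ⟨hκ, hr⟩ | ⟨hκ, hr⟩ | ⟨hκ, hr⟩
        · subst hκ
          rw [hr, s0_some] at hq
          rcases hs : G.s κ p0 with q' | b
          · rw [hs, Sum.map_inl, Sum.inl.injEq] at hq
            subst hq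
            rw [ys, dA1]
            have b1 := s1' q' hs
            have b2 := hWy q' (κ+1)
            omega
          · rw [hs] at hq; simp at hq
        · subst hκ
          rw [hr, s0_some] at hq
          rcases hs : G.s (k+1) p1 with q' | b
          · rw [hs, Sum.map_inl, Sum.inl.injEq] at hq
            subst hq
            rw [ys, a11, dA2]
            have b1 := s2' q' hs
            have b2 := hWy q' (k+2)
            omega
          · rw [hs] at hq; simp at hq
        · subst hκ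
          rw [hr, s0_none, Sum.inl.injEq] at hq
          subst hq
          rw [yn, a21, dA0]
          omega
      · by_cases hp : some p = rr k p0 p1 κ
        · rw [switchG_rr G k p0 p1 hl κ p hp, Sum.inl.injEq] at hq
          subst hq
          rw [xs, yn]
          rcases rr_cases k p0 p1 κ with ⟨hκ, hr⟩ | ⟨hκ, hr⟩ | ⟨hκ, hr⟩
          · subst hκ
            rw [hr, Option.some.injEq] at hp
            subst hp
            rw [dA1]
            have b2 := hWx p (κ+1)
            omega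
          · subst hκ
            rw [hr, Option.some.injEq] at hp
            subst hp
            rw [a11, dA2]
            have b2 := hWx p (k+2)
            omega
          · rw [hr] at hp; simp at hp
        · rw [switchG_other G k p0 p1 hl κ p hp] at hq
          rcases hs : G.s κ p with q' | b
          · rw [hs, Sum.map_inl, Sum.inl.injEq] at hq
            subst hq
            rw [xs, ys]
            have b1 := hstrict κ p q' hs
            have b2 := hWx p (κ+1)
            have b3 := hWy q' (κ+1)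
            omega
          · rw [hs] at hq; simp at hq
    · intro w j
      obtain ⟨κ, i, hκ, rfl⟩ := exists_slot w
      have hs : (switchG G k p0 p1 hl).s κ (((switchG G k p0 p1 hl).s κ).symm (Sum.inr (i, j))) = Sum.inr (i, j) := by simp
      generalize ((switchG G k p0 p1 hl).s κ).symm (Sum.inr (i, j)) = p at hs
      have hx := hlin.bv κ p i j hs
      rw [bd_ne _ _ _ _ _ hκ] at hx
      rw [← hx]
      have old : ∀ p, G.s κ p = Sum.inr (i, j) → 0 ≤ A.x p κ := by
        intro p hp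
        rw [hA.bv κ p i j hp, bd_ne _ _ _ _ _ hκ]
        exact hA.nn _ _
      rcases p with _ | p
      · rw [switchG_none] at hs
        rw [xn]
        rcases rr_cases k p0 p1 κ with ⟨hκ', hr⟩ | ⟨hκ', hr⟩ | ⟨hκ', hr⟩
        · subst hκ'
          rw [hr, s0_some] at hs
          rcases hs' : G.s κ p0 with q' | b
          · rw [hs'] at hs; simp at hs
          · rw [hs'] at hs
            simp only [Sum.map_inr, id, Sum.inr.injEq] at hs
            rw [hs] at hs'
            have := old p0 hs'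
            rw [dA0]
            omega
        · subst hκ'
          rw [hr, s0_some] at hs
          rcases hs' : G.s (k+1) p1 with q' | b
          · rw [hs'] at hs; simp at hs
          · rw [hs'] at hs
            simp only [Sum.map_inr, id, Sum.inr.injEq] at hs
            rw [hs] at hs'
            have := old p1 hs'
            rw [dA1]
            omega
        · rw [hr, s0_none] at hs
          simp at hs
      · by_cases hp : some p = rr k p0 p1 κ
        · rw [switchG_rr G k p0 p1 hl κ p hp] at hs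
          simp at hs
        · rw [switchG_other G k p0 p1 hl κ p hp] at hs
          rcases hs' : G.s κ p with q' | b
          · rw [hs'] at hs; simp at hs
          · rw [hs'] at hs
            simp only [Sum.map_inr, id, Sum.inr.injEq] at hs
            rw [hs] at hs'
            have := old p hs'
            rw [xs]
            have b2 := hWx p κ
            omega
  refine ⟨Option P, Option M, inferInstance, inferInstance, switchG G k p0 p1 hl, hlf A', val_half.2 hval,
    Or.inl ?_⟩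
  -- the measure
  have nonz : ∀ κ, Isz ((hlf A').x none κ) := by
    intro κ
    show Isz (((A'.x none κ : ℤ) : ℚ) / 2)
    rw [Isz_half, xn, Int.even_iff]
    rcases rr_cases k p0 p1 κ with ⟨hκ, hr⟩ | ⟨hκ, hr⟩ | ⟨hκ, hr⟩
    · subst hκ; rw [dA0]; omega
    · subst hκ; rw [dA1]; omega
    · subst hκ; rw [dA2]; omega
  have hx2 : ∀ p κ, ¬ Isz ((hlf A').x (some p) κ) → ¬ Isz ((hlf A).x p κ) := by
    intro p κ h h'
    apply h
    show Isz (((A'.x (some p) κ : ℤ) : ℚ) / 2)
    have h'' : Isz (((A.x p κ : ℤ) : ℚ) / 2) := h'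
    rw [Isz_half, Int.even_iff] at h''
    rw [Isz_half, xs, (hWx p κ).2 h'', Int.even_iff]
    omega
  classical
  unfold M1
  rw [Nat.card_eq_fintype_card, Nat.card_eq_fintype_card]
  have hb : ¬ Isz ((hlf A).x p0 k) := by
    intro h'
    have h'' : Isz (((A.x p0 k : ℤ) : ℚ) / 2) := h'
    rw [Isz_half, Int.even_iff, ← t0] at h''
    omega
  let F : {d : Option P × Fin 3 // ¬ Isz ((hlf A').x d.1 d.2)} → {d : P × Fin 3 // ¬ Isz ((hlf A).x d.1 d.2)} :=
    fun d => match d with
      | ⟨(none, κ), h⟩ => absurd (nonz κ) h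
      | ⟨(some p, κ), h⟩ => ⟨(p, κ), hx2 p κ h⟩
  apply Fintype.card_lt_of_injective_of_notMem F (b := ⟨(p0, k), hb⟩)
  · rintro ⟨⟨_ | p, κ⟩, h⟩ ⟨⟨_ | p', κ'⟩, h'⟩ hF
    · exact absurd (nonz κ) h
    · exact absurd (nonz κ) h
    · exact absurd (nonz κ') h'
    · simp only [F, Subtype.mk.injEq, Prod.mk.injEq] at hF
      obtain ⟨rfl, rfl⟩ := hF
      rfl
  · rintro ⟨⟨⟨_ | p, κ⟩, h⟩, hF⟩
    · exact absurd (nonz κ) h
    · simp only [F, Subtype.mk.injEq, Prod.mk.injEq] at hF
      obtain ⟨rfl, rfl⟩ := hF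
      apply h
      show Isz (((A'.x (some p) κ : ℤ) : ℚ) / 2)
      rw [Isz_half, xs, W0, ← t0, Int.even_iff]
      omega

end Pool.Agent.NL
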