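import Mathlib
import Pool.Agent.NL.Switch

set_option autoImplicit false

namespace Pool.Agent.NL

open Finset

variable {n : ℕ} {P M : Type}

lemma sgn_of [Fintype P] [Fintype M] {G : Cmb n P M} {l : Fin 3 → Fin n → ℤ} {A : Cfg ℤ n P M}
    (h : CaseC G l (hlf A)) (p0 : P) (k0 : Fin 3) (ho : Odd (A.x p0 k0)) :
    ∃ e, Sgn G A p0 k0 e ∧
      (∀ T : P ⊕ M → Prop, (∀ d, Odd (pos A d) → T d.1 → T (t2 G d).1) → T (Sum.inl p0) → ∀ d, e d ≠ 0 → T d.1) ∧
      (∀ v k, Odd (pos A (v, k)) → (∃ k', e (v, k') ≠ 0) → e (v, k) ≠ 0) ∧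
      Odd (Nat.card {d : (P ⊕ M) × Fin 3 // e d = 1}) := by
  obtain ⟨e, a1, a2, a3, a4, a5, a6, a7, a8, a9⟩ := h.sign (Sum.inl p0, k0) (by
    rw [Isz_pos_half, Int.not_even_iff_odd]; exact ho)
  simp only [Isz_pos_half, Int.not_even_iff_odd] at a2 a7 a8
  exact ⟨e, ⟨a1, a2, a3, a4, a5, a6⟩, a7, a8, a9⟩

lemma ind_odd (a : ℤ) : ind (Odd a) = (a : ZMod 2) := by
  by_cases h : Odd a
  · rw [ind_true h]
    obtain ⟨b, rfl⟩ := h
    push_cast
    have : (2 : ZMod 2) = 0 := rfl
    rw [this]; ring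
  · rw [ind_false h]
    rw [Int.not_odd_iff_even] at h
    obtain ⟨b, rfl⟩ := h
    push_cast
    rw [CharTwo.add_self_eq_zero]

lemma cast_odd (a : ℤ) (h : Odd a) : (a : ZMod 2) = 1 := by
  rw [← ind_odd, ind_true h]

/-- the colouring by the component of a sign function -/
lemma colouring [Fintype P] [Fintype M] {G : Cmb n P M} {l : Fin 3 → Fin n → ℤ} {A : Cfg ℤ n P M}
    (hA : Val G (fun i j => 2 * l i j) A) (hl : Even (∑ i, ∑ j, l i j)) (p0 : P) (k0 : Fin 3)
    (e : (P ⊕ M) × Fin 3 → ℤ) (h : Sgn G A p0 k0 e)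
    (full : ∀ v k, Odd (pos A (v, k)) → (∃ k', e (v, k') ≠ 0) → e (v, k) ≠ 0)
    (hodd : Odd (Nat.card {d : (P ⊕ M) × Fin 3 // e d = 1})) :
    ∃ T : P ⊕ M → Prop, (∀ d, Odd (pos A d) → (T d.1 ↔ T (t2 G d).1)) ∧
      ∃ p k p' k', ∃ Q : Fin 3 → ℤ, G.lp p = G.lp p' ∧ T (Sum.inl p) ∧ ¬ T (Sum.inl p') ∧
        Odd (A.x p k) ∧ Odd (A.x p' k') ∧ Q 0 + Q 1 + Q 2 = 0 ∧ OnP G A p k Q ∧ OnP G A p' k' Q := by
  have hsq := sq_inv (G := G) e (Sum.inl p0, k0) h.t h.a h.b
  let T : P ⊕ M → Prop := fun v => ∃ k, e (v, k) ≠ 0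
  have hne : ∀ d, e d ≠ 0 → e (t2 G d) ≠ 0 := by
    intro d hd hc
    have := hsq d
    rw [hc] at this
    apply hd
    have h2 : (e d)^2 = 0 := by rw [← this]; norm_num
    exact pow_eq_zero_iff (by norm_num) |>.1 h2
  have hT1 : ∀ d, Odd (pos A d) → T d.1 → T (t2 G d).1 := by
    intro d ho hT
    exact ⟨_, hne d (full d.1 d.2 ho hT)⟩
  have hT : ∀ d, Odd (pos A d) → (T d.1 ↔ T (t2 G d).1) := by
    intro d ho
    refine ⟨hT1 d ho, ?_⟩
    intro h'
    have := hT1 (t2 G d) (by rw [pos_t2 hA.toLin]; exact ho) h'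
    rwa [t2_t2] at this
  refine ⟨T, hT, ?_⟩
  have hcodd : ∀ w j, pos A (sd G (rep w) j) = A.c w j := by
    intro w j
    have h1 := rep_spec w
    have h2 := hA.bv (rep w).1 ((G.s (rep w).1).symm (Sum.inr ((rep w).2, j))) (rep w).2 j (by simp)
    rw [bd_ne _ _ _ _ _ h1.1, h1.2] at h2
    exact h2
  let K : Col (toD G l A hA) :=
    { C := fun p => T (Sum.inl p)
      C' := fun q => T (Sum.inr q)
      cb := fun w j => T (sd G (rep w) j).1
      seg := fun k q ho => (hT (Sum.inr q, k) ho).symm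
      bd := fun k i j hk ho => by
        rcases rep_cases k i hk with h' | ⟨_, h'⟩
        · rw [← h']; rfl
        · rw [← h']
          have h3 := hT (sd G (k, i) j) ?_
          · rw [t2_sd] at h3
            exact h3
          · rw [← pos_t2 hA.toLin, t2_sd]
            show Odd (pos A (sd G (prt k i) j))
            rw [h', hcodd]
            exact ho }
  have hKnC : ∀ w, K.nC w = ((∑ j, (e (sd G (rep w) j))^2 : ℤ) : ZMod 2) := by
    intro w
    unfold Col.nC
    push_cast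
    apply Finset.sum_congr rfl
    intro j _
    show ind (T (sd G (rep w) j).1 ∧ Odd (A.c w j)) = _
    by_cases ho : Odd (A.c w j)
    · by_cases hc : T (sd G (rep w) j).1
      · rw [ind_true ⟨hc, ho⟩]
        have hn : e (sd G (rep w) j) ≠ 0 := full _ _ (by rw [← hcodd] at ho; exact ho) hc
        rcases h.v (sd G (rep w) j) with h' | h' | h'
        · exact absurd h' hn
        · rw [h']; norm_num
        · rw [h']; rfl
      · rw [ind_false (fun h => hc h.1)]
        have : e (sd G (rep w) j) = 0 := by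
          by_contra hcon
          exact hc ⟨_, hcon⟩
        rw [this]; norm_num
    · rw [ind_false (fun h => ho h.2)]
      rw [Int.not_odd_iff_even, ← hcodd] at ho
      rw [h.z _ ho]; norm_num
  have hpar := parity (G := G) e h.v h.s hsq (fun i j => h.z _ (z_even hA i j)) hodd
  have hsum : K.nC 0 + K.nC 1 + K.nC 2 = 1 := by
    rw [hKnC, hKnC, hKnC, ← cast_odd _ hpar, Fin.sum_univ_three]
    push_cast
    ring
  have q0 := K.nC_eq 0
  have q1 := K.nC_eq 1
  have g00 : gg 0 0 = 0 := by decide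
  have g10 : gg 1 0 = 1 := by decide
  have g01 : gg 0 1 = 0 := by decide
  have g11 : gg 1 1 = 2 := by decide
  have g02 : gg 0 2 = 1 := by decide
  have g12 : gg 1 2 = 2 := by decide
  rw [g00, g10] at q0
  rw [g01, g11] at q1
  have n1 : K.nC 1 = 1 := by
    rw [q0, ← q1, q0] at hsum
    have z3 : ∀ a : ZMod 2, a + a + a = 1 → a = 1 := by decide
    exact z3 _ hsum
  have n2 : K.compl.nC 1 = 1 := by
    have hs : K.nC 1 + K.compl.nC 1 = ((∑ j, A.c 1 j : ℤ) : ZMod 2) := by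
      unfold Col.nC
      rw [← Finset.sum_add_distrib]
      push_cast
      apply Finset.sum_congr rfl
      intro j _
      rw [← ind_odd]
      show ind (T (sd G (rep 1) j).1 ∧ Odd (A.c 1 j)) + ind (¬ T (sd G (rep 1) j).1 ∧ Odd (A.c 1 j)) = _
      by_cases hc : T (sd G (rep 1) j).1
      · rw [ind_false (p := ¬ _ ∧ _) (fun h => h.1 hc), ind_congr (and_iff_right hc), add_zero]
      · rw [ind_false (p := _ ∧ _) (fun h => hc h.1), ind_congr (and_iff_right hc), zero_add]
    have b0 := hA.toLin.bsum 0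
    have b1 := hA.toLin.bsum 1
    have b2 := hA.toLin.bsum 2
    rw [g00, g10, ← Finset.mul_sum] at b0
    rw [g01, g11, ← Finset.mul_sum] at b1
    rw [g02, g12, ← Finset.mul_sum] at b2
    rw [Fin.sum_univ_three] at hl
    have hev : Even (∑ j, A.c 1 j) := by
      rw [Int.even_iff] at hl ⊢
      omega
    have : ((∑ j, A.c 1 j : ℤ) : ZMod 2) = 0 := by
      rw [← ind_odd, ind_false]
      rw [Int.not_odd_iff_even]; exact hev
    rw [this, n1] at hs
    have z3 : ∀ a : ZMod 2, 1 + a = 0 → a = 1 := by decide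
    exact z3 _ hs
  obtain ⟨p, k, p', k', Q, b1, b2, b3, b4, b5, b6, b7, b8⟩ := K.meet n1 n2
  exact ⟨p, k, p', k', Q, b1, b2, b3, b4, b5, b6, b7, b8⟩

theorem caseC_smaller [Fintype P] [Fintype M] {G : Cmb n P M} {l : Fin 3 → Fin n → ℤ} {X : Cfg ℚ n P M}
    (h : CaseC G l X) (hl : Even (∑ i, ∑ j, l i j)) (hf : ∃ p k, ¬ Isz (X.x p k)) :
    Smaller (fun i j => (l i j : ℚ)) X := by
  obtain ⟨A, rfl⟩ := h.exists_half
  have hA : Val G (fun i j => 2 * l i j) A := val_half.1 h.val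
  have hstrict : ∀ k p q, G.s k p = Sum.inl q → A.x p (k+1) < A.y q (k+1) := by
    intro k p q hs
    apply lt_of_le_of_ne (hA.le k p q hs)
    intro hc
    apply h.nz
    refine ⟨k, p, q, hs, ?_⟩
    show ((A.x p (k+1) : ℤ) : ℚ) / 2 = ((A.y q (k+1) : ℤ) : ℚ) / 2
    rw [hc]
  obtain ⟨p0, k0, hf⟩ := hf
  have ho : Odd (A.x p0 k0) := by
    have h1 : ¬ Isz (((A.x p0 k0 : ℤ) : ℚ) / 2) := hf
    rw [Isz_half, Int.not_even_iff_odd] at h1
    exact h1
  obtain ⟨e, he, _, full, hodd⟩ := sgn_of h p0 k0 ho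
  obtain ⟨T, hT, p, k, p', k', Q, b1, b2, b3, b4, b5, b6, b7, b8⟩ := colouring hA hl p0 k0 e he full hodd
  -- signs
  have signs : ∀ p k p' k', Odd (A.x p k) → Odd (A.x p' k') → T (Sum.inl p) → ¬ T (Sum.inl p') →
      ∃ e1 e2, Sgn G A p k e1 ∧ Sgn G A p' k' e2 ∧ ∀ d, e1 d = 0 ∨ e2 d = 0 := by
    intro p k p' k' o1 o2 c1 c2
    obtain ⟨e1, h1, m1, _, _⟩ := sgn_of h p k o1
    obtain ⟨e2, h2, m2, _, _⟩ := sgn_of h p' k' o2
    refine ⟨e1, e2, h1, h2, ?_⟩
    intro d
    by_contra hcon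
    push Not at hcon
    have q1 := m1 T (fun d ho => (hT d ho).1) c1 d hcon.1
    have q2 := m2 (fun v => ¬ T v) (fun d ho h h' => h ((hT d ho).2 h')) c2 d hcon.2
    exact q2 q1
  by_cases hsame : ∃ p p' k, ∃ Q : Fin 3 → ℤ, G.lp p = G.lp p' ∧ T (Sum.inl p) ∧ ¬ T (Sum.inl p') ∧
        Odd (Q k) ∧ OnP G A p k Q ∧ OnP G A p' k Q
  · obtain ⟨p, p', k, Q, c1, c2, c3, c4, c5, c6⟩ := hsame
    obtain ⟨e1, e2, h1, h2, hd⟩ := signs p k p' k (by rw [← c5.1]; exact c4) (by rw [← c6.1]; exact c4) c2 c3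
    apply swap_case hA k p p' c1 Q c5 c6 c4 e1 e2 h1 h2
    · rcases hd (Sum.inl p', k) with h | h
      · exact h
      · rw [h2.a] at h; norm_num at h
    · rcases hd (Sum.inl p, k) with h | h
      · rw [h1.a] at h; norm_num at h
      · exact h
  · -- no two pieces of the same kind meet
    have nosame : ∀ p p' k (Q : Fin 3 → ℤ), G.lp p = G.lp p' → ¬ (T (Sum.inl p) ↔ T (Sum.inl p')) →
        Odd (Q k) → OnP G A p k Q → OnP G A p' k Q → False := by
      intro p p' k Q c1 c2 c3 c4 c5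
      by_cases hp : T (Sum.inl p)
      · exact hsame ⟨p, p', k, Q, c1, hp, fun h' => c2 ⟨fun _ => h', fun _ => hp⟩, c3, c4, c5⟩
      · have hp' : T (Sum.inl p') := by
          by_contra hcon
          exact c2 ⟨fun h => absurd h hp, fun h => absurd h hcon⟩
        exact hsame ⟨p', p, k, Q, c1.symm, hp', hp, c3, c5, c4⟩
    have onself : ∀ p k, OnP G A p k (A.x p) := fun p k => ⟨rfl, le_rfl, fun q hq => hA.le k p q hq⟩
    have onend : ∀ q k, OnP G A ((G.s k).symm (Sum.inl q)) k (A.y q) := by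
      intro q k
      refine ⟨(hA.seg k _ q (by simp)).symm, hA.le k _ q (by simp), ?_⟩
      intro q' hq'
      simp only [Equiv.apply_symm_apply, Sum.inl.injEq] at hq'
      rw [hq']
    have eqof : ∀ (u v : Fin 3 → ℤ) (k : Fin 3), u 0 + u 1 + u 2 = 0 → v 0 + v 1 + v 2 = 0 → u k = v k →
        u (k+1) = v (k+1) → u = v := by
      intro u v k s1 s2 h1 h2
      have h3 : u (k+2) = v (k+2) := by
        have := sum3 u k s1
        have := sum3 v k s2
        omega
      funext i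
      fin_cases k <;> fin_cases i <;> simp at * <;> assumption
    have Tend : ∀ p k q, G.s k p = Sum.inl q → Odd (A.y q k) → (T (Sum.inr q) ↔ T (Sum.inl p)) := by
      intro p k q hs ho
      have := hT (Sum.inr q, k) ho
      rw [t2_inr, ← hs, Equiv.symm_apply_apply] at this
      exact this
    -- the switch with adjacent kinds
    have main : ∀ p k p' (Q : Fin 3 → ℤ), G.lp p = G.lp p' → ¬ (T (Sum.inl p) ↔ T (Sum.inl p')) →
        Odd (A.x p k) → Odd (A.x p' (k+1)) → Q 0 + Q 1 + Q 2 = 0 → OnP G A p k Q → OnP G A p' (k+1) Q →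
        Smaller (fun i j => (l i j : ℚ)) (hlf A) := by
      intro p k p' Q c1 c2 c3 c4 c5 c6 c7
      have oQ0 : Odd (Q k) := by rw [c6.1]; exact c3
      have oQ1 : Odd (Q (k+1)) := by rw [c7.1]; exact c4
      obtain ⟨e1, e2, h1, h2, hd⟩ : ∃ e1 e2, Sgn G A p k e1 ∧ Sgn G A p' (k+1) e2 ∧ ∀ d, e1 d = 0 ∨ e2 d = 0 := by
        by_cases hp : T (Sum.inl p)
        · exact signs p k p' (k+1) c3 c4 hp (fun h' => c2 ⟨fun _ => h', fun _ => hp⟩)
        · have hp' : T (Sum.inl p') := by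
            by_contra hcon
            exact c2 ⟨fun h => absurd h hp, fun h => absurd h hcon⟩
          obtain ⟨e1, e2, h1, h2, hd⟩ := signs p' (k+1) p k c4 c3 hp' hp
          exact ⟨e2, e1, h2, h1, fun d => (hd d).symm⟩
      apply switch_case hA hstrict k p p' c1 Q c5 c6.1 c7.1 oQ0 oQ1 _ _ _ _ e1 e2 h1 h2 hd
      · apply lt_of_le_of_ne c6.2.1
        intro hc
        have he := eqof (A.x p) Q k (hA.sx p) c5 c6.1.symm hc
        apply nosame p p' (k+1) Q c1 c2 oQ1 _ c7
        rw [← he]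
        exact onself p (k+1)
      · intro q hq
        apply lt_of_le_of_ne (c6.2.2 q hq)
        intro hc
        have he := eqof (A.y q) Q k (hA.sy q) c5 (by rw [← hA.seg k p q hq]; exact c6.1.symm) hc.symm
        have ho1 : Odd (A.y q k) := by rw [← hA.seg k p q hq]; exact c3
        have ho2 : Odd (A.y q (k+1)) := by rw [he]; exact oQ1
        have hs2 : G.s (k+1) ((G.s (k+1)).symm (Sum.inl q)) = Sum.inl q := by simp
        apply nosame ((G.s (k+1)).symm (Sum.inl q)) p' (k+1) Q _ _ oQ1 _ c7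
        · rw [G.lab _ _ _ hs2, ← G.lab _ _ _ hq]; exact c1
        · rw [← Tend _ _ _ hs2 ho2, Tend _ _ _ hq ho1]; exact c2
        · rw [← he]
          exact onend q (k+1)
      · have h2' := c7.2.1
        rw [a11] at h2'
        apply lt_of_le_of_ne h2'
        intro hc
        have he := eqof (A.x p') Q (k+1) (hA.sx p') c5 c7.1.symm (by rw [a11]; exact hc)
        apply nosame p p' k Q c1 c2 oQ0 c6
        rw [← he]
        exact onself p' k
      · intro q hq
        have h2' := c7.2.2 q hq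
        rw [a11] at h2'
        apply lt_of_le_of_ne h2'
        intro hc
        have he := eqof (A.y q) Q (k+1) (hA.sy q) c5 (by rw [← hA.seg (k+1) p' q hq]; exact c7.1.symm)
          (by rw [a11]; exact hc.symm)
        have ho1 : Odd (A.y q (k+1)) := by rw [← hA.seg (k+1) p' q hq]; exact c4
        have ho2 : Odd (A.y q k) := by rw [he]; exact oQ0
        have hs2 : G.s k ((G.s k).symm (Sum.inl q)) = Sum.inl q := by simp
        apply nosame p ((G.s k).symm (Sum.inl q)) k Q _ _ oQ0 c6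
        · rw [← he]
          exact onend q k
        · rw [G.lab _ _ _ hs2, ← G.lab _ _ _ hq]; exact c1
        · rw [← Tend _ _ _ hs2 ho2, Tend _ _ _ hq ho1]; exact c2
    have hTT : ¬ (T (Sum.inl p) ↔ T (Sum.inl p')) := fun h' => b3 (h'.1 b2)
    have kcase : ∀ k k' : Fin 3, k' = k ∨ k' = k + 1 ∨ k = k' + 1 := by decide
    rcases kcase k k' with rfl | rfl | rfl
    · exact absurd (nosame p p' k' Q b1 hTT (by rw [b7.1]; exact b4) b7 b8) (by simp)
    · exact main p k p' Q b1 hTT b4 b5 b6 b7 b8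
    · exact main p' k' p Q b1.symm (fun h' => hTT h'.symm) b5 b4 b6 b8 b7

/-- every system with fractional coordinates can be made smaller -/
theorem smaller [Fintype P] [Fintype M] {G : Cmb n P M} {l : Fin 3 → Fin n → ℤ} {X : Cfg ℚ n P M}
    (h : Val G (fun i j => (l i j : ℚ)) X) (hl : Even (∑ i, ∑ j, l i j)) (hf : ∃ p k, ¬ Isz (X.x p k)) :
    Smaller (fun i j => (l i j : ℚ)) X := by
  by_cases hr : ZeroLen G X ∨ ∃ V, Slide G X V
  · exact reduce h hr
  · push Not at hr
    exact caseC_smaller ⟨h, hr.1, by push Not; exact hr.2⟩ hl hf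

/-- existence of an integral system -/
theorem exists_integral (l : Fin 3 → Fin n → ℤ) (hl : Even (∑ i, ∑ j, l i j)) :
    ∀ m1 m2 : ℕ, ∀ (P M : Type) [Fintype P] [Fintype M] (G : Cmb n P M) (X : Cfg ℚ n P M),
      M1 X = m1 → Fintype.card M = m2 → Val G (fun i j => (l i j : ℚ)) X →
      ∃ (P' M' : Type) (_ : Fintype P') (_ : Fintype M') (G' : Cmb n P' M') (X' : Cfg ℚ n P' M'),
        Val G' (fun i j => (l i j : ℚ)) X' ∧ ∀ p k, Isz (X'.x p k) := by
  intro m1
  induction m1 using Nat.strong_induction_on with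
  | _ m1 ih1 =>
    intro m2
    induction m2 using Nat.strong_induction_on with
    | _ m2 ih2 =>
      intro P M _ _ G X h1 h2 hX
      by_cases hf : ∃ p k, ¬ Isz (X.x p k)
      · obtain ⟨P', M', i1, i2, G', X', hX', hm⟩ := smaller hX hl hf
        rcases hm with hm | ⟨hm1, hm2⟩
        · exact ih1 (M1 X') (by omega) _ P' M' G' X' rfl rfl hX'
        · rcases Nat.lt_or_ge (M1 X') m1 with h3 | h3
          · exact ih1 (M1 X') h3 _ P' M' G' X' rfl rfl hX'
          · exact ih2 (Fintype.card M') (by omega) P' M' G' X' (by omega) rfl hX'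
      · push Not at hf
        exact ⟨P, M, inferInstance, inferInstance, G, X, hX, hf⟩

end Pool.Agent.NL
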