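import Mathlib
import Pool.Agent.NL.Main
import Pool.Agent.NL.FromLR

set_option autoImplicit false

namespace Pool.Agent.NL

open Finset

variable {n : ℕ} {P M : Type}

lemma floor_cast {a : ℚ} (h : Isz a) : ((⌊a⌋ : ℤ) : ℚ) = a := by
  obtain ⟨z, rfl⟩ := h
  simp

/-- an integral system over the integers -/
lemma val_floor {G : Cmb n P M} {l : Fin 3 → Fin n → ℤ} {X : Cfg ℚ n P M}
    (h : Val G (fun i j => (l i j : ℚ)) X) (hz : ∀ p k, Isz (X.x p k)) :
    ∃ B : Cfg ℤ n P M, Val G l B := by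
  have hzy : ∀ q k, Isz (X.y q k) := by
    intro q k
    rw [← h.seg k ((G.s k).symm (Sum.inl q)) q (by simp)]
    exact hz _ _
  have hzc : ∀ w j, Isz (X.c w j) := by
    intro w j
    obtain ⟨k, i, hk, rfl⟩ := exists_slot w
    have := h.bv k ((G.s k).symm (Sum.inr (i, j))) i j (by simp)
    rw [bd_ne _ _ _ _ _ hk] at this
    rw [← this]
    exact hz _ _
  refine ⟨⟨fun p k => ⌊X.x p k⌋, fun q k => ⌊X.y q k⌋, fun w j => ⌊X.c w j⌋⟩, ⟨⟨?_, ?_, ?_, ?_⟩, ?_, ?_⟩⟩
  · intro p
    have a := h.sx p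
    rw [← floor_cast (hz p 0), ← floor_cast (hz p 1), ← floor_cast (hz p 2)] at a
    exact_mod_cast a
  · intro p
    have a := h.sy p
    rw [← floor_cast (hzy p 0), ← floor_cast (hzy p 1), ← floor_cast (hzy p 2)] at a
    exact_mod_cast a
  · intro k p q hs
    simp only
    rw [h.seg k p q hs]
  · intro k p i j hs
    have a := h.bv k p i j hs
    simp only
    rw [a]
    unfold bd
    split_ifs
    · rw [show -((l i j : ℤ) : ℚ) = ((-(l i j) : ℤ) : ℚ) by push_cast; rfl, Int.floor_intCast]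
    · rfl
  · intro k p q hs
    exact Int.floor_mono (h.le k p q hs)
  · intro w j
    exact Int.floor_nonneg.2 (h.nn w j)

/-- inverse bijection of one network -/
def invN (G : Cmb n P M) (i k : Fin 3) (π : Fin n ≃ Fin n) :
    {q : M // G.lm q = i} ⊕ Fin n → {p : P // G.lp p = i}
  | Sum.inl q => ⟨(G.s k).symm (Sum.inl q.1), by rw [G.lab k _ q.1 (by simp)]; exact q.2⟩
  | Sum.inr j => ⟨(G.s k).symm (Sum.inr (i, π j)), G.labb k _ i (π j) (by simp)⟩

lemma invN_bij (G : Cmb n P M) (i k : Fin 3) (π : Fin n ≃ Fin n) : Function.Bijective (invN G i k π) := by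
  constructor
  · rintro (q | j) (q' | j') h <;> have h' := congrArg Subtype.val h <;> simp only [invN] at h' <;>
      have h2 := (G.s k).symm.injective h'
    · congr 1
      exact Subtype.ext (Sum.inl.inj h2)
    · simp at h2
    · simp at h2
    · congr 1
      simp only [Sum.inr.injEq, Prod.mk.injEq, EmbeddingLike.apply_eq_iff_eq, true_and] at h2
      exact h2
  · intro p
    rcases hs : G.s k p.1 with q | ⟨i', j⟩
    · refine ⟨Sum.inl ⟨q, by rw [← G.lab k p.1 q hs]; exact p.2⟩, ?_⟩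
      apply Subtype.ext
      simp only [invN]
      rw [← hs]; simp
    · have hi : i' = i := by rw [← G.labb k p.1 i' j hs]; exact p.2
      subst hi
      refine ⟨Sum.inr (π.symm j), ?_⟩
      apply Subtype.ext
      simp only [invN, Equiv.apply_symm_apply]
      rw [← hs]; simp

noncomputable def netOf (G : Cmb n P M) {l : Fin 3 → Fin n → ℤ} (B : Cfg ℤ n P M) (hB : Val G l B)
    (i : Fin 3) (π : Fin 3 → (Fin n ≃ Fin n)) : Net n {p : P // G.lp p = i} {q : M // G.lm q = i} where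
  s := fun k => (Equiv.ofBijective _ (invN_bij G i k (π k))).symm
  x := fun p => B.x p.1
  y := fun q => B.y q.1
  sx := fun p => hB.sx _
  sy := fun q => hB.sy _
  seg := by
    intro k b
    rw [Equiv.symm_symm, Equiv.ofBijective_apply]
    exact ⟨hB.seg k _ b.1 (by simp [invN]), hB.le k _ b.1 (by simp [invN])⟩

lemma netOf_bv (G : Cmb n P M) {l : Fin 3 → Fin n → ℤ} (B : Cfg ℤ n P M) (hB : Val G l B)
    (i : Fin 3) (π : Fin 3 → (Fin n ≃ Fin n)) (k : Fin 3) (j : Fin n) :
    (netOf G B hB i π).bv k j = bd l B.c k i (π k j) := by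
  unfold Net.bv
  simp only [netOf]
  rw [Equiv.symm_symm, Equiv.ofBijective_apply]
  exact hB.bv k _ i (π k j) (by simp [invN])

theorem saturation (n : ℕ) (L : Fin 3 → ℕ → ℕ) (hL : ∀ i, Antitone (L i))
    (heven : Even (∑ i : Fin 3, ∑ j : Fin n, (L i j : ℤ))) (k0 : ℕ) (hk0 : 1 ≤ k0)
    (w : Fin 3 → ℕ → ℕ) (t : Fin 3 → ℕ → ℕ → ℕ)
    (h : ∀ i, LRd n (fun j => k0 * L i j) (w (gg 0 i)) (w (gg 1 i)) (t i)) :
    ∃ a : Fin 3 → ℕ → ℕ, (∀ u, Antitone (a u)) ∧ (∀ u j, n ≤ j → a u j = 0) ∧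
      ∀ i, ∃ t, LRd n (L i) (a (gg 0 i)) (a (gg 1 i)) t := by
  classical
  have hv := lr_val n w t (fun i j => k0 * L i j) h
  have hk0' : (0:ℚ) < k0 := by exact_mod_cast hk0
  have hv2 := val_scl (l' := fun i j => (((L i j : ℕ) : ℤ) : ℚ)) hv (1 / k0) (by positivity) (by
    intro i j
    push_cast
    field_simp)
  have := Fintype.ofFinite (PU n)
  have := Fintype.ofFinite (MD n)
  obtain ⟨P', M', i1, i2, G', X', hX', hz⟩ := exists_integral (fun i j => ((L i j : ℕ) : ℤ)) heven _ _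
    (PU n) (MD n) (lrG n) _ rfl rfl hv2
  obtain ⟨B, hB⟩ := val_floor hX' hz
  let ρ : Fin 3 → (Fin n ≃ Fin n) := fun u => Tuple.sort (fun j => - B.c u j)
  have hρ : ∀ u, Antitone (fun j => B.c u (ρ u j)) := by
    intro u i j hij
    have := Tuple.monotone_sort (fun j => - B.c u j) hij
    simp only [Function.comp] at this
    show B.c u (ρ u j) ≤ B.c u (ρ u i)
    exact neg_le_neg_iff.1 this
  let a : Fin 3 → ℕ → ℕ := fun u j => if h : j < n then (B.c u (ρ u ⟨j, h⟩)).toNat else 0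
  have ha : ∀ u (j : Fin n), (a u j : ℤ) = B.c u (ρ u j) := by
    intro u j
    simp only [a]
    rw [dif_pos j.2]
    exact Int.toNat_of_nonneg (hB.nn _ _)
  refine ⟨a, ?_, ?_, ?_⟩
  · intro u i j hij
    simp only [a]
    by_cases hj : j < n
    · rw [dif_pos hj, dif_pos (lt_of_le_of_lt hij hj)]
      apply Int.toNat_le_toNat
      exact hρ u (show (⟨i, lt_of_le_of_lt hij hj⟩ : Fin n) ≤ ⟨j, hj⟩ from hij)
    · rw [dif_neg hj]
      exact Nat.zero_le _
  · intro u j hj
    simp only [a]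
    rw [dif_neg (by omega)]
  · intro i
    let π : Fin 3 → (Fin n ≃ Fin n) := fun k => if k = 2 then Equiv.refl _ else ρ (gg k i)
    apply net_to_LR (netOf G' B hB i π) (a (gg 0 i)) (a (gg 1 i)) (L i)
    · intro x y hxy
      simp only [a]
      by_cases hj : y < n
      · rw [dif_pos hj, dif_pos (lt_of_le_of_lt hxy hj)]
        apply Int.toNat_le_toNat
        exact hρ _ (show (⟨x, lt_of_le_of_lt hxy hj⟩ : Fin n) ≤ ⟨y, hj⟩ from hxy)
      · rw [dif_neg hj]
        exact Nat.zero_le _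
    · intro x y hxy
      simp only [a]
      by_cases hj : y < n
      · rw [dif_pos hj, dif_pos (lt_of_le_of_lt hxy hj)]
        apply Int.toNat_le_toNat
        exact hρ _ (show (⟨x, lt_of_le_of_lt hxy hj⟩ : Fin n) ≤ ⟨y, hj⟩ from hxy)
      · rw [dif_neg hj]
        exact Nat.zero_le _
    · exact hL i
    · intro j
      rw [netOf_bv, bd_ne _ _ _ _ _ (by decide), ha]
      rfl
    · intro j
      rw [netOf_bv, bd_ne _ _ _ _ _ (by decide), ha]
      rfl
    · intro j
      rw [netOf_bv]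
      simp [bd, π]

end Pool.Agent.NL
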